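import Mathlib

/-!
# Von Neumann dimension of right invariant subspaces of `l^2(G)^s` (real scalars)
-/

open scoped BigOperators ENNReal

namespace Pool.Agent.VND

/-- `l^2(G)^ι` -/
abbrev HS (G : Type*) (ι : Type*) := lp (fun _ : ι × G => ℝ) 2

section
variable {G : Type*} [Group G] {ι κ : Type*}

/-- the permutation of the coordinates behind `rt` -/
def rtEquiv (ι : Type*) (g : G) : ι × G ≃ ι × G where
  toFun p := (p.1, p.2 * g)
  invFun p := (p.1, p.2 * g⁻¹)
  left_inv p := by simp
  right_inv p := by simp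

lemma mem_comp {α : Type*} (e : α ≃ α) (f : lp (fun _ : α => ℝ) 2) :
    Memℓp (fun a => f (e a)) 2 := by
  have h := lp.memℓp f
  rw [memℓp_gen_iff (by norm_num)] at h ⊢
  exact (Equiv.summable_iff (f := fun a => ‖f a‖ ^ (2 : ℝ≥0∞).toReal) e).mpr h

/-- permutation of the coordinates of an `l^2` function -/
noncomputable def permute {α : Type*} (e : α ≃ α) : lp (fun _ : α => ℝ) 2 →ₗ[ℝ] lp (fun _ : α => ℝ) 2 where
  toFun f := ⟨fun a => f (e a), mem_comp e f⟩
  map_add' f g := by
    apply lp.ext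
    funext a
    rfl
  map_smul' c f := by
    apply lp.ext
    funext a
    rfl

lemma permute_apply {α : Type*} (e : α ≃ α) (f : lp (fun _ : α => ℝ) 2) (a : α) :
    permute e f a = f (e a) := rfl

lemma norm_permute {α : Type*} (e : α ≃ α) (f : lp (fun _ : α => ℝ) 2) : ‖permute e f‖ = ‖f‖ := by
  rw [lp.norm_eq_tsum_rpow (by norm_num), lp.norm_eq_tsum_rpow (by norm_num)]
  congr 1
  exact Equiv.tsum_eq (f := fun a => ‖f a‖ ^ (2 : ℝ≥0∞).toReal) e

/-- permutation of the coordinates as an isometry -/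
noncomputable def permI {α : Type*} (e : α ≃ α) :
    lp (fun _ : α => ℝ) 2 ≃ₗᵢ[ℝ] lp (fun _ : α => ℝ) 2 where
  toLinearEquiv :=
    { permute e with
      invFun := permute e.symm
      left_inv := fun f => by
        apply lp.ext; funext a
        show f (e (e.symm a)) = f a
        rw [Equiv.apply_symm_apply]
      right_inv := fun f => by
        apply lp.ext; funext a
        show f (e.symm (e a)) = f a
        rw [Equiv.symm_apply_apply] }
  norm_map' f := norm_permute e f

/-- right translation: `(rt g f) (i, x) = f (i, x g)` -/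
noncomputable def rt (g : G) : HS G ι ≃ₗᵢ[ℝ] HS G ι := permI (rtEquiv ι g)

/-- left translation: `(lt g f) (i, x) = f (i, g⁻¹ x)` -/
noncomputable def lt (g : G) : HS G ι ≃ₗᵢ[ℝ] HS G ι :=
  permI
    { toFun := fun p => (p.1, g⁻¹ * p.2)
      invFun := fun p => (p.1, g * p.2)
      left_inv := fun p => by simp
      right_inv := fun p => by simp }

lemma rt_apply (g : G) (f : HS G ι) (i : ι) (x : G) : rt g f (i, x) = f (i, x * g) := rfl

lemma lt_apply (g : G) (f : HS G ι) (i : ι) (x : G) : lt g f (i, x) = f (i, g⁻¹ * x) := rfl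

open Classical in
/-- the unit vector at `(i, x)` -/
noncomputable def dl (i : ι) (x : G) : HS G ι := lp.single 2 (i, x) (1 : ℝ)

/-- the unit vector at `(i, 1)` -/
noncomputable def ee (i : ι) : HS G ι := dl i 1

omit [Group G] in
lemma dl_apply_self (i : ι) (x : G) : (dl i x : HS G ι) (i, x) = 1 := by
  classical
  exact lp.single_apply_self (E := fun _ : ι × G => ℝ) 2 (i, x) (1 : ℝ)

omit [Group G] in
lemma dl_apply_ne {i : ι} {x : G} {p : ι × G} (h : p ≠ (i, x)) : (dl i x : HS G ι) p = 0 := by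
  classical
  exact lp.single_apply_ne (E := fun _ : ι × G => ℝ) 2 (i, x) (1 : ℝ) h

omit [Group G] in
lemma norm_dl (i : ι) (x : G) : ‖(dl i x : HS G ι)‖ = 1 := by
  classical
  unfold dl
  rw [lp.norm_single (by norm_num)]
  norm_num

omit [Group G] in
lemma inner_dl (f : HS G ι) (i : ι) (x : G) : inner ℝ f (dl i x) = f (i, x) := by
  classical
  unfold dl
  rw [lp.inner_single_right]
  simp

omit [Group G] in
lemma inner_dl' (f : HS G ι) (i : ι) (x : G) : inner ℝ (dl i x) f = f (i, x) := by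
  rw [real_inner_comm, inner_dl]

lemma rt_dl (g : G) (i : ι) (x : G) : rt g (dl i x : HS G ι) = dl i (x * g⁻¹) := by
  apply lp.ext
  funext p
  obtain ⟨j, y⟩ := p
  rw [rt_apply]
  by_cases h : (j, y) = (i, x * g⁻¹)
  · obtain ⟨rfl, rfl⟩ := Prod.mk.inj h
    rw [dl_apply_self, inv_mul_cancel_right, dl_apply_self]
  · rw [dl_apply_ne h, dl_apply_ne]
    intro h2
    apply h
    obtain ⟨rfl, h3⟩ := Prod.mk.inj h2
    rw [← h3, mul_inv_cancel_right]

lemma lt_dl (g : G) (i : ι) (x : G) : lt g (dl i x : HS G ι) = dl i (g * x) := by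
  apply lp.ext
  funext p
  obtain ⟨j, y⟩ := p
  rw [lt_apply]
  by_cases h : (j, y) = (i, g * x)
  · obtain ⟨rfl, rfl⟩ := Prod.mk.inj h
    rw [dl_apply_self, inv_mul_cancel_left, dl_apply_self]
  · rw [dl_apply_ne h, dl_apply_ne]
    intro h2
    apply h
    obtain ⟨rfl, h3⟩ := Prod.mk.inj h2
    rw [← h3, mul_inv_cancel_left]

lemma dl_eq_rt (i : ι) (x : G) : (dl i x : HS G ι) = rt x⁻¹ (ee i) := by
  unfold ee
  rw [rt_dl, inv_inv, one_mul]

lemma rt_mul (g h : G) (f : HS G ι) : rt g (rt h f) = rt (g * h) f := by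
  apply lp.ext
  funext p
  obtain ⟨j, y⟩ := p
  rw [rt_apply, rt_apply, rt_apply, mul_assoc]

lemma rt_one (f : HS G ι) : rt (1 : G) f = f := by
  apply lp.ext
  funext p
  obtain ⟨j, y⟩ := p
  rw [rt_apply, mul_one]

lemma lt_mul (g h : G) (f : HS G ι) : lt g (lt h f) = lt (g * h) f := by
  apply lp.ext
  funext p
  obtain ⟨j, y⟩ := p
  rw [lt_apply, lt_apply, lt_apply, mul_inv_rev, mul_assoc]

lemma lt_one (f : HS G ι) : lt (1 : G) f = f := by
  apply lp.ext
  funext p
  obtain ⟨j, y⟩ := p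
  rw [lt_apply, inv_one, one_mul]

lemma lt_rt (g h : G) (f : HS G ι) : lt g (rt h f) = rt h (lt g f) := by
  apply lp.ext
  funext p
  obtain ⟨j, y⟩ := p
  rw [rt_apply, lt_apply, lt_apply, rt_apply, mul_assoc]

/-- right invariant subspaces -/
def Inv (V : Submodule ℝ (HS G ι)) : Prop := ∀ g : G, ∀ f ∈ V, rt g f ∈ V

/-- operators commuting with the right translations -/
def Eqv (T : HS G ι →L[ℝ] HS G κ) : Prop := ∀ (g : G) (f : HS G ι), T (rt g f) = rt g (T f)

/-- von Neumann dimension of (the closure of) a subspace -/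
noncomputable def vdim [Fintype ι] (V : Submodule ℝ (HS G ι)) : ℝ :=
  ∑ i, ‖V.topologicalClosure.starProjection (ee i)‖ ^ 2

end

end Pool.Agent.VND
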