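import Mathlib
import Pool.Agent.VND.Defs

/-!
Operators between the Hilbert modules `HS G ι`: restriction and extension along injections,
components, left multiplication by elements and matrices over the integral group ring,
restriction to subsets of the group; invariant subspaces.
-/

set_option autoImplicit false
open scoped RealInnerProductSpace ENNReal
open Filter Topology

namespace Pool.Agent.VND

/-! ### Restriction and extension along injections -/

section L2

variable {α β γ : Type*}

/-- `ℓ²(α)` -/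
abbrev L2 (α : Type*) := lp (fun _ : α => ℝ) 2

theorem two_toReal_pos : 0 < (2 : ℝ≥0∞).toReal := by norm_num

theorem sum_sq_le (f : L2 α) (s : Finset α) : ∑ i ∈ s, ‖f i‖ ^ (2 : ℝ≥0∞).toReal ≤
    ‖f‖ ^ (2 : ℝ≥0∞).toReal := lp.sum_rpow_le_norm_rpow two_toReal_pos f s

theorem sum_comap_le {j : β → α} (hj : Function.Injective j) (f : L2 α) (s : Finset β) :
    ∑ b ∈ s, ‖f (j b)‖ ^ (2 : ℝ≥0∞).toReal ≤ ‖f‖ ^ (2 : ℝ≥0∞).toReal := by
  have h1 := sum_sq_le f (s.map ⟨j, hj⟩)
  rwa [Finset.sum_map] at h1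

/-- restriction along an injection -/
noncomputable def comapL (j : β → α) (hj : Function.Injective j) : L2 α →L[ℝ] L2 β :=
  LinearMap.mkContinuous
    { toFun := fun f => ⟨fun b => f (j b), memℓp_gen' (C := ‖f‖ ^ (2 : ℝ≥0∞).toReal)
        (sum_comap_le hj f)⟩
      map_add' := fun _ _ => rfl
      map_smul' := fun _ _ => rfl } 1 (by
    intro f
    rw [one_mul]
    exact lp.norm_le_of_forall_sum_le two_toReal_pos (norm_nonneg _) (sum_comap_le hj f))

@[simp]
theorem comapL_apply (j : β → α) (hj : Function.Injective j) (f : L2 α) (b : β) :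
    comapL j hj f b = f (j b) := rfl

theorem norm_comapL_le (j : β → α) (hj : Function.Injective j) (f : L2 α) :
    ‖comapL j hj f‖ ≤ ‖f‖ :=
  lp.norm_le_of_forall_sum_le two_toReal_pos (norm_nonneg _) (sum_comap_le hj f)

theorem sum_ext_le {j : β → α} (hj : Function.Injective j) (f : L2 β) (s : Finset α) :
    ∑ a ∈ s, ‖Function.extend j (fun b => f b) 0 a‖ ^ (2 : ℝ≥0∞).toReal ≤
      ‖f‖ ^ (2 : ℝ≥0∞).toReal := by
  have h1 := Finset.sum_preimage j s hj.injOn
    (fun a => ‖Function.extend j (fun b => f b) 0 a‖ ^ (2 : ℝ≥0∞).toReal) (by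
      intro a _ ha
      simp only
      rw [Function.extend_apply' _ _ _ ha]
      simp)
  rw [← h1]
  refine le_trans (le_of_eq ?_) (sum_sq_le f (s.preimage j hj.injOn))
  apply Finset.sum_congr rfl
  intro b _
  rw [hj.extend_apply]

/-- extension by zero along an injection -/
noncomputable def extL (j : β → α) (hj : Function.Injective j) : L2 β →L[ℝ] L2 α :=
  LinearMap.mkContinuous
    { toFun := fun f => ⟨Function.extend j (fun b => f b) 0,
        memℓp_gen' (C := ‖f‖ ^ (2 : ℝ≥0∞).toReal) (sum_ext_le hj f)⟩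
      map_add' := by
        intro f g
        ext a
        show Function.extend j (fun b => f b + g b) 0 a =
          Function.extend j (fun b => f b) 0 a + Function.extend j (fun b => g b) 0 a
        by_cases ha : ∃ b, j b = a
        · obtain ⟨b, rfl⟩ := ha
          simp only [hj.extend_apply]
        · simp only [Function.extend_apply' _ _ _ ha, Pi.zero_apply, add_zero]
      map_smul' := by
        intro c f
        ext a
        show Function.extend j (fun b => c • f b) 0 a = c • Function.extend j (fun b => f b) 0 a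
        by_cases ha : ∃ b, j b = a
        · obtain ⟨b, rfl⟩ := ha
          simp only [hj.extend_apply]
        · simp only [Function.extend_apply' _ _ _ ha, Pi.zero_apply, smul_zero] } 1 (by
    intro f
    rw [one_mul]
    exact lp.norm_le_of_forall_sum_le two_toReal_pos (norm_nonneg _) (sum_ext_le hj f))

@[simp]
theorem extL_apply (j : β → α) (hj : Function.Injective j) (f : L2 β) (b : β) :
    extL j hj f (j b) = f b := hj.extend_apply _ _ _

theorem extL_apply' (j : β → α) (hj : Function.Injective j) (f : L2 β) {a : α}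
    (ha : ¬ ∃ b, j b = a) : extL j hj f a = 0 := Function.extend_apply' _ _ _ ha

theorem comapL_extL (j : β → α) (hj : Function.Injective j) (f : L2 β) :
    comapL j hj (extL j hj f) = f := by
  ext b
  simp

theorem inner_extL (j : β → α) (hj : Function.Injective j) (f : L2 β) (g : L2 α) :
    ⟪extL j hj f, g⟫ = ⟪f, comapL j hj g⟫ := by
  rw [lp.inner_eq_tsum, lp.inner_eq_tsum]
  have h1 : Function.support (fun a => ⟪extL j hj f a, g a⟫) ⊆ Set.range j := by
    intro a ha
    by_contra h
    apply ha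
    simp only
    rw [extL_apply' j hj f h, inner_zero_left]
  rw [← hj.tsum_eq h1]
  simp

theorem norm_extL (j : β → α) (hj : Function.Injective j) (f : L2 β) :
    ‖extL j hj f‖ = ‖f‖ := by
  have h1 : ‖extL j hj f‖ ^ 2 = ‖f‖ ^ 2 := by
    rw [← real_inner_self_eq_norm_sq, ← real_inner_self_eq_norm_sq, inner_extL, comapL_extL]
  exact (pow_left_inj₀ (norm_nonneg _) (norm_nonneg _) two_ne_zero).mp h1

/-- the isometry of `ℓ²` given by a bijection -/
noncomputable def congrL (e : β ≃ α) : L2 α ≃ₗᵢ[ℝ] L2 β where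
  toFun := comapL e e.injective
  map_add' := map_add _
  map_smul' := map_smul _
  invFun := comapL e.symm e.symm.injective
  left_inv := by
    intro f
    ext a
    simp
  right_inv := by
    intro f
    ext a
    simp
  norm_map' := by
    intro f
    apply le_antisymm (norm_comapL_le _ _ _)
    have h1 := norm_comapL_le e.symm e.symm.injective (comapL e e.injective f)
    have h2 : comapL e.symm e.symm.injective (comapL e e.injective f) = f := by
      ext a
      simp
    rw [h2] at h1
    exact h1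

@[simp]
theorem congrL_apply (e : β ≃ α) (f : L2 α) (b : β) : congrL e f b = f (e b) := rfl

theorem inner_congrL_congrL (e : β ≃ α) (f g : L2 α) : ⟪congrL e f, congrL e g⟫ = ⟪f, g⟫ :=
  (congrL e).inner_map_map f g

theorem single_congrL [DecidableEq α] [DecidableEq β] (e : β ≃ α) (a : α) (c : ℝ) :
    congrL e (lp.single 2 a c) = lp.single 2 (e.symm a) c := by
  ext b
  simp only [congrL_apply, lp.single_apply, Pi.single_apply]
  by_cases h : e b = a
  · rw [if_pos h, if_pos (by rw [← h]; simp)]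
  · rw [if_neg h, if_neg (fun hb => h (by rw [hb]; simp))]

/-- Vectors orthogonal to all basis vectors vanish. -/
theorem eq_zero_of_inner_single [DecidableEq α] {f : L2 α}
    (h : ∀ a, ⟪lp.single 2 a (1 : ℝ), f⟫ = 0) : f = 0 := by
  ext a
  have h1 := h a
  rw [lp.inner_single_left] at h1
  simpa using h1

/-- Continuous linear maps which agree on the basis vectors agree. -/
theorem clm_ext [DecidableEq α] {E : Type*} [NormedAddCommGroup E] [NormedSpace ℝ E]
    {S T : L2 α →L[ℝ] E} (h : ∀ a, S (lp.single 2 a 1) = T (lp.single 2 a 1)) : S = T := by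
  ext f
  have h1 : HasSum (fun a => lp.single 2 a (f a)) f :=
    lp.hasSum_single (by norm_num) f
  have h2 : ∀ a, (lp.single 2 a (f a) : L2 α) = f a • lp.single 2 a (1 : ℝ) := by
    intro a
    ext b
    simp only [lp.single_apply, lp.coeFn_smul, Pi.smul_apply, Pi.single_apply, smul_eq_mul]
    split_ifs
    · rw [mul_one]
    · rw [mul_zero]
  have hS := S.hasSum h1
  have hT := T.hasSum h1
  have h3 : (fun a => S (lp.single 2 a (f a))) = fun a => T (lp.single 2 a (f a)) := by
    funext a
    rw [h2, map_smul, map_smul, h]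
  rw [h3] at hS
  exact hS.unique hT

end L2

/-! ### Hilbert modules -/

section HS

variable {G : Type*} [Group G] {ι κ ν : Type*}

theorem rt_inv_rt (g : G) (f : HS G ι) : rt g⁻¹ (rt g f) = f := by
  rw [rt_mul, inv_mul_cancel, rt_one]

theorem rt_rt_inv (g : G) (f : HS G ι) : rt g (rt g⁻¹ f) = f := by
  rw [rt_mul, mul_inv_cancel, rt_one]

theorem inner_rt_left (g : G) (f h : HS G ι) : ⟪rt g f, h⟫ = ⟪f, rt g⁻¹ h⟫ := by
  rw [← (rt g⁻¹).inner_map_map (rt g f) h, rt_inv_rt]

theorem inner_rt_right (g : G) (f h : HS G ι) : ⟪f, rt g h⟫ = ⟪rt g⁻¹ f, h⟫ := by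
  rw [real_inner_comm, inner_rt_left, real_inner_comm]

theorem inner_lt_left (g : G) (f h : HS G ι) : ⟪lt g f, h⟫ = ⟪f, lt g⁻¹ h⟫ := by
  rw [← (lt g⁻¹).inner_map_map (lt g f) h, lt_mul, inv_mul_cancel, lt_one]

theorem inner_ee_left (i : ι) (f : HS G ι) : ⟪ee i, f⟫ = f (i, 1) := inner_dl' f i 1

theorem inner_ee_right (i : ι) (f : HS G ι) : ⟪f, ee i⟫ = f (i, 1) := inner_dl f i 1

theorem norm_ee (i : ι) : ‖(ee i : HS G ι)‖ = 1 := norm_dl i 1

theorem rt_ee (g : G) (i : ι) : rt g (ee i : HS G ι) = dl i g⁻¹ := by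
  unfold ee
  rw [rt_dl, one_mul]

theorem lt_ee (g : G) (i : ι) : lt g (ee i : HS G ι) = dl i g := by
  unfold ee
  rw [lt_dl, mul_one]

/-- Operators which agree on the basis vectors agree. -/
theorem HS.clm_ext {E : Type*} [NormedAddCommGroup E] [NormedSpace ℝ E]
    {S T : HS G ι →L[ℝ] E} (h : ∀ i x, S (dl i x) = T (dl i x)) : S = T := by
  classical
  apply VND.clm_ext
  rintro ⟨i, x⟩
  have h1 : (lp.single 2 (i, x) (1 : ℝ) : HS G ι) = dl i x := by
    unfold dl
    congr!
  rw [h1, h]

/-- Equivariant operators are determined by their values at the `ee i`. -/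
theorem Eqv.ext {S T : HS G ι →L[ℝ] HS G κ} (hS : Eqv S) (hT : Eqv T)
    (h : ∀ i, S (ee i) = T (ee i)) : S = T := by
  apply HS.clm_ext
  intro i x
  rw [dl_eq_rt, hS, hT, h]

theorem Eqv.comp {S : HS G κ →L[ℝ] HS G ν} {T : HS G ι →L[ℝ] HS G κ} (hS : Eqv S) (hT : Eqv T) :
    Eqv (S ∘L T) := fun g f => by
  rw [ContinuousLinearMap.comp_apply, ContinuousLinearMap.comp_apply, hT, hS]

theorem Eqv.add {S T : HS G ι →L[ℝ] HS G κ} (hS : Eqv S) (hT : Eqv T) : Eqv (S + T) :=
  fun g f => by
    rw [add_apply, add_apply, hT, hS, map_add]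

theorem Eqv.sub {S T : HS G ι →L[ℝ] HS G κ} (hS : Eqv S) (hT : Eqv T) : Eqv (S - T) :=
  fun g f => by
    rw [sub_apply, sub_apply, hT, hS, map_sub]

theorem Eqv.smul (c : ℝ) {S : HS G ι →L[ℝ] HS G κ} (hS : Eqv S) : Eqv (c • S) :=
  fun g f => by
    rw [smul_apply, smul_apply, hS, map_smul]

theorem eqv_zero : Eqv (0 : HS G ι →L[ℝ] HS G κ) := fun g f => by simp

theorem eqv_id : Eqv (ContinuousLinearMap.id ℝ (HS G ι)) := fun _ _ => rfl

theorem Eqv.sum {σ : Type*} (s : Finset σ) {S : σ → (HS G ι →L[ℝ] HS G κ)}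
    (hS : ∀ a ∈ s, Eqv (S a)) : Eqv (∑ a ∈ s, S a) := by
  classical
  induction s using Finset.induction_on with
  | empty => simpa using eqv_zero
  | insert a s ha ih =>
    rw [Finset.sum_insert ha]
    exact (hS a (Finset.mem_insert_self _ _)).add
      (ih (fun b hb => hS b (Finset.mem_insert_of_mem hb)))

theorem Eqv.adjoint {T : HS G ι →L[ℝ] HS G κ} (hT : Eqv T) :
    Eqv (ContinuousLinearMap.adjoint T) := by
  intro g f
  apply ext_inner_right ℝ
  intro h
  rw [ContinuousLinearMap.adjoint_inner_left, inner_rt_left, inner_rt_left,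
    ContinuousLinearMap.adjoint_inner_left, hT]

theorem eqv_lt (g : G) : Eqv ((lt g : HS G ι ≃ₗᵢ[ℝ] HS G ι) : HS G ι →L[ℝ] HS G ι) :=
  fun h f => lt_rt g h f

theorem inv_bot : Inv (⊥ : Submodule ℝ (HS G ι)) := by
  intro g f hf
  rw [Submodule.mem_bot] at hf ⊢
  rw [hf, map_zero]

theorem inv_top : Inv (⊤ : Submodule ℝ (HS G ι)) := fun _ _ _ => Submodule.mem_top

theorem Inv.inf {V W : Submodule ℝ (HS G ι)} (hV : Inv V) (hW : Inv W) : Inv (V ⊓ W) :=
  fun g f hf => ⟨hV g f hf.1, hW g f hf.2⟩

theorem Inv.iInf {σ : Sort*} {V : σ → Submodule ℝ (HS G ι)} (hV : ∀ a, Inv (V a)) :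
    Inv (⨅ a, V a) := by
  intro g f hf
  rw [Submodule.mem_iInf] at hf ⊢
  exact fun a => hV a g f (hf a)

theorem Inv.map {V : Submodule ℝ (HS G ι)} (hV : Inv V) {T : HS G ι →L[ℝ] HS G κ} (hT : Eqv T) :
    Inv (V.map (T : HS G ι →ₗ[ℝ] HS G κ)) := by
  rintro g _ ⟨f, hf, rfl⟩
  exact ⟨rt g f, hV g f hf, hT g f⟩

theorem Inv.comap {V : Submodule ℝ (HS G κ)} (hV : Inv V) {T : HS G ι →L[ℝ] HS G κ}
    (hT : Eqv T) : Inv (V.comap (T : HS G ι →ₗ[ℝ] HS G κ)) := by
  intro g f hf
  have h1 : T f ∈ V := hf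
  have h2 : T (rt g f) ∈ V := by
    rw [hT]
    exact hV g _ h1
  exact h2

theorem Inv.orthogonal {V : Submodule ℝ (HS G ι)} (hV : Inv V) : Inv Vᗮ := by
  intro g f hf
  rw [Submodule.mem_orthogonal] at hf ⊢
  intro u hu
  rw [inner_rt_right]
  exact hf _ (hV g⁻¹ u hu)

theorem Inv.topologicalClosure {V : Submodule ℝ (HS G ι)} (hV : Inv V) :
    Inv V.topologicalClosure := by
  intro g f hf
  have h1 : f ∈ closure (V : Set (HS G ι)) := hf
  have h2 : rt g f ∈ closure (V : Set (HS G ι)) :=
    map_mem_closure (rt g).continuous h1 (fun x hx => hV g x hx)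
  exact h2

/-- The projection onto an invariant subspace is equivariant. -/
theorem Inv.starProjection {V : Submodule ℝ (HS G ι)} [V.HasOrthogonalProjection]
    (hV : Inv V) : Eqv V.starProjection := by
  intro g f
  apply Submodule.eq_starProjection_of_mem_orthogonal
  · exact hV g _ (Submodule.starProjection_apply_mem V f)
  · rw [← map_sub]
    exact hV.orthogonal g _ (Submodule.sub_starProjection_mem_orthogonal f)


/-! ### Components -/

theorem prInj (i : ι) : Function.Injective (fun p : Unit × G => (i, p.2)) := by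
  rintro ⟨⟨⟩, x⟩ ⟨⟨⟩, y⟩ h
  simpa using h

/-- the `i`-th component -/
noncomputable def pr (i : ι) : HS G ι →L[ℝ] HS G Unit := comapL (fun p => (i, p.2)) (prInj i)

/-- inclusion as the `i`-th component -/
noncomputable def inc (i : ι) : HS G Unit →L[ℝ] HS G ι := extL (fun p => (i, p.2)) (prInj i)

@[simp]
theorem pr_apply (i : ι) (f : HS G ι) (u : Unit) (x : G) : pr i f (u, x) = f (i, x) := rfl

open Classical in
theorem inc_apply (i : ι) (f : HS G Unit) (j : ι) (x : G) :
    inc i f (j, x) = if j = i then f ((), x) else 0 := by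
  split_ifs with h
  · subst h
    exact extL_apply (fun p : Unit × G => (j, p.2)) (prInj j) f ((), x)
  · apply extL_apply'
    rintro ⟨⟨⟨⟩, y⟩, hy⟩
    apply h
    simp only [Prod.mk.injEq] at hy
    exact hy.1.symm

theorem inc_apply_self (i : ι) (f : HS G Unit) (x : G) : inc i f (i, x) = f ((), x) := by
  classical
  rw [inc_apply, if_pos rfl]

theorem inc_apply_ne {i j : ι} (h : j ≠ i) (f : HS G Unit) (x : G) : inc i f (j, x) = 0 := by
  classical
  rw [inc_apply, if_neg h]

theorem HS.ext {f g : HS G ι} (h : ∀ i x, f (i, x) = g (i, x)) : f = g := by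
  apply lp.ext
  funext ⟨i, x⟩
  exact h i x

theorem pr_inc_self (i : ι) (f : HS G Unit) : pr i (inc i f) = f := by
  apply HS.ext
  rintro ⟨⟩ x
  rw [pr_apply, inc_apply_self]

theorem pr_inc_ne {i j : ι} (h : j ≠ i) (f : HS G Unit) : pr j (inc i f) = 0 := by
  apply HS.ext
  rintro ⟨⟩ x
  rw [pr_apply, inc_apply_ne h]
  rfl

open Classical in
theorem pr_inc (i j : ι) (f : HS G Unit) : pr j (inc i f) = if j = i then f else 0 := by
  split_ifs with h
  · subst h
    exact pr_inc_self j f
  · exact pr_inc_ne h f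

theorem lp_sum_apply {α σ : Type*} (s : Finset σ) (F : σ → lp (fun _ : α => ℝ) 2) (a : α) :
    (∑ k ∈ s, F k) a = ∑ k ∈ s, F k a := by
  classical
  induction s using Finset.induction_on with
  | empty => rfl
  | insert k s hk ih => rw [Finset.sum_insert hk, Finset.sum_insert hk, ← ih]; rfl

theorem sum_inc_pr [Fintype ι] (f : HS G ι) : ∑ i, inc i (pr i f) = f := by
  classical
  apply HS.ext
  intro j x
  rw [lp_sum_apply, Finset.sum_eq_single j]
  · rw [inc_apply_self, pr_apply]
  · intro i _ hij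
    exact inc_apply_ne (Ne.symm hij) _ _
  · intro h
    exact absurd (Finset.mem_univ _) h

theorem inner_inc_left (i : ι) (f : HS G Unit) (g : HS G ι) : ⟪inc i f, g⟫ = ⟪f, pr i g⟫ :=
  inner_extL _ _ _ _

theorem inner_inc_right (i : ι) (f : HS G ι) (g : HS G Unit) : ⟪f, inc i g⟫ = ⟪pr i f, g⟫ := by
  rw [real_inner_comm, inner_inc_left, real_inner_comm]

theorem norm_inc (i : ι) (f : HS G Unit) : ‖inc i f‖ = ‖f‖ := norm_extL _ _ _

theorem inner_eq_sum_pr [Fintype ι] (f g : HS G ι) : ⟪f, g⟫ = ∑ i, ⟪pr i f, pr i g⟫ := by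
  conv_lhs => rw [← sum_inc_pr f]
  rw [sum_inner]
  exact Finset.sum_congr rfl (fun i _ => inner_inc_left _ _ _)

theorem norm_sq_eq_sum_pr [Fintype ι] (f : HS G ι) : ‖f‖ ^ 2 = ∑ i, ‖pr i f‖ ^ 2 := by
  simp only [← real_inner_self_eq_norm_sq]
  exact inner_eq_sum_pr f f

theorem eqv_pr (i : ι) : Eqv (pr i : HS G ι →L[ℝ] HS G Unit) := fun _ _ => rfl

theorem eqv_inc (i : ι) : Eqv (inc i : HS G Unit →L[ℝ] HS G ι) := by
  intro g f
  apply HS.ext
  intro j x
  rw [rt_apply]
  by_cases h : j = i
  · subst h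
    rw [inc_apply_self, inc_apply_self, rt_apply]
  · rw [inc_apply_ne h, inc_apply_ne h]

theorem pr_lt (g : G) (i : ι) (f : HS G ι) : pr i (lt g f) = lt g (pr i f) := rfl

theorem pr_rt (g : G) (i : ι) (f : HS G ι) : pr i (rt g f) = rt g (pr i f) := rfl

theorem inc_lt (g : G) (i : ι) (f : HS G Unit) : inc i (lt g f) = lt g (inc i f) := by
  apply HS.ext
  intro j x
  rw [lt_apply]
  by_cases h : j = i
  · subst h
    rw [inc_apply_self, inc_apply_self, lt_apply]
  · rw [inc_apply_ne h, inc_apply_ne h]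

theorem inc_dl (i : ι) (x : G) : inc i (dl () x : HS G Unit) = dl i x := by
  apply HS.ext
  intro j y
  by_cases h : j = i
  · subst h
    rw [inc_apply_self]
    by_cases hy : y = x
    · subst hy
      rw [dl_apply_self, dl_apply_self]
    · rw [dl_apply_ne (fun hp => hy (Prod.mk.inj hp).2), dl_apply_ne (fun hp => hy (Prod.mk.inj hp).2)]
  · rw [inc_apply_ne h, dl_apply_ne (fun hp => h (Prod.mk.inj hp).1)]

theorem inc_ee (i : ι) : inc i (ee () : HS G Unit) = ee i := inc_dl i 1

theorem pr_dl_self (i : ι) (x : G) : pr i (dl i x : HS G ι) = dl () x := by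
  rw [← inc_dl, pr_inc_self]

theorem pr_dl_ne {i j : ι} (h : j ≠ i) (x : G) : pr j (dl i x : HS G ι) = 0 := by
  rw [← inc_dl, pr_inc_ne h]

/-! ### Left multiplication -/

/-- left translation as a homomorphism into operators -/
noncomputable def ltHom (G ι : Type*) [Group G] : G →* (HS G ι →L[ℝ] HS G ι) where
  toFun g := ((lt g : HS G ι ≃ₗᵢ[ℝ] HS G ι) : HS G ι →L[ℝ] HS G ι)
  map_one' := by
    ext f : 1
    exact lt_one f
  map_mul' g h := by
    ext f : 1
    exact (lt_mul g h f).symm

@[simp]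
theorem ltHom_apply (g : G) (f : HS G ι) : ltHom G ι g f = lt g f := rfl

/-- left multiplication by elements of the integral group ring -/
noncomputable def lm (G ι : Type*) [Group G] : MonoidAlgebra ℤ G →ₐ[ℤ] (HS G ι →L[ℝ] HS G ι) :=
  MonoidAlgebra.lift ℤ _ G (ltHom G ι)

theorem lm_single (g : G) (n : ℤ) (f : HS G ι) :
    lm G ι (MonoidAlgebra.single g n) f = (n : ℝ) • lt g f := by
  unfold lm
  rw [MonoidAlgebra.lift_single]
  show n • (ltHom G ι g f) = _
  rw [ltHom_apply, Int.cast_smul_eq_zsmul]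

theorem lm_of (g : G) (f : HS G ι) : lm G ι (MonoidAlgebra.of ℤ G g) f = lt g f := by
  rw [MonoidAlgebra.of_apply, lm_single, Int.cast_one, one_smul]

theorem lm_mul (a b : MonoidAlgebra ℤ G) (f : HS G ι) :
    lm G ι (a * b) f = lm G ι a (lm G ι b f) := by
  rw [map_mul]
  rfl

theorem lm_add (a b : MonoidAlgebra ℤ G) (f : HS G ι) :
    lm G ι (a + b) f = lm G ι a f + lm G ι b f := by
  rw [map_add]
  rfl

/-- Induction for properties of left multiplication operators. -/
theorem lm_induction {p : MonoidAlgebra ℤ G → Prop} (a : MonoidAlgebra ℤ G)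
    (hsingle : ∀ g n, p (MonoidAlgebra.single g n)) (hadd : ∀ a b, p a → p b → p (a + b)) :
    p a := by
  induction a using MonoidAlgebra.induction_linear with
  | zero => simpa using hsingle 1 0
  | add a b ha hb => exact hadd a b ha hb
  | single g n => exact hsingle g n

theorem eqv_lm (a : MonoidAlgebra ℤ G) : Eqv (lm G ι a) := by
  intro h f
  induction a using lm_induction with
  | hsingle g n => rw [lm_single, lm_single, lt_rt, map_smul]
  | hadd a b ha hb => rw [lm_add, lm_add, ha, hb, map_add]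

theorem pr_lm (a : MonoidAlgebra ℤ G) (i : ι) (f : HS G ι) :
    pr i (lm G ι a f) = lm G Unit a (pr i f) := by
  induction a using lm_induction with
  | hsingle g n => rw [lm_single, lm_single, map_smul, pr_lt]
  | hadd a b ha hb => rw [lm_add, lm_add, map_add, ha, hb]

theorem inc_lm (a : MonoidAlgebra ℤ G) (i : ι) (f : HS G Unit) :
    inc i (lm G Unit a f) = lm G ι a (inc i f) := by
  induction a using lm_induction with
  | hsingle g n => rw [lm_single, lm_single, map_smul, inc_lt]
  | hadd a b ha hb => rw [lm_add, lm_add, map_add, ha, hb]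

/-- left multiplication by a matrix over the integral group ring -/
noncomputable def mop [Fintype ι] [Fintype κ] (A : κ → ι → MonoidAlgebra ℤ G) :
    HS G ι →L[ℝ] HS G κ :=
  ∑ k, ∑ i, inc k ∘L lm G Unit (A k i) ∘L pr i

theorem mop_apply [Fintype ι] [Fintype κ] (A : κ → ι → MonoidAlgebra ℤ G) (f : HS G ι) :
    mop A f = ∑ k, ∑ i, inc k (lm G Unit (A k i) (pr i f)) := by
  unfold mop
  simp only [sum_apply, ContinuousLinearMap.comp_apply]

theorem pr_mop [Fintype ι] [Fintype κ] (A : κ → ι → MonoidAlgebra ℤ G) (k : κ) (f : HS G ι) :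
    pr k (mop A f) = ∑ i, lm G Unit (A k i) (pr i f) := by
  classical
  rw [mop_apply, map_sum, Finset.sum_eq_single k]
  · rw [map_sum]
    exact Finset.sum_congr rfl (fun i _ => pr_inc_self _ _)
  · intro l _ hl
    rw [map_sum]
    exact Finset.sum_eq_zero (fun i _ => pr_inc_ne (Ne.symm hl) _)
  · intro h
    exact absurd (Finset.mem_univ _) h

theorem eqv_mop [Fintype ι] [Fintype κ] (A : κ → ι → MonoidAlgebra ℤ G) : Eqv (mop A) :=
  Eqv.sum _ (fun k _ => Eqv.sum _ (fun i _ => (eqv_inc k).comp ((eqv_lm _).comp (eqv_pr i))))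

theorem HS.ext_pr {f g : HS G ι} (h : ∀ i, pr i f = pr i g) : f = g := by
  apply HS.ext
  intro i x
  have := h i
  rw [← pr_apply i f () x, this, pr_apply]

/-- Composition of matrix operators is given by the matrix product. -/
theorem mop_mop [Fintype ι] [Fintype κ] [Fintype ν] (B : ν → κ → MonoidAlgebra ℤ G)
    (A : κ → ι → MonoidAlgebra ℤ G) (f : HS G ι) :
    mop B (mop A f) = mop (fun n i => ∑ k, B n k * A k i) f := by
  apply HS.ext_pr
  intro n
  rw [pr_mop, pr_mop]
  have h1 : ∀ k, lm G Unit (B n k) (pr k (mop A f)) =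
      ∑ i, lm G Unit (B n k * A k i) (pr i f) := by
    intro k
    rw [pr_mop, map_sum]
    exact Finset.sum_congr rfl (fun i _ => (lm_mul _ _ _).symm)
  rw [Finset.sum_congr rfl (fun k _ => h1 k), Finset.sum_comm]
  apply Finset.sum_congr rfl
  intro i _
  rw [map_sum, sum_apply]

/-! ### Restriction to subsets of the group -/

theorem resInj (C : Set G) : Function.Injective (fun p : ι × C => (p.1, (p.2 : G))) := by
  rintro ⟨i, x⟩ ⟨j, y⟩ h
  simp only [Prod.mk.injEq] at h
  rw [h.1, Subtype.ext h.2]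

/-- restriction to the subset `C` of the group -/
noncomputable def res (C : Set G) : HS G ι →L[ℝ] HS G ι :=
  extL (fun p : ι × C => (p.1, (p.2 : G))) (resInj C) ∘L
    comapL (fun p : ι × C => (p.1, (p.2 : G))) (resInj C)

theorem res_apply_mem {C : Set G} {x : G} (hx : x ∈ C) (f : HS G ι) (i : ι) :
    res C f (i, x) = f (i, x) := by
  show extL (fun p : ι × C => (p.1, (p.2 : G))) (resInj C)
    (comapL (fun p : ι × C => (p.1, (p.2 : G))) (resInj C) f) (i, x) = _
  exact extL_apply (fun p : ι × C => (p.1, (p.2 : G))) (resInj C) _ (i, ⟨x, hx⟩)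

theorem res_apply_notMem {C : Set G} {x : G} (hx : x ∉ C) (f : HS G ι) (i : ι) :
    res C f (i, x) = 0 := by
  refine extL_apply' (fun p : ι × C => (p.1, (p.2 : G))) (resInj C) _ ?_
  rintro ⟨⟨j, y⟩, hy⟩
  simp only [Prod.mk.injEq] at hy
  apply hx
  rw [← hy.2]
  exact y.2

open Classical in
theorem res_apply (C : Set G) (f : HS G ι) (i : ι) (x : G) :
    res C f (i, x) = if x ∈ C then f (i, x) else 0 := by
  split_ifs with h
  · exact res_apply_mem h f i
  · exact res_apply_notMem h f i

theorem inner_res_left (C : Set G) (f g : HS G ι) : ⟪res C f, g⟫ = ⟪f, res C g⟫ := by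
  unfold res
  rw [ContinuousLinearMap.comp_apply, ContinuousLinearMap.comp_apply, inner_extL]
  conv_rhs => rw [real_inner_comm, inner_extL, real_inner_comm]

theorem res_res (C D : Set G) (f : HS G ι) : res C (res D f) = res (C ∩ D) f := by
  classical
  apply HS.ext
  intro i x
  rw [res_apply, res_apply, res_apply]
  by_cases h1 : x ∈ C <;> by_cases h2 : x ∈ D <;> simp [h1, h2]

theorem res_res_self (C : Set G) (f : HS G ι) : res C (res C f) = res C f := by
  rw [res_res, Set.inter_self]

theorem res_univ (f : HS G ι) : res (Set.univ : Set G) f = f := by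
  apply HS.ext
  intro i x
  rw [res_apply_mem (Set.mem_univ x)]

theorem res_empty (f : HS G ι) : res (∅ : Set G) f = 0 := by
  apply HS.ext
  intro i x
  rw [res_apply_notMem (Set.notMem_empty x)]
  rfl

theorem res_res_disjoint {C D : Set G} (h : Disjoint C D) (f : HS G ι) : res C (res D f) = 0 := by
  rw [res_res, Set.disjoint_iff_inter_eq_empty.mp h, res_empty]

theorem norm_res_sq (C : Set G) (f : HS G ι) : ‖res C f‖ ^ 2 = ⟪res C f, f⟫ := by
  rw [← real_inner_self_eq_norm_sq, inner_res_left, res_res_self, real_inner_comm]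

theorem norm_res_le (C : Set G) (f : HS G ι) : ‖res C f‖ ≤ ‖f‖ := by
  have h1 := norm_res_sq C f
  have h2 := real_inner_le_norm (res C f) f
  by_contra h
  push Not at h
  have h3 := norm_nonneg f
  nlinarith

/-- `res C` moves to `res (g C)` under left translation. -/
theorem lt_res (g : G) (C : Set G) (f : HS G ι) :
    lt g (res C f) = res ((fun x => g⁻¹ * x) ⁻¹' C) (lt g f) := by
  classical
  apply HS.ext
  intro i x
  rw [lt_apply, res_apply, res_apply, lt_apply]
  rfl

theorem lt_res_of_stable {g : G} {C : Set G} (hC : ∀ x, g⁻¹ * x ∈ C ↔ x ∈ C) (f : HS G ι) :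
    lt g (res C f) = res C (lt g f) := by
  rw [lt_res]
  congr 2
  ext x
  exact hC x

theorem rt_res (g : G) (C : Set G) (f : HS G ι) :
    rt g (res C f) = res ((fun x => x * g) ⁻¹' C) (rt g f) := by
  classical
  apply HS.ext
  intro i x
  rw [rt_apply, res_apply, res_apply, rt_apply]
  rfl

theorem pr_res (C : Set G) (i : ι) (f : HS G ι) : pr i (res C f) = res C (pr i f) := by
  classical
  apply HS.ext
  intro u x
  rw [pr_apply, res_apply, res_apply, pr_apply]

theorem inc_res (C : Set G) (i : ι) (f : HS G Unit) : inc i (res C f) = res C (inc i f) := by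
  classical
  apply HS.ext
  intro j x
  rw [res_apply, inc_apply, inc_apply]
  split_ifs with h1 h2 h2
  · rw [res_apply_mem h2]
  · rw [res_apply_notMem h2]
  · rfl
  · rfl

/-- Finitely many disjoint restrictions: Bessel's inequality. -/
theorem sum_norm_res_sq_le {σ : Type*} (s : Finset σ) (C : σ → Set G)
    (hC : ∀ a ∈ s, ∀ b ∈ s, a ≠ b → Disjoint (C a) (C b)) (f : HS G ι) :
    ∑ a ∈ s, ‖res (C a) f‖ ^ 2 ≤ ‖f‖ ^ 2 := by
  classical
  have h1 : ‖∑ a ∈ s, res (C a) f‖ ^ 2 = ∑ a ∈ s, ‖res (C a) f‖ ^ 2 := by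
    rw [← real_inner_self_eq_norm_sq, sum_inner]
    apply Finset.sum_congr rfl
    intro a ha
    rw [inner_sum, Finset.sum_eq_single a]
    · rw [real_inner_self_eq_norm_sq]
    · intro b hb hba
      rw [inner_res_left, res_res_disjoint (hC a ha b hb (Ne.symm hba)), inner_zero_right]
    · intro h
      exact absurd ha h
  have h2 : ⟪∑ a ∈ s, res (C a) f, f⟫ = ∑ a ∈ s, ‖res (C a) f‖ ^ 2 := by
    rw [sum_inner]
    exact Finset.sum_congr rfl (fun a _ => (norm_res_sq _ _).symm)
  have h3 := real_inner_le_norm (∑ a ∈ s, res (C a) f) f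
  rw [h2, ← h1] at h3
  rw [← h1]
  have h4 := norm_nonneg (∑ a ∈ s, res (C a) f)
  have h5 := norm_nonneg f
  by_contra h
  push Not at h
  have h6 : ‖f‖ < ‖∑ a ∈ s, res (C a) f‖ := by
    exact lt_of_pow_lt_pow_left₀ 2 h4 h
  nlinarith

end HS

end Pool.Agent.VND
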