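import Pool.Agent.VND.Spread

/-!
# The first `l^2`-Betti number of a finitely generated group, and induction from a subgroup
-/

set_option autoImplicit false

open scoped BigOperators ENNReal RealInnerProductSpace

namespace Pool.Agent.VND

section defs

variable {H : Type*} [Group H] {κ : Type*}

/-- The values at the family `s` of the derivations `c` of the group `H` with values in `l^2(H)`. -/
noncomputable def derValues (s : κ → H) : Submodule ℝ (HS H κ) where
  carrier := {f | ∃ c : H → HS H Unit, (∀ g h, c (g * h) = c g + lt g (c h)) ∧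
    ∀ k, c (s k) = pr k f}
  zero_mem' := ⟨fun _ => 0, fun g h => by rw [map_zero, add_zero], fun k => by rw [map_zero]⟩
  add_mem' := by
    rintro f f' ⟨c, hc, hs⟩ ⟨c', hc', hs'⟩
    refine ⟨fun g => c g + c' g, fun g h => ?_, fun k => ?_⟩
    · show c (g * h) + c' (g * h) = c g + c' g + lt g (c h + c' h)
      rw [hc, hc', map_add]
      abel
    · show c (s k) + c' (s k) = pr k (f + f')
      rw [hs, hs', map_add]
  smul_mem' := by
    rintro a f ⟨c, hc, hs⟩
    refine ⟨fun g => a • c g, fun g h => ?_, fun k => ?_⟩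
    · show a • c (g * h) = a • c g + lt g (a • c h)
      rw [hc, map_smul, smul_add]
    · show a • c (s k) = pr k (a • f)
      rw [hs, map_smul]

/-- The values at the family `s` of the inner derivations `g ↦ g ξ - ξ`, for `ξ` in `l^2(H)`. -/
noncomputable def innValues [Fintype κ] (s : κ → H) : Submodule ℝ (HS H κ) :=
  LinearMap.range (BS s).toLinearMap

/-- The first `l^2`-Betti number of the group `H` generated by the finite family `s`: the von Neumann
dimension of the reduced first cohomology of `H` with coefficients in `l^2(H)`, that is of the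
derivations orthogonal to the inner derivations. -/
noncomputable def betti [Fintype κ] (s : κ → H) : ℝ :=
  vdim (derValues s ⊓ (innValues s)ᗮ)

theorem mem_innValues [Fintype κ] (s : κ → H) (f : HS H κ) :
    f ∈ innValues s ↔ ∃ ξ : HS H Unit, ∀ k, pr k f = lt (s k) ξ - ξ := by
  constructor
  · rintro ⟨ξ, rfl⟩
    exact ⟨ξ, fun k => pr_BS s ξ k⟩
  · rintro ⟨ξ, h⟩
    refine ⟨ξ, ?_⟩
    apply HS.ext_pr
    intro k
    rw [h k]
    exact pr_BS s ξ k

theorem innValues_le [Fintype κ] (s : κ → H) : innValues s ≤ derValues s := by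
  intro f hf
  obtain ⟨ξ, h⟩ := (mem_innValues s f).mp hf
  refine ⟨fun g => lt g ξ - ξ, fun g h => ?_, fun k => (h k).symm⟩
  show lt (g * h) ξ - ξ = lt g ξ - ξ + lt g (lt h ξ - ξ)
  rw [map_sub, lt_mul]
  abel

theorem inv_derValues (s : κ → H) : Inv (derValues s) := by
  rintro g f ⟨c, hc, hs⟩
  refine ⟨fun x => rt g (c x), fun x y => ?_, fun k => ?_⟩
  · show rt g (c (x * y)) = rt g (c x) + lt x (rt g (c y))
    rw [hc, map_add, lt_rt]
  · show rt g (c (s k)) = pr k (rt g f)
    rw [hs, pr_rt]

theorem betti_nonneg [Fintype κ] (s : κ → H) : 0 ≤ betti s := vdim_nonneg _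

end defs

section rows

variable {G : Type*} [Group G] {τ : Type*}

theorem cocycle_one' {c : G → HS G Unit} (hc : ∀ g h, c (g * h) = c g + lt g (c h)) : c 1 = 0 := by
  have h1 := hc 1 1
  rw [mul_one, lt_one] at h1
  exact left_eq_add.mp h1

theorem cocycle_inv' {c : G → HS G Unit} (hc : ∀ g h, c (g * h) = c g + lt g (c h)) (g : G) :
    c g⁻¹ = - lt g⁻¹ (c g) := by
  have h1 := hc g⁻¹ g
  rw [inv_mul_cancel, cocycle_one' hc] at h1
  exact eq_neg_of_add_eq_zero_left h1.symm

/-- rows of operators: the value at `w` of every derivation from the values at the generators -/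
theorem exists_row_univ [Fintype τ] (p : τ → G) {w : G}
    (hw : w ∈ Subgroup.closure (Set.range p)) :
    ∃ T : τ → (HS G Unit →L[ℝ] HS G Unit), (∀ i, Eqv (T i)) ∧
      (∀ i f, T i (res (Subgroup.closure (Set.range p) : Set G) f) =
        res (Subgroup.closure (Set.range p) : Set G) (T i f)) ∧
      ∀ c : G → HS G Unit, (∀ g h, c (g * h) = c g + lt g (c h)) →
        c w = ∑ i, T i (c (p i)) := by
  classical
  have hstab : ∀ {n : G}, n ∈ Subgroup.closure (Set.range p) → ∀ x,
      n⁻¹ * x ∈ (Subgroup.closure (Set.range p) : Set G) ↔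
        x ∈ (Subgroup.closure (Set.range p) : Set G) := by
    intro n hn x
    exact Subgroup.mul_mem_cancel_left _ (Subgroup.inv_mem _ hn)
  induction hw using Subgroup.closure_induction with
  | mem x hx =>
    obtain ⟨k, rfl⟩ := hx
    refine ⟨fun i => if i = k then ContinuousLinearMap.id ℝ _ else 0, fun i => ?_, fun i f => ?_,
      fun c _ => ?_⟩
    · show Eqv (if i = k then ContinuousLinearMap.id ℝ _ else 0)
      split_ifs
      · exact eqv_id
      · exact eqv_zero
    · by_cases h : i = k
      · simp [h]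
      · simp [h]
    · rw [Finset.sum_eq_single k]
      · simp
      · intro b _ hb
        simp [hb]
      · intro h; exact absurd (Finset.mem_univ _) h
  | one =>
    refine ⟨fun _ => 0, fun _ => eqv_zero, fun i f => ?_, fun c hc => ?_⟩
    · simp
    · rw [cocycle_one' hc]
      simp
  | mul x y hx _ ihx ihy =>
    obtain ⟨T, h1, h2, h3⟩ := ihx
    obtain ⟨T', h1', h2', h3'⟩ := ihy
    refine ⟨fun i => T i + ltHom G Unit x ∘L T' i, fun i => (h1 i).add ((eqv_lt x).comp (h1' i)),
      fun i f => ?_, fun c hc => ?_⟩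
    · rw [add_apply, add_apply, ContinuousLinearMap.comp_apply, ContinuousLinearMap.comp_apply,
        h2, h2', ltHom_apply, ltHom_apply, lt_res_of_stable (hstab hx), map_add]
    · rw [hc x y, h3 c hc, h3' c hc, map_sum, ← Finset.sum_add_distrib]
      rfl
  | inv x hx ihx =>
    obtain ⟨T, h1, h2, h3⟩ := ihx
    refine ⟨fun i => (-1 : ℝ) • (ltHom G Unit x⁻¹ ∘L T i),
      fun i => Eqv.smul _ ((eqv_lt x⁻¹).comp (h1 i)), fun i f => ?_, fun c hc => ?_⟩
    · rw [smul_apply, smul_apply, ContinuousLinearMap.comp_apply, ContinuousLinearMap.comp_apply,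
        h2, ltHom_apply, ltHom_apply, lt_res_of_stable (hstab (Subgroup.inv_mem _ hx)), map_smul]
    · rw [cocycle_inv' hc, h3 c hc, map_sum, ← Finset.sum_neg_distrib]
      refine Finset.sum_congr rfl fun i _ => ?_
      rw [smul_apply, ContinuousLinearMap.comp_apply, neg_one_smul]
      rfl

theorem isClosed_derValues [Fintype τ] (p : τ → G)
    (hp : Subgroup.closure (Set.range p) = ⊤) : IsClosed (derValues p : Set (HS G τ)) := by
  choose T _ _ hT using fun w : G => exists_row_univ p (w := w) (by rw [hp]; exact Subgroup.mem_top w)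
  let C : G → HS G τ → HS G Unit := fun w f => ∑ i, T w i (pr i f)
  have hC : ∀ w, Continuous (C w) := by
    intro w
    exact continuous_finsetSum _ fun i _ => (T w i).continuous.comp (pr i).continuous
  have h1 : (derValues p : Set (HS G τ)) =
      (⋂ (g : G) (h : G), {f | C (g * h) f = C g f + lt g (C h f)}) ∩
        ⋂ k, {f | C (p k) f = pr k f} := by
    ext f
    simp only [Set.mem_inter_iff, Set.mem_iInter, Set.mem_ofPred_eq, SetLike.mem_coe]
    constructor
    · rintro ⟨c, hc, hs⟩
      have h2 : ∀ w, C w f = c w := by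
        intro w
        rw [hT w c hc]
        refine Finset.sum_congr rfl fun i _ => ?_
        rw [hs i]
      exact ⟨fun g h => by rw [h2, h2, h2, hc], fun k => by rw [h2, hs]⟩
    · rintro ⟨h2, h3⟩
      exact ⟨fun w => C w f, h2, h3⟩
  rw [h1]
  refine IsClosed.inter ?_ ?_
  · exact isClosed_iInter fun g => isClosed_iInter fun h =>
      isClosed_eq (hC _) ((hC g).add ((lt g).continuous.comp (hC h)))
  · exact isClosed_iInter fun k => isClosed_eq (hC _) (pr k).continuous

end rows

section induction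

variable {G : Type*} [Group G] (H : Subgroup G) {ι κ : Type*}

theorem jInj : Function.Injective (fun q : ι × H => (q.1, (q.2 : G))) := by
  rintro ⟨i, x⟩ ⟨j, y⟩ h
  simp only [Prod.mk.injEq] at h
  rw [h.1, Subtype.ext h.2]

/-- extension by zero -/
noncomputable def jx : HS H ι →L[ℝ] HS G ι :=
  extL (fun q : ι × H => (q.1, (q.2 : G))) (jInj H)

/-- restriction -/
noncomputable def jc : HS G ι →L[ℝ] HS H ι :=
  comapL (fun q : ι × H => (q.1, (q.2 : G))) (jInj H)

theorem jc_apply (f : HS G ι) (i : ι) (x : H) : jc H f (i, x) = f (i, (x : G)) := rfl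

theorem jx_apply (f : HS H ι) (i : ι) (x : H) : jx H f (i, (x : G)) = f (i, x) :=
  extL_apply (fun q : ι × H => (q.1, (q.2 : G))) (jInj H) f (i, x)

theorem jx_apply_notMem (f : HS H ι) (i : ι) {x : G} (hx : x ∉ H) : jx H f (i, x) = 0 := by
  refine extL_apply' (fun q : ι × H => (q.1, (q.2 : G))) (jInj H) f ?_
  rintro ⟨⟨j, y⟩, hy⟩
  simp only [Prod.mk.injEq] at hy
  apply hx
  rw [← hy.2]
  exact y.2

theorem jc_jx (f : HS H ι) : jc H (jx H f) = f := comapL_extL _ _ f

theorem inner_jx (f : HS H ι) (g : HS G ι) : ⟪jx H f, g⟫ = ⟪f, jc H g⟫ := inner_extL _ _ f g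

theorem norm_jx (f : HS H ι) : ‖jx H f‖ = ‖f‖ := norm_extL _ _ f

theorem jx_jc (f : HS G ι) : jx H (jc H f) = res (H : Set G) f := by
  apply HS.ext
  intro i x
  by_cases hx : x ∈ H
  · rw [res_apply_mem hx, jx_apply H _ i ⟨x, hx⟩, jc_apply]
  · rw [res_apply_notMem hx, jx_apply_notMem H _ i hx]

theorem jc_lt (h : H) (f : HS G ι) : jc H (lt (h : G) f) = lt h (jc H f) := by
  apply HS.ext
  intro i x
  rw [jc_apply, lt_apply, lt_apply, jc_apply]
  rfl

theorem jc_rt (h : H) (f : HS G ι) : jc H (rt (h : G) f) = rt h (jc H f) := by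
  apply HS.ext
  intro i x
  rw [jc_apply, rt_apply, rt_apply, jc_apply]
  rfl

theorem jx_lt (h : H) (f : HS H ι) : jx H (lt h f) = lt (h : G) (jx H f) := by
  apply HS.ext
  intro i x
  rw [lt_apply]
  by_cases hx : x ∈ H
  · rw [jx_apply H _ i ⟨x, hx⟩, lt_apply]
    exact (jx_apply H f i (h⁻¹ * ⟨x, hx⟩)).symm
  · have hx' : (h : G)⁻¹ * x ∉ H := fun h1 =>
      hx ((Subgroup.mul_mem_cancel_left H (H.inv_mem h.2)).mp h1)
    rw [jx_apply_notMem H _ i hx, jx_apply_notMem H _ i hx']

theorem jx_rt (h : H) (f : HS H ι) : jx H (rt h f) = rt (h : G) (jx H f) := by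
  apply HS.ext
  intro i x
  rw [rt_apply]
  by_cases hx : x ∈ H
  · rw [jx_apply H _ i ⟨x, hx⟩, rt_apply]
    exact (jx_apply H f i (⟨x, hx⟩ * h)).symm
  · have hx' : x * (h : G) ∉ H := fun h1 =>
      hx ((Subgroup.mul_mem_cancel_right H h.2).mp h1)
    rw [jx_apply_notMem H _ i hx, jx_apply_notMem H _ i hx']

theorem pr_jc (i : ι) (f : HS G ι) : pr i (jc H f) = jc H (pr i f) := rfl

theorem pr_jx (i : ι) (f : HS H ι) : pr i (jx H f) = jx H (pr i f) := by
  apply HS.ext
  intro u x
  rw [pr_apply]
  by_cases hx : x ∈ H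
  · rw [jx_apply H _ i ⟨x, hx⟩, jx_apply H _ u ⟨x, hx⟩, pr_apply]
  · rw [jx_apply_notMem H _ i hx, jx_apply_notMem H _ u hx]

theorem jx_ee (i : ι) : jx H (ee i : HS H ι) = ee i := by
  apply HS.ext
  intro j x
  by_cases hx : x ∈ H
  · rw [jx_apply H _ j ⟨x, hx⟩]
    by_cases h : j = i ∧ x = 1
    · obtain ⟨rfl, rfl⟩ := h
      have e1 : (ee j : HS H ι) (j, (⟨1, hx⟩ : H)) = 1 := dl_apply_self j (1 : H)
      have e2 : (ee j : HS G ι) (j, 1) = 1 := dl_apply_self j (1 : G)
      rw [e1, e2]
    · have e1 : (ee i : HS H ι) (j, (⟨x, hx⟩ : H)) = 0 := by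
        apply dl_apply_ne
        intro h1
        obtain ⟨h2, h3⟩ := Prod.mk.inj h1
        exact h ⟨h2, congrArg Subtype.val h3⟩
      have e2 : (ee i : HS G ι) (j, x) = 0 := by
        apply dl_apply_ne
        intro h1
        obtain ⟨h2, h3⟩ := Prod.mk.inj h1
        exact h ⟨h2, h3⟩
      rw [e1, e2]
  · rw [jx_apply_notMem H _ j hx]
    have e2 : (ee i : HS G ι) (j, x) = 0 := by
      apply dl_apply_ne
      intro h1
      obtain ⟨_, h3⟩ := Prod.mk.inj h1
      exact hx (h3 ▸ H.one_mem)
    rw [e2]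

/-- the induced subspace -/
noncomputable def ind (V : Submodule ℝ (HS H ι)) : Submodule ℝ (HS G ι) where
  carrier := {f | ∀ g : G, jc H (rt g f) ∈ V}
  zero_mem' := fun g => by
    rw [map_zero, map_zero]
    exact V.zero_mem
  add_mem' := fun {f f'} hf hf' g => by
    rw [map_add, map_add]
    exact V.add_mem (hf g) (hf' g)
  smul_mem' := fun a f hf g => by
    rw [map_smul, map_smul]
    exact V.smul_mem a (hf g)

variable {H}

theorem inv_ind (V : Submodule ℝ (HS H ι)) : Inv (ind H V) := by
  intro g f hf g'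
  rw [rt_mul]
  exact hf (g' * g)

theorem isClosed_ind {V : Submodule ℝ (HS H ι)} (hV : IsClosed (V : Set (HS H ι))) :
    IsClosed (ind H V : Set (HS G ι)) := by
  have h1 : (ind H V : Set (HS G ι)) = ⋂ g : G, (fun f => jc H (rt g f)) ⁻¹' (V : Set (HS H ι)) := by
    ext f
    simp only [Set.mem_iInter]
    rfl
  rw [h1]
  exact isClosed_iInter fun g => hV.preimage ((jc H).continuous.comp (rt g).continuous)

theorem jx_mem_ind {V : Submodule ℝ (HS H ι)} (hV : Inv V) {v : HS H ι} (hv : v ∈ V) :
    jx H v ∈ ind H V := by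
  intro g
  by_cases hg : g ∈ H
  · have h1 := jx_rt H (⟨g, hg⟩ : H) v
    change jx H (rt (⟨g, hg⟩ : H) v) = rt g (jx H v) at h1
    rw [← h1, jc_jx]
    exact hV _ v hv
  · have h1 : jc H (rt g (jx H v)) = 0 := by
      apply HS.ext
      intro i x
      rw [jc_apply, rt_apply]
      exact jx_apply_notMem H v i fun h2 => hg ((Subgroup.mul_mem_cancel_left H x.2).mp h2)
    rw [h1]
    exact V.zero_mem

theorem jc_mem_of_mem_ind {V : Submodule ℝ (HS H ι)} {f : HS G ι} (hf : f ∈ ind H V) :
    jc H f ∈ V := by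
  have h1 := hf 1
  rwa [rt_one] at h1

/-- the dimension of the induced subspace -/
theorem vdim_ind [Fintype ι] {V : Submodule ℝ (HS H ι)} (hVc : IsClosed (V : Set (HS H ι)))
    (hV : Inv V) : vdim (ind H V) = vdim V := by
  unfold vdim
  refine Finset.sum_congr rfl fun i _ => ?_
  have h1 : (ind H V).topologicalClosure.starProjection (ee i : HS G ι) =
      jx H (V.topologicalClosure.starProjection (ee i : HS H ι)) := by
    apply Submodule.eq_starProjection_of_mem_of_inner_eq_zero
    · apply Submodule.le_topologicalClosure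
      apply jx_mem_ind hV
      have h2 : V.topologicalClosure.starProjection (ee i : HS H ι) ∈ V.topologicalClosure :=
        Submodule.starProjection_apply_mem _ _
      exact hVc.submodule_topologicalClosure_eq.le h2
    · intro w hw
      rw [(isClosed_ind hVc).submodule_topologicalClosure_eq] at hw
      rw [← jx_ee, ← map_sub, inner_jx]
      apply Submodule.starProjection_inner_eq_zero
      exact Submodule.le_topologicalClosure _ (jc_mem_of_mem_ind hw)
  rw [h1, norm_jx]

end induction

end Pool.Agent.VND
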