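import Pool.Agent.VND.Defs

/-!
# Vectors invariant under left translation by a normal subgroup
-/

set_option autoImplicit false

open scoped BigOperators ENNReal

namespace Pool.Agent.VND

variable {G : Type*} [Group G] {ι κ : Type*}

/-- the vectors invariant under left translation by `R` -/
noncomputable def IR (R : Subgroup G) (ι : Type*) : Submodule ℝ (HS G ι) where
  carrier := {f | ∀ r ∈ R, lt r f = f}
  zero_mem' := fun r _ => map_zero _
  add_mem' := fun {f g} hf hg r hr => by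
    show lt r (f + g) = f + g
    rw [map_add, hf r hr, hg r hr]
  smul_mem' := fun c f hf r hr => by
    show lt r (c • f) = c • f
    rw [map_smul, hf r hr]

theorem mem_IR {R : Subgroup G} {f : HS G ι} : f ∈ IR R ι ↔ ∀ r ∈ R, lt r f = f := Iff.rfl

theorem isClosed_IR (R : Subgroup G) (ι : Type*) : IsClosed (IR R ι : Set (HS G ι)) := by
  have h : (IR R ι : Set (HS G ι)) = ⋂ r ∈ R, {f | lt r f = f} := by
    ext f
    simp only [SetLike.mem_coe, mem_IR, Set.mem_iInter, Set.mem_ofPred_eq]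
  rw [h]
  exact isClosed_biInter fun r _ => isClosed_eq (lt r).continuous continuous_id

theorem inv_IR (R : Subgroup G) (ι : Type*) : Inv (IR R ι) := by
  intro g f hf r hr
  rw [lt_rt, hf r hr]

theorem inv_orth {V : Submodule ℝ (HS G ι)} (hV : Inv V) : Inv Vᗮ := by
  intro g f hf
  rw [Submodule.mem_orthogonal] at hf ⊢
  intro u hu
  have h1 := hf (rt g⁻¹ u) (hV g⁻¹ u hu)
  have h2 := LinearIsometryEquiv.inner_map_map (rt g) (rt g⁻¹ u) f
  rw [rt_mul, mul_inv_cancel, rt_one] at h2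
  rw [h2, h1]

theorem lt_mem_IR {R : Subgroup G} [hR : R.Normal] (g : G) {f : HS G ι} (hf : f ∈ IR R ι) :
    lt g f ∈ IR R ι := by
  intro r hr
  have h1 := hf (g⁻¹ * r * g⁻¹⁻¹) (hR.conj_mem r hr g⁻¹)
  rw [lt_mul]
  conv_rhs => rw [← h1, lt_mul]
  congr 1
  group

theorem lt_mem_IRo {R : Subgroup G} [hR : R.Normal] (g : G) {f : HS G ι} (hf : f ∈ (IR R ι)ᗮ) :
    lt g f ∈ (IR R ι)ᗮ := by
  rw [Submodule.mem_orthogonal] at hf ⊢
  intro u hu
  have h1 := hf (lt g⁻¹ u) (lt_mem_IR g⁻¹ hu)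
  have h2 := LinearIsometryEquiv.inner_map_map (lt g) (lt g⁻¹ u) f
  rw [lt_mul, mul_inv_cancel, lt_one] at h2
  rw [h2, h1]

/-- an operator that commutes with the left translations by `R` maps `IR` to `IR` -/
theorem map_IR {R : Subgroup G} (T : HS G ι →L[ℝ] HS G κ)
    (hT : ∀ r ∈ R, ∀ f ∈ IR R ι, T f = lt r (T f)) {f : HS G ι} (hf : f ∈ IR R ι) : T f ∈ IR R κ :=
  fun r hr => (hT r hr f hf).symm

/-- an operator whose adjoint maps `IR` to `IR` maps `IRᗮ` to `IRᗮ` -/
theorem map_IRo {R : Subgroup G} (T : HS G ι →L[ℝ] HS G κ)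
    (hT : ∀ f ∈ IR R κ, (ContinuousLinearMap.adjoint T) f ∈ IR R ι) {f : HS G ι} (hf : f ∈ (IR R ι)ᗮ) :
    T f ∈ (IR R κ)ᗮ := by
  rw [Submodule.mem_orthogonal] at hf ⊢
  intro u hu
  rw [← ContinuousLinearMap.adjoint_inner_left]
  exact hf _ (hT u hu)

end Pool.Agent.VND
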