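import Mathlib
import Pool.Agent.VND.Basic
import Pool.Agent.VND.Inva

/-!
Von Neumann dimension: only the zero space has dimension zero, continuity along decreasing
families, powers of a space, and the space of the left invariants under a subgroup.
-/

set_option autoImplicit false
open scoped RealInnerProductSpace ENNReal
open Filter Topology

namespace Pool.Agent.VND

variable {G : Type*} [Group G] {ι κ ν : Type*}

/-- (V1) An invariant subspace of dimension zero is zero. -/
theorem eq_bot_of_vdim_eq_zero [Fintype ι] {V : Submodule ℝ (HS G ι)} (hV : Inv V)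
    (h : vdim V = 0) : V = ⊥ := by
  have h1 : ∀ i, V.topologicalClosure.starProjection (ee i : HS G ι) = 0 := by
    intro i
    unfold vdim at h
    rw [Finset.sum_eq_zero_iff_of_nonneg (fun _ _ => sq_nonneg _)] at h
    have h2 := h i (Finset.mem_univ i)
    rw [pow_eq_zero_iff two_ne_zero, norm_eq_zero] at h2
    exact h2
  have h3 : V.topologicalClosure.starProjection = 0 := by
    apply hV.topologicalClosure.starProjection.ext eqv_zero
    intro i
    rw [h1 i]
    rfl
  rw [Submodule.eq_bot_iff]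
  intro v hv
  have h4 : V.topologicalClosure.starProjection v = v :=
    Submodule.starProjection_eq_self_iff.mpr (V.le_topologicalClosure hv)
  rw [← h4, h3]
  rfl

theorem vdim_eq_zero_iff [Fintype ι] {V : Submodule ℝ (HS G ι)} (hV : Inv V) :
    vdim V = 0 ↔ V = ⊥ := by
  constructor
  · exact eq_bot_of_vdim_eq_zero hV
  · rintro rfl
    unfold vdim
    apply Finset.sum_eq_zero
    intro i _
    have h1 : (⊥ : Submodule ℝ (HS G ι)).topologicalClosure = ⊥ :=
      IsClosed.submodule_topologicalClosure_eq (by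
        rw [Submodule.bot_coe]; exact isClosed_singleton)
    have h2 : (⊥ : Submodule ℝ (HS G ι)).topologicalClosure.starProjection (ee i : HS G ι) ∈
        (⊥ : Submodule ℝ (HS G ι)).topologicalClosure := Submodule.starProjection_apply_mem _ _
    have h3 := (Submodule.mem_bot ℝ).mp (h1.le h2)
    rw [h3, norm_zero, zero_pow two_ne_zero]

/-- Projections onto a decreasing family of subspaces converge to the projection onto the
intersection. -/
theorem tendsto_starProjection_iInf {E : Type*} [NormedAddCommGroup E] [InnerProductSpace ℝ E]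
    [CompleteSpace E] {D : Type*} [Preorder D] (V : D → Submodule ℝ E) (hV : Antitone V) (x : E) :
    Tendsto (fun d => (V d).topologicalClosure.starProjection x) atTop
      (𝓝 ((⨅ d, (V d).topologicalClosure).topologicalClosure.starProjection x)) := by
  have hmono : Monotone (fun d => ((V d).topologicalClosure)ᗮ) := by
    intro a b hab
    exact Submodule.orthogonal_le (Submodule.topologicalClosure_mono (hV hab))
  have h1 := Submodule.starProjection_tendsto_closure_iSup
    (fun d => ((V d).topologicalClosure)ᗮ) hmono x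
  have h2 : (⨆ d, ((V d).topologicalClosure)ᗮ).topologicalClosure =
      ((⨅ d, (V d).topologicalClosure).topologicalClosure)ᗮ := by
    rw [← Submodule.orthogonal_orthogonal_eq_closure, ← Submodule.iInf_orthogonal,
      Submodule.orthogonal_closure]
    congr 1
    apply iInf_congr
    intro d
    rw [Submodule.orthogonal_orthogonal_eq_closure]
    exact IsClosed.submodule_topologicalClosure_eq (Submodule.isClosed_topologicalClosure _)
  have h3 : ∀ (W : Submodule ℝ E) [W.HasOrthogonalProjection], W.starProjection x =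
      x - Wᗮ.starProjection x := by
    intro W _
    rw [Submodule.starProjection_orthogonal_val, sub_sub_cancel]
  have h4 : (⨅ d, (V d).topologicalClosure).topologicalClosure.starProjection x =
      x - (⨆ d, ((V d).topologicalClosure)ᗮ).topologicalClosure.starProjection x := by
    rw [h3]
    simp only [h2]
  rw [h4]
  simp_rw [h3 ((V _).topologicalClosure)]
  exact tendsto_const_nhds.sub h1

/-- (V3) Continuity of the dimension along decreasing families. -/
theorem tendsto_vdim_iInf [Fintype ι] {D : Type*} [Preorder D] (V : D → Submodule ℝ (HS G ι))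
    (hV : Antitone V) : Tendsto (fun d => vdim (V d)) atTop
      (𝓝 (vdim (⨅ d, (V d).topologicalClosure))) := by
  unfold vdim
  apply tendsto_finset_sum
  intro i _
  exact ((tendsto_starProjection_iInf V hV (ee i)).norm).pow 2

theorem exists_vdim_lt [Fintype ι] {D : Type*} [Preorder D] [IsDirectedOrder D] [Nonempty D]
    (V : D → Submodule ℝ (HS G ι)) (hV : Antitone V) (hcl : ∀ d, IsClosed (V d : Set (HS G ι)))
    (hbot : ⨅ d, V d = ⊥) {ε : ℝ} (hε : 0 < ε) : ∃ d, vdim (V d) < ε := by
  have h1 := tendsto_vdim_iInf V hV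
  have h2 : ⨅ d, (V d).topologicalClosure = ⊥ := by
    rw [← hbot]
    exact iInf_congr (fun d => IsClosed.submodule_topologicalClosure_eq (hcl d))
  rw [h2, (vdim_eq_zero_iff inv_bot).mpr rfl] at h1
  exact (h1.eventually (gt_mem_nhds hε)).exists

theorem eq_bot_of_vdim [Fintype ι] {V : Submodule ℝ (HS G ι)} (hV : Inv V) (h : vdim V = 0) :
    V = ⊥ := eq_bot_of_vdim_eq_zero hV h

theorem tendsto_vdim [Fintype ι] {D : Type*} [Preorder D] (V : D → Submodule ℝ (HS G ι))
    (hV : Antitone V) (hc : ∀ d, IsClosed (V d : Set (HS G ι))) :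
    Tendsto (fun d => vdim (V d)) atTop (nhds (vdim (⨅ d, V d))) := by
  have h1 := tendsto_vdim_iInf V hV
  rwa [iInf_congr (fun d => IsClosed.submodule_topologicalClosure_eq (hc d))] at h1

/-! ### Powers -/

/-- the subspace `V^ι` -/
noncomputable def powS (ι : Type*) (V : Submodule ℝ (HS G Unit)) : Submodule ℝ (HS G ι) :=
  ⨅ i, V.comap ((pr i : HS G ι →L[ℝ] HS G Unit) : HS G ι →ₗ[ℝ] HS G Unit)

theorem mem_powS {V : Submodule ℝ (HS G Unit)} {f : HS G ι} :
    f ∈ powS ι V ↔ ∀ i, pr i f ∈ V := by
  unfold powS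
  rw [Submodule.mem_iInf]
  rfl

theorem inc_mem_powS {V : Submodule ℝ (HS G Unit)} {f : HS G Unit} (hf : f ∈ V) (i : ι) :
    inc i f ∈ powS ι V := by
  classical
  rw [mem_powS]
  intro j
  rw [pr_inc]
  split_ifs
  · exact hf
  · exact V.zero_mem

theorem isClosed_powS {V : Submodule ℝ (HS G Unit)} (hV : IsClosed (V : Set (HS G Unit))) :
    IsClosed (powS ι V : Set (HS G ι)) := by
  have h1 : (powS ι V : Set (HS G ι)) = ⋂ i, (pr i) ⁻¹' (V : Set (HS G Unit)) := by
    ext f
    simp only [SetLike.mem_coe, mem_powS, Set.mem_iInter, Set.mem_preimage]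
  rw [h1]
  exact isClosed_iInter (fun i => hV.preimage (pr i).continuous)

theorem inv_powS {V : Submodule ℝ (HS G Unit)} (hV : Inv V) : Inv (powS ι V) :=
  Inv.iInf (fun i => hV.comap (eqv_pr i))

theorem powS_mono {V W : Submodule ℝ (HS G Unit)} (h : V ≤ W) : powS ι V ≤ powS ι W := by
  intro f hf
  rw [mem_powS] at hf ⊢
  exact fun i => h (hf i)

theorem powS_orthogonal [Fintype ι] (V : Submodule ℝ (HS G Unit)) :
    (powS ι V)ᗮ = powS ι Vᗮ := by
  ext f
  rw [mem_powS, Submodule.mem_orthogonal]
  constructor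
  · intro h i
    rw [Submodule.mem_orthogonal]
    intro u hu
    rw [← inner_inc_left]
    exact h _ (inc_mem_powS hu i)
  · intro h u hu
    rw [inner_eq_sum_pr]
    apply Finset.sum_eq_zero
    intro i _
    exact (Submodule.mem_orthogonal _ _).mp (h i) _ (mem_powS.mp hu i)

theorem starProjection_powS_inc [Fintype ι] (V : Submodule ℝ (HS G Unit))
    [V.HasOrthogonalProjection] [(powS ι V).HasOrthogonalProjection] (i : ι) (f : HS G Unit) :
    (powS ι V).starProjection (inc i f) = inc i (V.starProjection f) := by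
  apply Submodule.eq_starProjection_of_mem_orthogonal
  · exact inc_mem_powS (Submodule.starProjection_apply_mem V f) i
  · rw [← map_sub, powS_orthogonal]
    exact inc_mem_powS (Submodule.sub_starProjection_mem_orthogonal f) i

/-- The dimension of `V^ι`. -/
theorem vdim_powS [Fintype ι] {V : Submodule ℝ (HS G Unit)}
    (hV : IsClosed (V : Set (HS G Unit))) :
    vdim (powS ι V) = Fintype.card ι * vdim V := by
  unfold vdim
  have h1 : ∀ i : ι, ‖(powS ι V).topologicalClosure.starProjection (ee i)‖ ^ 2 =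
      ‖V.topologicalClosure.starProjection (ee ())‖ ^ 2 := by
    intro i
    have h2 : (powS ι V).topologicalClosure = powS ι V.topologicalClosure := by
      rw [IsClosed.submodule_topologicalClosure_eq hV,
        IsClosed.submodule_topologicalClosure_eq (isClosed_powS hV)]
    haveI : (powS ι V.topologicalClosure).HasOrthogonalProjection := by
      rw [← h2]
      infer_instance
    have h3 : (powS ι V).topologicalClosure.starProjection (ee i : HS G ι) =
        (powS ι V.topologicalClosure).starProjection (ee i) := by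
      simp only [h2]
    rw [h3, ← inc_ee, starProjection_powS_inc, norm_inc]
  rw [Finset.sum_congr rfl (fun i _ => h1 i)]
  simp

/-! ### Left invariants under a subgroup -/

theorem IR_eq_powS (R : Subgroup G) : IR R ι = powS ι (IR R Unit) := by
  ext f
  rw [mem_powS, mem_IR]
  constructor
  · intro h i r hr
    rw [← pr_lt, h r hr]
  · intro h r hr
    apply HS.ext_pr
    intro i
    rw [pr_lt]
    exact mem_IR.mp (h i) r hr

theorem IRo_eq_powS [Fintype ι] (R : Subgroup G) : (IR R ι)ᗮ = powS ι (IR R Unit)ᗮ := by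
  rw [IR_eq_powS, powS_orthogonal]

theorem mem_IR_iff_pr {R : Subgroup G} {f : HS G ι} : f ∈ IR R ι ↔ ∀ i, pr i f ∈ IR R Unit := by
  rw [IR_eq_powS, mem_powS]

theorem mem_IRo_iff_pr [Fintype ι] {R : Subgroup G} {f : HS G ι} :
    f ∈ (IR R ι)ᗮ ↔ ∀ i, pr i f ∈ (IR R Unit)ᗮ := by
  rw [IRo_eq_powS, mem_powS]

/-- The dimension of the complement of the left invariants. -/
theorem vdim_IRo [Fintype ι] (R : Subgroup G) :
    vdim (IR R ι)ᗮ = Fintype.card ι * vdim (IR R Unit)ᗮ := by
  rw [IRo_eq_powS, vdim_powS (Submodule.isClosed_orthogonal _)]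

theorem vdim_IR [Fintype ι] (R : Subgroup G) :
    vdim (IR R ι) = Fintype.card ι * vdim (IR R Unit) := by
  rw [IR_eq_powS, vdim_powS (isClosed_IR R Unit)]

theorem lm_mem_of_lt_mem {V : Submodule ℝ (HS G ι)} (hV : ∀ g : G, ∀ f ∈ V, lt g f ∈ V)
    (a : MonoidAlgebra ℤ G) {f : HS G ι} (hf : f ∈ V) : lm G ι a f ∈ V := by
  induction a using lm_induction with
  | hsingle g n =>
    rw [lm_single]
    exact V.smul_mem _ (hV g f hf)
  | hadd a b ha hb =>
    rw [lm_add]
    exact V.add_mem ha hb

/-- Matrix operators preserve powers of a space which is invariant under left translations. -/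
theorem mop_mem_powS [Fintype ι] [Fintype κ] {V : Submodule ℝ (HS G Unit)}
    (hV : ∀ g : G, ∀ f ∈ V, lt g f ∈ V) (A : κ → ι → MonoidAlgebra ℤ G) {f : HS G ι}
    (hf : f ∈ powS ι V) : mop A f ∈ powS κ V := by
  rw [mem_powS]
  intro k
  rw [pr_mop]
  exact V.sum_mem (fun i _ => lm_mem_of_lt_mem hV _ (mem_powS.mp hf i))

theorem lm_mem_IR {R : Subgroup G} [R.Normal] (a : MonoidAlgebra ℤ G) {f : HS G ι}
    (hf : f ∈ IR R ι) : lm G ι a f ∈ IR R ι := lm_mem_of_lt_mem (fun g _ h => lt_mem_IR g h) a hf

theorem lm_mem_IRo {R : Subgroup G} [R.Normal] (a : MonoidAlgebra ℤ G) {f : HS G ι}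
    (hf : f ∈ (IR R ι)ᗮ) : lm G ι a f ∈ (IR R ι)ᗮ :=
  lm_mem_of_lt_mem (fun g _ h => lt_mem_IRo g h) a hf

theorem mop_mem_IR [Fintype ι] [Fintype κ] {R : Subgroup G} [R.Normal]
    (A : κ → ι → MonoidAlgebra ℤ G) {f : HS G ι} (hf : f ∈ IR R ι) : mop A f ∈ IR R κ := by
  rw [IR_eq_powS] at hf ⊢
  exact mop_mem_powS (fun g _ h => lt_mem_IR g h) A hf

theorem mop_mem_IRo [Fintype ι] [Fintype κ] {R : Subgroup G} [R.Normal]
    (A : κ → ι → MonoidAlgebra ℤ G) {f : HS G ι} (hf : f ∈ (IR R ι)ᗮ) : mop A f ∈ (IR R κ)ᗮ := by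
  rw [IRo_eq_powS] at hf ⊢
  exact mop_mem_powS (fun g _ h => lt_mem_IRo g h) A hf

theorem inc_mem_IR {R : Subgroup G} {f : HS G Unit} (hf : f ∈ IR R Unit) (i : ι) :
    inc i f ∈ IR R ι := by
  rw [IR_eq_powS]
  exact inc_mem_powS hf i

theorem inc_mem_IRo [Fintype ι] {R : Subgroup G} {f : HS G Unit} (hf : f ∈ (IR R Unit)ᗮ) (i : ι) :
    inc i f ∈ (IR R ι)ᗮ := by
  rw [IRo_eq_powS]
  exact inc_mem_powS hf i

theorem pr_mem_IR {R : Subgroup G} {f : HS G ι} (hf : f ∈ IR R ι) (i : ι) :
    pr i f ∈ IR R Unit := mem_IR_iff_pr.mp hf i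

theorem pr_mem_IRo [Fintype ι] {R : Subgroup G} {f : HS G ι} (hf : f ∈ (IR R ι)ᗮ) (i : ι) :
    pr i f ∈ (IR R Unit)ᗮ := mem_IRo_iff_pr.mp hf i

/-! ### The vector of a row over the group ring -/

/-- the vector which represents the functional `f ↦ (∑ i, z i * f i)(1)` -/
noncomputable def rowVec [Fintype ι] (z : ι → MonoidAlgebra ℤ G) : HS G ι :=
  ContinuousLinearMap.adjoint (mop (fun (_ : Unit) i => z i)) (ee ())

theorem inner_rowVec [Fintype ι] (z : ι → MonoidAlgebra ℤ G) (f : HS G ι) :
    ⟪rowVec z, f⟫ = mop (fun (_ : Unit) i => z i) f ((), 1) := by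
  unfold rowVec
  rw [ContinuousLinearMap.adjoint_inner_left, inner_ee_left]

theorem lm_dl_apply (a : MonoidAlgebra ℤ G) (x y : G) :
    lm G Unit a (dl () x) ((), y) = ((a.coeff (y * x⁻¹) : ℤ) : ℝ) := by
  classical
  induction a using lm_induction with
  | hsingle g n =>
    rw [lm_single, lt_dl]
    show (n : ℝ) * (dl () (g * x) : HS G Unit) ((), y) = _
    by_cases h : y = g * x
    · subst h
      rw [dl_apply_self, mul_one, mul_inv_cancel_right, MonoidAlgebra.coeff_single,
        Finsupp.single_eq_same]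
    · rw [dl_apply_ne (fun hp => h (Prod.mk.inj hp).2), mul_zero, MonoidAlgebra.coeff_single,
        Finsupp.single_apply, if_neg (fun h2 => h (by rw [h2, inv_mul_cancel_right])), Int.cast_zero]
  | hadd a b ha hb =>
    rw [lm_add]
    show (lm G Unit a (dl () x)) ((), y) + (lm G Unit b (dl () x)) ((), y) = _
    rw [ha, hb, MonoidAlgebra.coeff_add, Finsupp.add_apply, Int.cast_add]

theorem rowVec_apply [Fintype ι] (z : ι → MonoidAlgebra ℤ G) (i : ι) (x : G) :
    rowVec z (i, x) = (((z i).coeff x⁻¹ : ℤ) : ℝ) := by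
  classical
  rw [← inner_dl, inner_rowVec, ← pr_apply () _ (), pr_mop, lp_sum_apply, Finset.sum_eq_single i]
  · rw [pr_dl_self, lm_dl_apply, one_mul]
  · intro j _ hj
    rw [pr_dl_ne hj, map_zero]
    rfl
  · intro h
    exact absurd (Finset.mem_univ _) h

/-- If the row annihilates the matrix, its vector lies in the kernel of the adjoint. -/
theorem adjoint_mop_rowVec [Fintype ι] [Fintype κ] (z : κ → MonoidAlgebra ℤ G)
    (A : κ → ι → MonoidAlgebra ℤ G) (hz : ∀ i, ∑ k, z k * A k i = 0) :
    ContinuousLinearMap.adjoint (mop A) (rowVec z) = 0 := by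
  apply ext_inner_right ℝ
  intro f
  rw [ContinuousLinearMap.adjoint_inner_left, inner_rowVec, mop_mop, inner_zero_left]
  have h1 : (fun (_ : Unit) i => ∑ k, z k * A k i) = fun _ _ => 0 := by
    funext _ i
    exact hz i
  rw [h1, ← pr_apply () _ (), pr_mop]
  simp

/-- The vector of a row is left invariant under `R` exactly if the row is right invariant. -/
theorem rowVec_mem_IR [Fintype ι] {R : Subgroup G} {z : ι → MonoidAlgebra ℤ G}
    (h : rowVec z ∈ IR R ι) : ∀ i, ∀ r ∈ R, z i * MonoidAlgebra.of ℤ G r = z i := by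
  intro i r hr
  ext x
  have h1 := congrArg (fun f : HS G ι => f (i, x⁻¹)) (mem_IR.mp h r⁻¹ (R.inv_mem hr))
  simp only [lt_apply, rowVec_apply, mul_inv_rev, inv_inv] at h1
  rw [MonoidAlgebra.of_apply, MonoidAlgebra.mul_single_apply, mul_one]
  exact_mod_cast h1

/-- A row which kills the complement of the left invariants is right invariant. -/
theorem right_inv_of_mop_eq_zero [Fintype ι] {R : Subgroup G} {z : ι → MonoidAlgebra ℤ G}
    (h : ∀ f ∈ (IR R ι)ᗮ, mop (fun (_ : Unit) i => z i) f = 0) :
    ∀ i, ∀ r ∈ R, z i * MonoidAlgebra.of ℤ G r = z i := by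
  apply rowVec_mem_IR
  have h1 : rowVec z ∈ (IR R ι)ᗮᗮ := by
    rw [Submodule.mem_orthogonal]
    intro f hf
    rw [real_inner_comm, inner_rowVec, h f hf]
    rfl
  rwa [Submodule.orthogonal_orthogonal_eq_closure,
    IsClosed.submodule_topologicalClosure_eq (isClosed_IR R ι)] at h1

end Pool.Agent.VND
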