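import Pool.Agent.VND.Basic

/-!
# Rank-nullity for the von Neumann dimension

Trace property `tr(XY) = tr(YX)` and the mean ergodic theorem for `1 - B B*`, `1 - B* B`.
-/

open scoped BigOperators ENNReal Topology
open Filter

namespace Pool.Agent.VND

section
variable {G : Type*} [Group G] {ι κ : Type*}

omit [Group G] in
lemma hs_summable (f g : HS G ι) : Summable fun p : ι × G => f p * g p := by
  have h := lp.summable_inner (𝕜 := ℝ) f g
  refine h.congr fun p => ?_
  simp [mul_comm]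

omit [Group G] in
lemma hs_inner (f g : HS G ι) : inner ℝ f g = ∑' p : ι × G, f p * g p := by
  rw [lp.inner_eq_tsum]
  refine tsum_congr fun p => ?_
  simp [mul_comm]

lemma inner_ee (f : HS G ι) (i : ι) : inner ℝ f (ee i) = f (i, 1) := inner_dl f i 1

lemma rt_inner (g : G) (f h : HS G ι) : inner ℝ (rt g f) h = inner ℝ f (rt g⁻¹ h) := by
  have h1 : h = rt g (rt g⁻¹ h) := by rw [rt_mul, mul_inv_cancel, rt_one]
  conv_lhs => rw [h1]
  exact (rt g).inner_map_map f _

/-- value of `X u` at `(k, 1)` -/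
lemma eqv_apply {X : HS G ι →L[ℝ] HS G κ} (hX : Eqv X) (u : HS G ι) (k : κ) :
    inner ℝ (X u) (ee k) = ∑' p : ι × G, u p * X (ee p.1) (k, p.2⁻¹) := by
  rw [← ContinuousLinearMap.adjoint_inner_right, hs_inner]
  refine tsum_congr fun p => ?_
  obtain ⟨i, x⟩ := p
  congr 1
  rw [← inner_dl, ContinuousLinearMap.adjoint_inner_left, dl_eq_rt, hX, real_inner_comm, inner_ee,
    rt_apply, one_mul]

lemma trace_aux [Fintype ι] {X : HS G ι →L[ℝ] HS G κ} (Y : HS G κ →L[ℝ] HS G ι) (hX : Eqv X) (k : κ) :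
    inner ℝ (X (Y (ee k))) (ee k) = ∑ i, ∑' x : G, Y (ee k) (i, x) * X (ee i) (k, x⁻¹) := by
  rw [eqv_apply hX]
  have hs : Summable fun p : ι × G => Y (ee k) p * X (ee p.1) (k, p.2⁻¹) := by
    have h1 := hs_summable (Y (ee k)) (ContinuousLinearMap.adjoint X (ee k))
    refine h1.congr fun p => ?_
    obtain ⟨i, x⟩ := p
    congr 1
    rw [← inner_dl, ContinuousLinearMap.adjoint_inner_left, dl_eq_rt, hX, real_inner_comm,
      inner_ee, rt_apply, one_mul]
  rw [hs.tsum_prod, tsum_fintype]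

/-- the trace property -/
theorem trace_comm [Fintype ι] [Fintype κ] (X : HS G ι →L[ℝ] HS G κ) (Y : HS G κ →L[ℝ] HS G ι)
    (hX : Eqv X) (hY : Eqv Y) :
    ∑ k, inner ℝ (X (Y (ee k))) (ee k) = ∑ i, inner ℝ (Y (X (ee i))) (ee i) := by
  rw [Finset.sum_congr rfl fun k _ => trace_aux Y hX k,
    Finset.sum_congr rfl fun i _ => trace_aux X hY i, Finset.sum_comm]
  refine Finset.sum_congr rfl fun i _ => Finset.sum_congr rfl fun k _ => ?_
  rw [← Equiv.tsum_eq (Equiv.inv G)]
  refine tsum_congr fun x => ?_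
  simp only [Equiv.inv_apply, inv_inv]
  exact mul_comm _ _

omit [Group G] in
lemma inner_proj (V : Submodule ℝ (HS G ι)) [V.HasOrthogonalProjection] (x : HS G ι) :
    inner ℝ (V.starProjection x) x = ‖V.starProjection x‖ ^ 2 := by
  have h := Submodule.starProjection_inner_eq_zero (K := V) x (V.starProjection x)
    (Submodule.starProjection_apply_mem V x)
  rw [inner_sub_left, sub_eq_zero] at h
  rw [real_inner_comm, h, real_inner_self_eq_norm_sq]

omit [Group G] in
lemma proj_congr {V W : Submodule ℝ (HS G ι)} [V.HasOrthogonalProjection]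
    [W.HasOrthogonalProjection] (h : V = W) (x : HS G ι) :
    V.starProjection x = W.starProjection x := by
  subst h
  rfl

lemma vdim_of_closed [Fintype ι] {V : Submodule ℝ (HS G ι)} [V.HasOrthogonalProjection]
    (h : IsClosed (V : Set (HS G ι))) : vdim V = ∑ i, ‖V.starProjection (ee i)‖ ^ 2 := by
  unfold vdim
  refine Finset.sum_congr rfl fun i _ => ?_
  rw [proj_congr (IsClosed.submodule_topologicalClosure_eq h)]

lemma vdim_nonneg [Fintype ι] (V : Submodule ℝ (HS G ι)) : 0 ≤ vdim V :=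
  Finset.sum_nonneg fun _ _ => sq_nonneg _

lemma vdim_closure [Fintype ι] (V : Submodule ℝ (HS G ι)) : vdim V.topologicalClosure = vdim V := by
  rw [vdim_of_closed (Submodule.isClosed_topologicalClosure V)]
  rfl

lemma vdim_orth [Fintype ι] (V : Submodule ℝ (HS G ι)) : vdim V + vdim Vᗮ = Fintype.card ι := by
  rw [vdim_of_closed (Submodule.isClosed_orthogonal V)]
  unfold vdim
  rw [← Finset.sum_add_distrib]
  have h : ∀ i : ι, ‖V.topologicalClosure.starProjection (ee i : HS G ι)‖ ^ 2 +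
      ‖Vᗮ.starProjection (ee i : HS G ι)‖ ^ 2 = 1 := by
    intro i
    have h1 := Submodule.norm_sq_eq_add_norm_sq_starProjection (𝕜 := ℝ) (ee i : HS G ι)
      V.topologicalClosure
    rw [norm_ee, one_pow, proj_congr (Submodule.orthogonal_closure V)] at h1
    exact h1.symm
  rw [Finset.sum_congr rfl fun i _ => h i]
  simp

/-- contraction case: the two averages -/
lemma contr_aux [Fintype ι] [Fintype κ] (B : HS G ι →L[ℝ] HS G κ) (hB : Eqv B) (n : ℕ) :
    (Fintype.card κ : ℝ) - ∑ k, inner ℝ (((1 - B ∘L ContinuousLinearMap.adjoint B) ^ n :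
        HS G κ →L[ℝ] HS G κ) (ee k)) (ee k) =
      (Fintype.card ι : ℝ) - ∑ i, inner ℝ (((1 - ContinuousLinearMap.adjoint B ∘L B) ^ n :
        HS G ι →L[ℝ] HS G ι) (ee i)) (ee i) := by
  set U : HS G κ →L[ℝ] HS G κ := 1 - B ∘L ContinuousLinearMap.adjoint B with hU
  set W : HS G ι →L[ℝ] HS G ι := 1 - ContinuousLinearMap.adjoint B ∘L B with hW
  set p : HS G ι →L[ℝ] HS G ι := ∑ j ∈ Finset.range n, W ^ j with hp
  have hBW : ∀ j : ℕ, B ∘L (W ^ j) = (U ^ j) ∘L B := by
    intro j
    induction j with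
    | zero => ext x; simp
    | succ j ih =>
      have h1 : B ∘L W = U ∘L B := by
        rw [hW, hU]
        ext x
        simp
      calc B ∘L (W ^ (j + 1)) = (B ∘L (W ^ j)) ∘L W := by rw [pow_succ]; rfl
        _ = ((U ^ j) ∘L B) ∘L W := by rw [ih]
        _ = (U ^ j) ∘L (B ∘L W) := rfl
        _ = (U ^ j) ∘L (U ∘L B) := by rw [h1]
        _ = (U ^ (j + 1)) ∘L B := by rw [pow_succ]; rfl
  have h1 : (B ∘L p) ∘L ContinuousLinearMap.adjoint B = 1 - U ^ n := by
    have h2 : B ∘L p = (∑ j ∈ Finset.range n, U ^ j) ∘L B := by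
      rw [hp]
      ext1 x
      simp only [ContinuousLinearMap.comp_apply, sum_apply, map_sum]
      refine Finset.sum_congr rfl fun j _ => ?_
      have := congrArg (fun T : HS G ι →L[ℝ] HS G κ => T x) (hBW j)
      exact this
    rw [h2]
    have h3 : B ∘L ContinuousLinearMap.adjoint B = 1 - U := by rw [hU]; abel
    calc ((∑ j ∈ Finset.range n, U ^ j) ∘L B) ∘L ContinuousLinearMap.adjoint B
        = (∑ j ∈ Finset.range n, U ^ j) ∘L (B ∘L ContinuousLinearMap.adjoint B) := rfl
      _ = (∑ j ∈ Finset.range n, U ^ j) * (1 - U) := by rw [h3]; rfl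
      _ = 1 - U ^ n := geom_sum_mul_neg U n
  have h4 : ContinuousLinearMap.adjoint B ∘L (B ∘L p) = 1 - W ^ n := by
    have h3 : ContinuousLinearMap.adjoint B ∘L B = 1 - W := by rw [hW]; abel
    calc ContinuousLinearMap.adjoint B ∘L (B ∘L p)
        = (ContinuousLinearMap.adjoint B ∘L B) ∘L p := rfl
      _ = (1 - W) * ∑ j ∈ Finset.range n, W ^ j := by rw [h3, hp]; rfl
      _ = 1 - W ^ n := mul_neg_geom_sum W n
  have hWE : ∀ j : ℕ, Eqv (W ^ j) := by
    intro j
    induction j with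
    | zero => intro g f; simp
    | succ j ih =>
      intro g f
      rw [pow_succ]
      show (W ^ j) (W (rt g f)) = rt g ((W ^ j) (W f))
      have h5 : W (rt g f) = rt g (W f) := by
        rw [hW]
        simp only [sub_apply, one_apply_eq_self,
          ContinuousLinearMap.comp_apply, map_sub]
        rw [hB, hB.adjoint]
      rw [h5, ih]
  have hpE : Eqv p := by
    intro g f
    rw [hp]
    simp only [sum_apply, map_sum]
    exact Finset.sum_congr rfl fun j _ => hWE j g f
  have hBp : Eqv (B ∘L p) := by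
    intro g f
    simp only [ContinuousLinearMap.comp_apply]
    rw [hpE, hB]
  have h6 := trace_comm (B ∘L p) (ContinuousLinearMap.adjoint B) hBp hB.adjoint
  have h7 : ∀ k : κ, inner ℝ ((B ∘L p) (ContinuousLinearMap.adjoint B (ee k))) (ee k) =
      1 - inner ℝ ((U ^ n) (ee k)) (ee k) := by
    intro k
    have h8 := congrArg (fun T : HS G κ →L[ℝ] HS G κ => T (ee k)) h1
    have h9 : (B ∘L p) (ContinuousLinearMap.adjoint B (ee k)) = ee k - (U ^ n) (ee k) := h8
    rw [h9, inner_sub_left, real_inner_self_eq_norm_sq, norm_ee, one_pow]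
  have h7' : ∀ i : ι, inner ℝ (ContinuousLinearMap.adjoint B ((B ∘L p) (ee i))) (ee i) =
      1 - inner ℝ ((W ^ n) (ee i)) (ee i) := by
    intro i
    have h8 := congrArg (fun T : HS G ι →L[ℝ] HS G ι => T (ee i)) h4
    have h9 : ContinuousLinearMap.adjoint B ((B ∘L p) (ee i)) = ee i - (W ^ n) (ee i) := h8
    rw [h9, inner_sub_left, real_inner_self_eq_norm_sq, norm_ee, one_pow]
  rw [Finset.sum_congr rfl fun k _ => h7 k, Finset.sum_congr rfl fun i _ => h7' i,
    Finset.sum_sub_distrib, Finset.sum_sub_distrib] at h6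
  simpa using h6

/-- `1 - B B*` is a contraction -/
lemma contr_norm (B : HS G ι →L[ℝ] HS G κ) (hn : ‖B‖ ≤ 1) :
    ‖(1 - B ∘L ContinuousLinearMap.adjoint B : HS G κ →L[ℝ] HS G κ)‖ ≤ 1 := by
  refine ContinuousLinearMap.opNorm_le_bound _ zero_le_one fun x => ?_
  rw [one_mul]
  have h1 : ‖B (ContinuousLinearMap.adjoint B x)‖ ^ 2 ≤
      inner ℝ (B (ContinuousLinearMap.adjoint B x)) x := by
    have h2 : ‖B (ContinuousLinearMap.adjoint B x)‖ ≤ ‖ContinuousLinearMap.adjoint B x‖ := by
      refine (B.le_opNorm _).trans ?_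
      exact mul_le_of_le_one_left (norm_nonneg _) hn
    have h3 : inner ℝ (B (ContinuousLinearMap.adjoint B x)) x =
        ‖ContinuousLinearMap.adjoint B x‖ ^ 2 := by
      rw [← ContinuousLinearMap.adjoint_inner_right, real_inner_self_eq_norm_sq]
    rw [h3]
    exact pow_le_pow_left₀ (norm_nonneg _) h2 2
  have h4 : ‖(1 - B ∘L ContinuousLinearMap.adjoint B : HS G κ →L[ℝ] HS G κ) x‖ ^ 2 ≤ ‖x‖ ^ 2 := by
    have h5 : (1 - B ∘L ContinuousLinearMap.adjoint B : HS G κ →L[ℝ] HS G κ) x =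
        x - B (ContinuousLinearMap.adjoint B x) := rfl
    rw [h5, norm_sub_sq_real, real_inner_comm]
    have h6 : 0 ≤ ‖B (ContinuousLinearMap.adjoint B x)‖ ^ 2 := sq_nonneg _
    linarith
  exact le_of_sq_le_sq h4 (norm_nonneg _)

/-- fixed points of `1 - B B*` -/
lemma contr_fix (B : HS G ι →L[ℝ] HS G κ) :
    ((1 - B ∘L ContinuousLinearMap.adjoint B : HS G κ →L[ℝ] HS G κ).eqLocus
      (1 : HS G κ →L[ℝ] HS G κ)) =
      (ContinuousLinearMap.adjoint B).ker := by
  ext x
  simp only [LinearMap.mem_eqLocus, LinearMap.mem_ker, ContinuousLinearMap.coe_coe]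
  have h5 : (1 - B ∘L ContinuousLinearMap.adjoint B : HS G κ →L[ℝ] HS G κ) x =
      x - B (ContinuousLinearMap.adjoint B x) := rfl
  rw [h5]
  constructor
  · intro h
    have h1 : B (ContinuousLinearMap.adjoint B x) = 0 := by
      have h2 : x - B (ContinuousLinearMap.adjoint B x) = x := h
      rw [sub_eq_self] at h2
      exact h2
    have h3 : inner ℝ (B (ContinuousLinearMap.adjoint B x)) x =
        ‖ContinuousLinearMap.adjoint B x‖ ^ 2 := by
      rw [← ContinuousLinearMap.adjoint_inner_right, real_inner_self_eq_norm_sq]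
    rw [h1, inner_zero_left] at h3
    have h4 : ‖ContinuousLinearMap.adjoint B x‖ = 0 := by
      exact pow_eq_zero_iff (two_ne_zero) |>.mp h3.symm
    exact norm_eq_zero.mp h4
  · intro h
    rw [h, map_zero, sub_zero]
    rfl

/-- mean ergodic limit -/
lemma mean_tendsto (B : HS G ι →L[ℝ] HS G κ) (hn : ‖B‖ ≤ 1) (k : κ) :
    Tendsto (fun N : ℕ => (N : ℝ)⁻¹ * ∑ n ∈ Finset.range N,
      inner ℝ (((1 - B ∘L ContinuousLinearMap.adjoint B) ^ n : HS G κ →L[ℝ] HS G κ) (ee k)) (ee k))
      atTop (𝓝 (‖(ContinuousLinearMap.adjoint B).ker.starProjection (ee k)‖ ^ 2)) := by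
  have h1 := ContinuousLinearMap.tendsto_birkhoffAverage_orthogonalProjection _ (contr_norm B hn)
    (ee k)
  have h2 : Tendsto (fun N : ℕ => inner ℝ (birkhoffAverage ℝ
      (1 - B ∘L ContinuousLinearMap.adjoint B : HS G κ →L[ℝ] HS G κ) _root_.id N (ee k)) (ee k : HS G κ))
      atTop (𝓝 (inner ℝ (((1 - B ∘L ContinuousLinearMap.adjoint B : HS G κ →L[ℝ] HS G κ).eqLocus
      (1 : HS G κ →L[ℝ] HS G κ)).starProjection (ee k)) (ee k))) :=
    Tendsto.inner h1 tendsto_const_nhds
  rw [proj_congr (contr_fix B), inner_proj] at h2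
  refine h2.congr fun N => ?_
  rw [birkhoffAverage, birkhoffSum, real_inner_smul_left, sum_inner]
  congr 1
  refine Finset.sum_congr rfl fun n _ => ?_
  simp only [id_eq]
  rw [ContinuousLinearMap.coe_pow']

lemma card_sub_mean [Fintype ι] (a : ι → ℕ → ℝ) (c : ℝ) (b : ℕ → ℝ) (h : ∀ n, c - ∑ i, a i n = b n)
    {N : ℕ} (hN : 0 < N) :
    c - ∑ i, (N : ℝ)⁻¹ * ∑ n ∈ Finset.range N, a i n = (N : ℝ)⁻¹ * ∑ n ∈ Finset.range N, b n := by
  have hN' : (N : ℝ) ≠ 0 := by exact_mod_cast hN.ne'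
  rw [← Finset.mul_sum, Finset.sum_comm]
  have h1 : ∑ n ∈ Finset.range N, b n = N * c - ∑ n ∈ Finset.range N, ∑ i, a i n := by
    rw [← Finset.sum_congr rfl fun n _ => h n, Finset.sum_sub_distrib, Finset.sum_const,
      Finset.card_range, nsmul_eq_mul]
  rw [h1]
  field_simp

/-- rank-nullity for contractions -/
lemma rank_contr [Fintype ι] [Fintype κ] (B : HS G ι →L[ℝ] HS G κ) (hB : Eqv B) (hn : ‖B‖ ≤ 1) :
    (Fintype.card κ : ℝ) - vdim (ContinuousLinearMap.adjoint B).ker =
      (Fintype.card ι : ℝ) - vdim B.ker := by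
  have hn' : ‖ContinuousLinearMap.adjoint B‖ ≤ 1 := by
    rw [LinearIsometryEquiv.norm_map]; exact hn
  have h1 := (tendsto_const_nhds (x := (Fintype.card κ : ℝ))).sub
    (tendsto_finset_sum Finset.univ fun k _ => mean_tendsto B hn k)
  have h2 := (tendsto_const_nhds (x := (Fintype.card ι : ℝ))).sub
    (tendsto_finset_sum Finset.univ fun i _ => mean_tendsto (ContinuousLinearMap.adjoint B) hn' i)
  rw [vdim_of_closed (ContinuousLinearMap.isClosed_ker _),
    vdim_of_closed (ContinuousLinearMap.isClosed_ker _)]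
  simp only [ContinuousLinearMap.adjoint_adjoint] at h2
  refine tendsto_nhds_unique (h1.congr' ?_) h2
  filter_upwards [eventually_gt_atTop 0] with N hN
  rw [card_sub_mean _ _ _ (fun n => contr_aux B hB n) hN, card_sub_mean _ _ _ (fun n => rfl) hN]

/-- rank-nullity -/
theorem vdim_range_add_ker [Fintype ι] [Fintype κ] (T : HS G ι →L[ℝ] HS G κ) (hT : Eqv T) :
    vdim T.range + vdim T.ker = Fintype.card ι := by
  obtain ⟨c, hc⟩ : ∃ c : ℝ, c = (‖T‖ + 1)⁻¹ := ⟨_, rfl⟩
  have hpos : 0 < ‖T‖ + 1 := by positivity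
  have hc0 : 0 < c := by rw [hc]; positivity
  have hB : Eqv (c • T) := hT.smul c
  have hn : ‖c • T‖ ≤ 1 := by
    rw [norm_smul, Real.norm_eq_abs, abs_of_pos hc0, hc, inv_mul_le_iff₀ hpos]
    linarith
  have h1 := rank_contr (c • T) hB hn
  have hker : (c • T).ker = T.ker := by
    ext x
    simp only [LinearMap.mem_ker, ContinuousLinearMap.coe_coe]
    show c • T x = 0 ↔ T x = 0
    rw [smul_eq_zero]
    exact ⟨fun h => h.resolve_left hc0.ne', Or.inr⟩
  have hran : (c • T).range = T.range := by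
    ext y
    simp only [LinearMap.mem_range, ContinuousLinearMap.coe_coe]
    constructor
    · rintro ⟨x, rfl⟩
      exact ⟨c • x, by rw [map_smul]; rfl⟩
    · rintro ⟨x, rfl⟩
      refine ⟨c⁻¹ • x, ?_⟩
      show c • T (c⁻¹ • x) = T x
      rw [map_smul, smul_smul, mul_inv_cancel₀ hc0.ne', one_smul]
  rw [← ContinuousLinearMap.orthogonal_range, hker, hran] at h1
  have h2 := vdim_orth (G := G) T.range
  linarith

theorem vdim_mono [Fintype ι] {V W : Submodule ℝ (HS G ι)} (h : V ≤ W) : vdim V ≤ vdim W := by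
  unfold vdim
  refine Finset.sum_le_sum fun i _ => ?_
  have h1 : V.topologicalClosure ≤ W.topologicalClosure := Submodule.topologicalClosure_mono h
  have h2 := Submodule.starProjection_comp_starProjection_of_le h1
  have h3 : V.topologicalClosure.starProjection (ee i : HS G ι) =
      V.topologicalClosure.starProjection (W.topologicalClosure.starProjection (ee i)) := by
    have := congrArg (fun T : HS G ι →L[ℝ] HS G ι => T (ee i)) h2
    exact this.symm
  rw [h3]
  exact pow_le_pow_left₀ (norm_nonneg _) (Submodule.norm_starProjection_apply_le _ _) 2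

theorem vdim_top [Fintype ι] : vdim (⊤ : Submodule ℝ (HS G ι)) = Fintype.card ι := by
  rw [vdim_of_closed isClosed_univ]
  have h : ∀ i : ι, ‖(⊤ : Submodule ℝ (HS G ι)).starProjection (ee i)‖ ^ 2 = 1 := by
    intro i
    rw [Submodule.starProjection_top]
    show ‖(ee i : HS G ι)‖ ^ 2 = 1
    rw [norm_ee, one_pow]
  rw [Finset.sum_congr rfl fun i _ => h i]
  simp

theorem vdim_bot [Fintype ι] : vdim (⊥ : Submodule ℝ (HS G ι)) = 0 := by
  have h := vdim_orth (⊥ : Submodule ℝ (HS G ι))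
  rw [Submodule.bot_orthogonal_eq_top, vdim_top] at h
  linarith

end

end Pool.Agent.VND
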