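import Mathlib
import Pool.Agent.VND.Rank0
import Pool.Agent.VND.Dim

set_option autoImplicit false
open scoped RealInnerProductSpace ENNReal
open Filter Topology

namespace Pool.Agent.VND

variable {G : Type*} [Group G] {ι κ ν : Type*}

theorem vdim_of_isClosed [Fintype ι] {V : Submodule ℝ (HS G ι)} [V.HasOrthogonalProjection]
    (hc : IsClosed (V : Set (HS G ι))) : vdim V = ∑ i, ‖V.starProjection (ee i)‖ ^ 2 := by
  unfold vdim
  have h : V.topologicalClosure = V := IsClosed.submodule_topologicalClosure_eq hc
  simp only [h]

/-- additivity for orthogonal closed subspaces -/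
theorem vdim_sup_of_orthogonal [Fintype ι] {V W : Submodule ℝ (HS G ι)}
    (hV : IsClosed (V : Set (HS G ι))) (hW : IsClosed (W : Set (HS G ι)))
    (hVW : V ≤ Wᗮ) : vdim (V ⊔ W) = vdim V + vdim W := by
  haveI : CompleteSpace V := hV.completeSpace_coe
  haveI : CompleteSpace W := hW.completeSpace_coe
  have h1 : ∀ f : HS G ι, (V ⊔ W).topologicalClosure.starProjection f =
      V.starProjection f + W.starProjection f := by
    intro f
    apply Submodule.eq_starProjection_of_mem_orthogonal
    · apply Submodule.le_topologicalClosure
      exact Submodule.add_mem_sup (Submodule.starProjection_apply_mem _ _)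
        (Submodule.starProjection_apply_mem _ _)
    · rw [Submodule.orthogonal_closure, ← Submodule.inf_orthogonal]
      constructor
      · have h2 : f - (V.starProjection f + W.starProjection f) =
            (f - V.starProjection f) - W.starProjection f := by abel
        rw [h2]
        apply Submodule.sub_mem _ (Submodule.sub_starProjection_mem_orthogonal f)
        have h3 : W ≤ Vᗮ := Submodule.le_orthogonal_iff_le_orthogonal.mp hVW
        exact h3 (Submodule.starProjection_apply_mem _ _)
      · have h2 : f - (V.starProjection f + W.starProjection f) =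
            (f - W.starProjection f) - V.starProjection f := by abel
        rw [h2]
        exact Submodule.sub_mem _ (Submodule.sub_starProjection_mem_orthogonal f)
          (hVW (Submodule.starProjection_apply_mem _ _))
  rw [vdim_of_isClosed hV, vdim_of_isClosed hW, ← Finset.sum_add_distrib]
  unfold vdim
  apply Finset.sum_congr rfl
  intro i _
  rw [h1]
  have h4 : ⟪V.starProjection (ee i : HS G ι), W.starProjection (ee i)⟫ = 0 := by
    have h5 := hVW (Submodule.starProjection_apply_mem V (ee i))
    rw [real_inner_comm]
    exact (Submodule.mem_orthogonal _ _).mp h5 _ (Submodule.starProjection_apply_mem W (ee i))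
  rw [@norm_add_sq_real, h4]
  ring

/-- rank-nullity on an invariant closed subspace -/
theorem vdim_map_add_ker [Fintype ι] [Fintype κ] (V : Submodule ℝ (HS G ι))
    (hc : IsClosed (V : Set (HS G ι))) (hV : Inv V) (T : HS G ι →L[ℝ] HS G κ) (hT : Eqv T) :
    vdim (V.map T.toLinearMap) + vdim (V ⊓ LinearMap.ker T.toLinearMap) = vdim V := by
  haveI : CompleteSpace V := hc.completeSpace_coe
  have h1 := vdim_range_add_ker (T ∘L V.starProjection) (hT.comp hV.starProjection)
  have h2 : LinearMap.range (T ∘L V.starProjection).toLinearMap = V.map T.toLinearMap := by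
    ext f
    constructor
    · rintro ⟨g, rfl⟩
      exact ⟨V.starProjection g, Submodule.starProjection_apply_mem _ _, rfl⟩
    · rintro ⟨g, hg, rfl⟩
      refine ⟨g, ?_⟩
      show T (V.starProjection g) = T g
      rw [Submodule.starProjection_eq_self_iff.mpr hg]
  have h3 : LinearMap.ker (T ∘L V.starProjection).toLinearMap =
      (V ⊓ LinearMap.ker T.toLinearMap) ⊔ Vᗮ := by
    ext f
    constructor
    · intro hf
      have hf' : T (V.starProjection f) = 0 := hf
      rw [Submodule.mem_sup]
      exact ⟨V.starProjection f, ⟨Submodule.starProjection_apply_mem _ _, hf'⟩,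
        f - V.starProjection f, Submodule.sub_starProjection_mem_orthogonal f, by abel⟩
    · intro hf
      rw [Submodule.mem_sup] at hf
      obtain ⟨g, hg, k, hk, rfl⟩ := hf
      show T (V.starProjection (g + k)) = 0
      rw [map_add, Submodule.starProjection_eq_self_iff.mpr hg.1,
        (Submodule.starProjection_apply_eq_zero_iff _).mpr hk, add_zero]
      exact hg.2
  have h4 : IsClosed ((V ⊓ LinearMap.ker T.toLinearMap : Submodule ℝ (HS G ι)) :
      Set (HS G ι)) := hc.inter T.isClosed_ker
  rw [h2, h3, vdim_sup_of_orthogonal h4 (Submodule.isClosed_orthogonal V)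
    (inf_le_left.trans (Submodule.le_orthogonal_orthogonal V))] at h1
  have h5 := vdim_orth V
  linarith

end Pool.Agent.VND
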