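import Mathlib
import Pool.Agent.VND.RankB

/-!
The count of dimensions: a row over the group ring which annihilates a matrix with more columns
than rows is right invariant under `R`, if the kernel of the matrix is small on the complement of
the left invariants.
-/

set_option autoImplicit false
open scoped RealInnerProductSpace ENNReal
open Filter Topology

namespace Pool.Agent.VND

variable {G : Type*} [Group G] {ι X : Type*}

theorem right_inv_of_dim [Fintype ι] [Fintype X] (R : Subgroup G) [R.Normal]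
    (A : ι → X → MonoidAlgebra ℤ G)
    (hdim : vdim (LinearMap.ker (mop A).toLinearMap ⊓ (IR R X)ᗮ) ≤
      ((Fintype.card X : ℝ) - Fintype.card ι) * vdim (IR R Unit)ᗮ)
    (z : ι → MonoidAlgebra ℤ G) (hz : ∀ x, ∑ i, z i * A i x = 0) :
    ∀ i, ∀ r ∈ R, z i * MonoidAlgebra.of ℤ G r = z i := by
  obtain ⟨h, hh⟩ : ∃ h : ℝ, h = vdim (IR R Unit)ᗮ := ⟨_, rfl⟩
  have h1 := vdim_map_add_ker (IR R X)ᗮ (Submodule.isClosed_orthogonal _)
    (inv_IR R X).orthogonal (mop A) (eqv_mop A)
  have h2 := vdim_map_add_ker (IR R ι)ᗮ (Submodule.isClosed_orthogonal _)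
    (inv_IR R ι).orthogonal (mop (fun (_ : Unit) i => z i)) (eqv_mop _)
  rw [vdim_IRo, ← hh] at h1 h2
  rw [← hh, inf_comm] at hdim
  have h3 : ((IR R X)ᗮ).map (mop A).toLinearMap ≤
      (IR R ι)ᗮ ⊓ LinearMap.ker (mop (fun (_ : Unit) i => z i)).toLinearMap := by
    rintro _ ⟨f, hf, rfl⟩
    refine ⟨mop_mem_IRo A hf, LinearMap.mem_ker.mpr ?_⟩
    show mop (fun (_ : Unit) i => z i) (mop A f) = 0
    rw [mop_mop]
    have h4 : (fun (_ : Unit) x => ∑ i, z i * A i x) = fun _ _ => 0 := by
      funext _ x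
      exact hz x
    rw [h4, mop_apply]
    simp
  have h5 := vdim_mono h3
  have h7 := vdim_nonneg (((IR R ι)ᗮ).map (mop (fun (_ : Unit) i => z i)).toLinearMap)
  have h9 : vdim (((IR R ι)ᗮ).map (mop (fun (_ : Unit) i => z i)).toLinearMap) = 0 := by
    nlinarith
  have h10 := eq_bot_of_vdim ((inv_IR R ι).orthogonal.map (eqv_mop _)) h9
  apply right_inv_of_mop_eq_zero
  intro f hf
  have h11 : mop (fun (_ : Unit) i => z i) f ∈
      ((IR R ι)ᗮ).map (mop (fun (_ : Unit) i => z i)).toLinearMap := ⟨f, hf, rfl⟩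
  rw [h10, Submodule.mem_bot] at h11
  exact h11

/-- The left invariants under an infinite subgroup vanish. -/
theorem IR_eq_bot {R : Subgroup G} (hR : (R : Set G).Infinite) : IR R ι = ⊥ := by
  rw [Submodule.eq_bot_iff]
  intro f hf
  apply HS.ext
  intro i x
  by_contra hne
  have hne' : f (i, x) ≠ 0 := hne
  have h1 : ∀ r ∈ R, f (i, r * x) = f (i, x) := by
    intro r hr
    have h2 := mem_IR.mp hf r⁻¹ (R.inv_mem hr)
    have h3 := congrArg (fun g : HS G ι => g (i, x)) h2
    simp only [lt_apply, inv_inv] at h3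
    exact h3
  have h4 := lp.memℓp f
  rw [memℓp_gen_iff two_toReal_pos] at h4
  have h5 : Function.Injective (fun r : R => (i, (r : G) * x)) := by
    intro a b hab
    simp only [Prod.mk.injEq, mul_left_inj, true_and] at hab
    exact Subtype.ext hab
  have : Infinite R := hR.to_subtype
  have h6 := h4.comp_injective h5
  have h7 : (fun a : ι × G => ‖f a‖ ^ (2 : ℝ≥0∞).toReal) ∘ (fun r : R => (i, (r : G) * x)) =
      fun _ => ‖f (i, x)‖ ^ (2 : ℝ≥0∞).toReal := by
    funext r
    simp only [Function.comp]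
    rw [h1 r r.2]
  rw [h7, summable_const_iff, Real.rpow_eq_zero (norm_nonneg _) two_toReal_pos.ne',
    norm_eq_zero] at h6
  exact hne' h6

theorem vdim_IRo_of_infinite (R : Subgroup G) (h : (R : Set G).Infinite) :
    vdim (IR R Unit)ᗮ = 1 := by
  rw [IR_eq_bot h, Submodule.bot_orthogonal_eq_top, vdim_top]
  simp

end Pool.Agent.VND
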