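import Pool.Agent.VND.SpreadB
import Pool.Agent.VND.CountB

/-!
# The first `l^2`-Betti number: bounds by the number of generators, finite groups, independence of the
generators
-/

set_option autoImplicit false

open scoped BigOperators ENNReal RealInnerProductSpace

namespace Pool.Agent.VND

variable {G : Type*} [Group G] {κ τ : Type*}

theorem lt_fixed_of_closure [Fintype κ] (s : κ → G) (hs : Subgroup.closure (Set.range s) = ⊤)
    {ξ : HS G Unit} (h : ∀ k, lt (s k) ξ = ξ) : ∀ g : G, lt g ξ = ξ := by
  intro g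
  have hg : g ∈ Subgroup.closure (Set.range s) := by rw [hs]; exact Subgroup.mem_top g
  induction hg using Subgroup.closure_induction with
  | mem x hx =>
    obtain ⟨k, rfl⟩ := hx
    exact h k
  | one => exact lt_one ξ
  | mul x y _ _ hx hy => rw [← lt_mul, hy, hx]
  | inv x _ hx =>
    conv_lhs => rw [← hx, lt_mul, inv_mul_cancel, lt_one]

/-- A group generated by `k` elements: the first `l^2`-Betti number is at most `k - 1` if the group is
infinite. -/
theorem betti_le_of_infinite [Fintype κ] [Infinite G] (s : κ → G)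
    (hs : Subgroup.closure (Set.range s) = ⊤) : betti s ≤ (Fintype.card κ : ℝ) - 1 := by
  have h1 : betti s ≤ vdim (innValues s)ᗮ := vdim_mono inf_le_right
  have h2 := vdim_orth (innValues s)
  have h3 := vdim_range_add_ker (BS s) (eqv_BS s)
  have h4 : (BS s).ker = ⊥ := by
    rw [eq_bot_iff]
    intro ξ hξ
    have h5 : BS s ξ = 0 := hξ
    have h6 : ∀ k, lt (s k) ξ = ξ := by
      intro k
      have h7 := pr_BS s ξ k
      rw [h5, map_zero] at h7
      exact (sub_eq_zero.mp h7.symm)
    have h8 : ξ ∈ IR (⊤ : Subgroup G) Unit := fun g _ => lt_fixed_of_closure s hs h6 g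
    rw [IR_eq_bot (by rw [Subgroup.coe_top]; exact Set.infinite_univ)] at h8
    exact h8
  have h9 : vdim (BS s).range = vdim (innValues s) := rfl
  rw [h4, vdim_bot, Fintype.card_unit, Nat.cast_one, add_zero, h9] at h3
  linarith

/-- The first `l^2`-Betti number of a finite group is zero. -/
theorem betti_of_finite [Fintype κ] [Finite G] (s : κ → G) : betti s = 0 := by
  classical
  have : Fintype G := Fintype.ofFinite G
  have h1 : derValues s ≤ innValues s := by
    rintro f ⟨c, hc, hs⟩
    rw [mem_innValues]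
    refine ⟨-((Fintype.card G : ℝ)⁻¹ • ∑ h, c h), fun k => ?_⟩
    have hG : (Fintype.card G : ℝ) ≠ 0 := by
      exact_mod_cast Fintype.card_ne_zero
    have h2 : lt (s k) (∑ h, c h) = (∑ h, c h) - (Fintype.card G : ℝ) • c (s k) := by
      rw [map_sum]
      have h3 : ∀ h, lt (s k) (c h) = c (s k * h) - c (s k) := fun h => by
        rw [hc]
        abel
      rw [Finset.sum_congr rfl fun h _ => h3 h, Finset.sum_sub_distrib, Finset.sum_const,
        Finset.card_univ]
      congr 1
      · exact Fintype.sum_equiv (Equiv.mulLeft (s k)) _ _ fun h => rfl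
      · exact (Nat.cast_smul_eq_nsmul ℝ _ _).symm
    rw [← hs k, map_neg, map_smul, h2, smul_sub, smul_smul, inv_mul_cancel₀ hG, one_smul]
    abel
  have h2 : derValues s ⊓ (innValues s)ᗮ = ⊥ := by
    rw [eq_bot_iff]
    rintro f ⟨hf1, hf2⟩
    have h3 := Submodule.inner_right_of_mem_orthogonal (h1 hf1) hf2
    exact inner_self_eq_zero.mp h3
  unfold betti
  rw [h2, vdim_bot]

/-- the map from the values at one generating family to the values at another one -/
theorem exists_change [Fintype κ] [Fintype τ] (s : κ → G) (p : τ → G)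
    (hp : Subgroup.closure (Set.range p) = ⊤) :
    ∃ T : HS G τ →L[ℝ] HS G κ, Eqv T ∧ ∀ (c : G → HS G Unit),
      (∀ g h, c (g * h) = c g + lt g (c h)) → ∀ f : HS G τ, (∀ i, c (p i) = pr i f) →
        ∀ k, pr k (T f) = c (s k) := by
  classical
  choose T hT1 _ hT3 using fun k : κ =>
    exists_row_univ p (w := s k) (by rw [hp]; exact Subgroup.mem_top _)
  refine ⟨∑ k, inc k ∘L ∑ i, T k i ∘L pr i, Eqv.sum _ fun k _ => (eqv_inc k).comp
    (Eqv.sum _ fun i _ => (hT1 k i).comp (eqv_pr i)), ?_⟩
  intro c hc f hf k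
  rw [sum_apply, map_sum, Finset.sum_eq_single k]
  · rw [ContinuousLinearMap.comp_apply, pr_inc_self, sum_apply, hT3 k c hc]
    refine Finset.sum_congr rfl fun i _ => ?_
    rw [hf i]
    rfl
  · intro b _ hb
    rw [ContinuousLinearMap.comp_apply, pr_inc_ne (Ne.symm hb)]
  · intro h
    exact absurd (Finset.mem_univ _) h

theorem betti_le_aux [Fintype κ] [Fintype τ] (s : κ → G) (p : τ → G)
    (hs : Subgroup.closure (Set.range s) = ⊤) (hp : Subgroup.closure (Set.range p) = ⊤) :
    betti s ≤ betti p := by
  obtain ⟨T, hT, hT'⟩ := exists_change s p hp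
  obtain ⟨V₀, hV₀⟩ : ∃ V₀ : Submodule ℝ (HS G τ), V₀ = derValues p ⊓ (innValues p)ᗮ := ⟨_, rfl⟩
  have hV₀c : IsClosed (V₀ : Set (HS G τ)) := by
    rw [hV₀, Submodule.coe_inf]
    exact (isClosed_derValues p hp).inter (Submodule.isClosed_orthogonal _)
  have hV₀i : Inv V₀ := by
    rw [hV₀]
    exact (inv_derValues p).inf (Inv.orthogonal (inv_range (eqv_BS p)))
  have h1 := vdim_map_add_ker V₀ hV₀c hV₀i (QS s ∘L T) ((eqv_QS s).comp hT)
  have h2 := vdim_nonneg (V₀ ⊓ LinearMap.ker (QS s ∘L T).toLinearMap)
  have h3 : derValues s ⊓ (innValues s)ᗮ ≤ V₀.map (QS s ∘L T).toLinearMap := by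
    rintro f ⟨⟨c, hc, hcs⟩, hf2⟩
    obtain ⟨S, _, hS'⟩ := exists_change p s hs
    -- the values of the same derivation at the family `p`
    obtain ⟨f', hf'⟩ : ∃ f' : HS G τ, f' = S f := ⟨_, rfl⟩
    have e1 : ∀ i, c (p i) = pr i f' := fun i => by
      rw [hf']
      exact (hS' c hc f hcs i).symm
    have e2 : f' ∈ derValues p := ⟨c, hc, e1⟩
    have e3 : T f' = f := by
      apply HS.ext_pr
      intro k
      rw [hT' c hc f' e1 k, hcs k]
    refine ⟨QS p f', ?_, ?_⟩
    · rw [hV₀]
      exact QS_mem p hp e2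
    · show QS s (T (QS p f')) = f
      have e4 : QS s (T (f' - QS p f')) = 0 := by
        have h5 : f' - QS p f' ∈ (innValues p)ᗮᗮ :=
          Submodule.sub_starProjection_mem_orthogonal (K := (LinearMap.range (BS p).toLinearMap)ᗮ) f'
        rw [Submodule.orthogonal_orthogonal_eq_closure] at h5
        have h6 : (innValues p).topologicalClosure ≤
            LinearMap.ker ((QS s ∘L T).toLinearMap : HS G τ →ₗ[ℝ] HS G κ) := by
          refine Submodule.topologicalClosure_minimal _ ?_ (ContinuousLinearMap.isClosed_ker _)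
          rintro _ ⟨ξ, rfl⟩
          show QS s (T (BS p ξ)) = 0
          have h7 : T (BS p ξ) = BS s ξ := by
            apply HS.ext_pr
            intro k
            rw [pr_BS]
            refine hT' (fun g => lt g ξ - ξ) (fun g h => ?_) (BS p ξ) (fun i => ?_) k
            · show lt (g * h) ξ - ξ = lt g ξ - ξ + lt g (lt h ξ - ξ)
              rw [map_sub, lt_mul]
              abel
            · exact (pr_BS p ξ i).symm
          rw [h7, QS_BS]
        exact h6 h5
      have e5 : QS s f = f := by
        have h8 : f ∈ (LinearMap.range (BS s).toLinearMap)ᗮ := hf2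
        exact Submodule.starProjection_eq_self_iff.mpr h8
      rw [map_sub, map_sub, sub_eq_zero, e3, e5] at e4
      exact e4.symm
  have h4 := vdim_mono h3
  have h5 : betti p = vdim V₀ := by
    rw [hV₀]
    rfl
  have h6 : betti s = vdim (derValues s ⊓ (innValues s)ᗮ) := rfl
  rw [h6, h5]
  linarith

/-- **The first `l^2`-Betti number does not depend on the finite generating family.** -/
theorem betti_eq [Fintype κ] [Fintype τ] (s : κ → G) (p : τ → G)
    (hs : Subgroup.closure (Set.range s) = ⊤) (hp : Subgroup.closure (Set.range p) = ⊤) :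
    betti s = betti p :=
  le_antisymm (betti_le_aux s p hs hp) (betti_le_aux p s hp hs)

end Pool.Agent.VND
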