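import Pool.Agent.RelGap.Contr

/-!
# Exponent matrices with independent rows: number of relators, and the perfect case
-/

set_option autoImplicit false

open scoped BigOperators

namespace Pool.Agent.VND

open Pool.Agent.FoxAsph Pool.Agent.RelGap

section

variable {X ι : Type} [Fintype X] [Fintype ι]

omit [Fintype ι] in
/-- a right inverse of the exponent matrix -/
theorem exists_right_inverse [DecidableEq ι] (rel : ι → Word X)
    (hE : ∀ b : ι → ℤ, ∃ c : FreeGroup X →* Multiplicative ℤ,
      ∀ i, c (FreeGroup.mk (rel i)) = Multiplicative.ofAdd (b i)) :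
    ∃ C : Matrix X ι ℤ,
      (Matrix.of fun i x => (Contr.ex x (FreeGroup.mk (rel i))).toAdd : Matrix ι X ℤ) * C = 1 := by
  classical
  choose c hc using fun j : ι => hE (Pi.single j 1)
  refine ⟨Matrix.of fun x j => (c j (FreeGroup.of x)).toAdd, ?_⟩
  ext i j
  rw [Matrix.mul_apply]
  simp only [Matrix.of_apply]
  have h1 := Contr.hom_eq (c j) (FreeGroup.mk (rel i))
  rw [hc j i, toAdd_ofAdd] at h1
  rw [Matrix.one_apply]
  simp only [smul_eq_mul] at h1
  rw [← h1, Pi.single_apply]

/-- The number of relators is at most the number of generators. -/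
theorem card_le (rel : ι → Word X)
    (hE : ∀ b : ι → ℤ, ∃ c : FreeGroup X →* Multiplicative ℤ,
      ∀ i, c (FreeGroup.mk (rel i)) = Multiplicative.ofAdd (b i)) :
    Fintype.card ι ≤ Fintype.card X := by
  classical
  obtain ⟨C, hC⟩ := exists_right_inverse rel hE
  refine card_le_of_injective ℤ (Matrix.toLin' C) ?_
  intro a b hab
  have h1 := congrArg (Matrix.toLin'
    (Matrix.of fun i x => (Contr.ex x (FreeGroup.mk (rel i))).toAdd : Matrix ι X ℤ)) hab
  rw [← Matrix.toLin'_mul_apply, ← Matrix.toLin'_mul_apply, hC, Matrix.toLin'_one] at h1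
  exact h1

/-- With as many relators as generators the group is perfect. -/
theorem perfect_of_card_eq (rel : ι → Word X)
    (hE : ∀ b : ι → ℤ, ∃ c : FreeGroup X →* Multiplicative ℤ,
      ∀ i, c (FreeGroup.mk (rel i)) = Multiplicative.ofAdd (b i))
    (h : Fintype.card ι = Fintype.card X) :
    ⁅(⊤ : Subgroup (Grp rel)), (⊤ : Subgroup (Grp rel))⁆ = ⊤ := by
  classical
  obtain ⟨C, hC⟩ := exists_right_inverse rel hE
  set E : Matrix ι X ℤ := Matrix.of fun i x => (Contr.ex x (FreeGroup.mk (rel i))).toAdd with hEdef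
  have hC2 : C * E = 1 := (Matrix.mul_eq_one_comm_of_card_eq ι X ℤ h).1 hC
  let P : Abelianization (Grp rel) →* Multiplicative (Additive (Abelianization (Grp rel))) :=
    { toFun := fun a => Multiplicative.ofAdd (Additive.ofMul a)
      map_one' := rfl
      map_mul' := fun _ _ => rfl }
  let f : FreeGroup X →* Multiplicative (Additive (Abelianization (Grp rel))) :=
    P.comp (Abelianization.of.comp (PresentedGroup.mk (Set.range fun i => FreeGroup.mk (rel i))))
  have hf : ∀ i, f (FreeGroup.mk (rel i)) = 1 := by
    intro i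
    have h1 : PresentedGroup.mk (Set.range fun i => FreeGroup.mk (rel i)) (FreeGroup.mk (rel i)) =
        1 := PresentedGroup.one_of_mem ⟨i, rfl⟩
    show P (Abelianization.of (PresentedGroup.mk _ (FreeGroup.mk (rel i)))) = 1
    rw [h1, map_one, map_one]
  have hrow : ∀ i, ∑ x, E i x • (f (FreeGroup.of x)).toAdd = 0 := by
    intro i
    have h1 := Contr.hom_eq f (FreeGroup.mk (rel i))
    rw [hf i, toAdd_one] at h1
    exact h1.symm
  have hgen : ∀ x, (f (FreeGroup.of x)).toAdd = 0 := by
    intro x
    have h1 : ∑ i, C x i • ∑ y, E i y • (f (FreeGroup.of y)).toAdd =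
        ∑ y, (∑ i, C x i * E i y) • (f (FreeGroup.of y)).toAdd := by
      simp only [Finset.smul_sum, smul_smul, Finset.sum_smul]
      exact Finset.sum_comm
    have h2 : ∀ y, ∑ i, C x i * E i y = if x = y then 1 else 0 := by
      intro y
      rw [← Matrix.mul_apply, hC2, Matrix.one_apply]
    simp only [hrow, smul_zero, Finset.sum_const_zero, h2, ite_smul, one_smul, zero_smul,
      Finset.sum_ite_eq, Finset.mem_univ, if_true] at h1
    exact h1.symm
  have hfone : ∀ w, f w = 1 := by
    intro w
    have h1 : f = 1 := by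
      apply FreeGroup.ext_hom
      intro x
      exact hgen x
    rw [h1]
    rfl
  have hab : ∀ g : Grp rel, Abelianization.of g = 1 := by
    intro g
    obtain ⟨w, rfl⟩ := PresentedGroup.mk_surjective _ g
    exact hfone w
  show commutator (Grp rel) = ⊤
  rw [eq_top_iff]
  intro g _
  exact (QuotientGroup.eq_one_iff g).1 (hab g)

end

end Pool.Agent.VND
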