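import Pool.Agent.RelGap.Contr

/-!
# A nontrivial rational character of a group with more generators than relators
-/

set_option autoImplicit false

open scoped BigOperators

namespace Pool.Agent.VND

open Pool.Agent.FoxAsph Pool.Agent.RelGap

/-- A group with more generators than relators has a nontrivial homomorphism to the rational
numbers. -/
theorem exists_char {m n : ℕ} (rel : Fin n → Word (Fin m)) (h : n < m) :
    ∃ (χ : Grp rel →* Multiplicative ℚ) (t : Grp rel), χ t ≠ 1 := by
  classical
  let E : (Fin m → ℚ) →ₗ[ℚ] (Fin n → ℚ) :=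
    { toFun := fun v i => ∑ x, (Contr.ex x (FreeGroup.mk (rel i))).toAdd • v x
      map_add' := fun v w => by
        funext i
        simp only [Pi.add_apply, smul_add, Finset.sum_add_distrib]
      map_smul' := fun c v => by
        funext i
        simp only [Pi.smul_apply, RingHom.id_apply, smul_eq_mul, Finset.mul_sum]
        refine Finset.sum_congr rfl fun x _ => ?_
        rw [zsmul_eq_mul, zsmul_eq_mul]
        ring }
  have hker : LinearMap.ker E ≠ ⊥ := by
    apply LinearMap.ker_ne_bot_of_finrank_lt
    rw [Module.finrank_fin_fun, Module.finrank_fin_fun]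
    exact h
  obtain ⟨v, hv, hv0⟩ := Submodule.exists_mem_ne_zero_of_ne_bot hker
  obtain ⟨x0, hx0⟩ : ∃ x, v x ≠ 0 := by
    by_contra hcon
    push Not at hcon
    exact hv0 (funext hcon)
  let ψ : FreeGroup (Fin m) →* Multiplicative ℚ :=
    FreeGroup.lift fun x => Multiplicative.ofAdd (v x)
  have hψ : ∀ x, (ψ (FreeGroup.of x)).toAdd = v x := fun x => by
    show (FreeGroup.lift (fun x => Multiplicative.ofAdd (v x)) (FreeGroup.of x)).toAdd = v x
    rw [FreeGroup.lift_apply_of]
    rfl
  have hrel : ∀ r ∈ Set.range fun i => FreeGroup.mk (rel i),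
      FreeGroup.lift (fun x => Multiplicative.ofAdd (v x)) r = 1 := by
    rintro r ⟨i, rfl⟩
    have h1 := Contr.hom_eq ψ (FreeGroup.mk (rel i))
    have h2 : ∑ x, (Contr.ex x (FreeGroup.mk (rel i))).toAdd • (ψ (FreeGroup.of x)).toAdd = 0 := by
      have h3 := congrFun (LinearMap.mem_ker.1 hv) i
      simp only [hψ]
      exact h3
    rw [h2] at h1
    exact h1
  refine ⟨PresentedGroup.toGroup hrel, PresentedGroup.of x0, ?_⟩
  intro hcon
  rw [PresentedGroup.toGroup.of] at hcon
  exact hx0 hcon

end Pool.Agent.VND
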