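import Pool.Agent.FoxAsph.Conservative
import Pool.Agent.RelGap.Sub

/-!
# Invariant vectors in the kernel of the Fox Jacobian vanish over a locally indicable quotient
-/

set_option autoImplicit false

open scoped BigOperators

namespace Pool.Agent.VND

open Pool.Agent.FoxAsph Pool.Agent.RelGap

section

variable {Q : Type} [Group Q]

/-- the coefficients of a product as a sum over the left factor -/
theorem coeff_mul_left (a b : MonoidAlgebra ℤ Q) (q : Q) :
    (a * b).coeff q = a.coeff.sum fun d n => n * b.coeff (d⁻¹ * q) := by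
  classical
  rw [MonoidAlgebra.coeff_mul]
  apply Finsupp.sum_congr
  intro d _
  have h1 : ∀ e : Q, (d * e = q) = (e = d⁻¹ * q) := fun e => by
    rw [eq_inv_mul_iff_mul_eq]
  simp only [h1]
  unfold Finsupp.sum
  rw [Finset.sum_ite_eq']
  split
  · rfl
  · rename_i h2
    rw [Finsupp.notMem_support_iff.1 h2, mul_zero]

/-- the augmentation -/
noncomputable def eps (Q : Type) [Group Q] : MonoidAlgebra ℤ Q →+* ℤ :=
  (MonoidAlgebra.lift ℤ ℤ Q (1 : Q →* ℤ)).toRingHom

theorem eps_of (g : Q) : eps Q (MonoidAlgebra.of ℤ Q g) = 1 := by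
  show MonoidAlgebra.lift ℤ ℤ Q (1 : Q →* ℤ) (MonoidAlgebra.of ℤ Q g) = 1
  rw [MonoidAlgebra.lift_of]
  rfl

theorem aug_coeff (a : MonoidAlgebra ℤ Q) : FoxAsph.aug a.coeff = eps Q a := by
  show _ = MonoidAlgebra.lift ℤ ℤ Q (1 : Q →* ℤ) a
  rw [MonoidAlgebra.lift_apply]
  unfold FoxAsph.aug
  apply Finsupp.sum_congr
  intro g _
  simp

theorem eps_map {P : Type} [Group P] (f : P →* Q) (a : MonoidAlgebra ℤ P) :
    eps Q (MonoidAlgebra.mapDomainRingHom ℤ f a) = eps P a := by
  have h1 : (eps Q).comp (MonoidAlgebra.mapDomainRingHom ℤ f) = eps P := by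
    apply MonoidAlgebra.ringHom_ext
    · intro n
      simp [eps]
    · intro g
      simp [eps]
  exact DFunLike.congr_fun h1 a

end

/-- the augmentation of a Fox derivative is an exponent sum -/
theorem eps_fox {X ι : Type} (rel : ι → Word X) (x : X) (w : Word X) :
    eps (Grp rel) (fox rel x w) = (Contr.ex x (FreeGroup.mk w)).toAdd := by
  classical
  induction w with
  | nil =>
    rw [fox, show (FreeGroup.mk [] : FreeGroup X) = 1 from rfl, map_one, toAdd_one, map_zero]
  | cons l w ih =>
    obtain ⟨y, b⟩ := l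
    rw [Contr.mk_cons, map_mul, toAdd_mul, ← ih]
    cases b
    · rw [fox, Contr.ex_false, map_add, map_mul, eps_of, one_mul, map_neg]
      congr 1
      congr 1
      by_cases h2 : y = x
      · rw [if_pos h2, if_pos h2, eps_of]
      · rw [if_neg h2, if_neg h2, map_zero]
    · rw [fox, Contr.ex_true, map_add, map_mul, eps_of, one_mul]
      congr 1
      by_cases h2 : y = x
      · rw [if_pos h2, if_pos h2, map_one]
      · rw [if_neg h2, if_neg h2, map_zero]

/-- If the rows of the exponent matrix are independent modulo every prime then they are independent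
over the integers. -/
theorem inj_of_indep {m n : ℕ} (rel : Fin n → Word (Fin m)) (hr : Gap.Indep rel) (c : Fin n → ℤ)
    (hc : ∀ x, ∑ i, c i * (Contr.ex x (FreeGroup.mk (rel i))).toAdd = 0) : ∀ i, c i = 0 := by
  intro i0
  by_contra h0
  obtain ⟨p, hp1, hp2⟩ := Nat.exists_infinite_primes ((c i0).natAbs + 1)
  have : Fact p.Prime := ⟨hp2⟩
  have h1 := hr p (fun i => ((c i : ℤ) : ZMod p)) (by
    intro ψ
    have h2 : ∀ i, ((c i : ℤ) : ZMod p) * (ψ (FreeGroup.mk (rel i))).toAdd =
        ∑ x, ((c i * (Contr.ex x (FreeGroup.mk (rel i))).toAdd : ℤ) : ZMod p) *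
          (ψ (FreeGroup.of x)).toAdd := by
      intro i
      rw [Contr.hom_eq ψ, Finset.mul_sum]
      refine Finset.sum_congr rfl fun x _ => ?_
      rw [zsmul_eq_mul, Int.cast_mul, mul_assoc]
    rw [Finset.sum_congr rfl fun i _ => h2 i, Finset.sum_comm]
    apply Finset.sum_eq_zero
    intro x _
    rw [← Finset.sum_mul, ← Int.cast_sum, hc x, Int.cast_zero, zero_mul]) i0
  have h3 : (p : ℤ) ∣ c i0 := (ZMod.intCast_zmod_eq_zero_iff_dvd (c i0) p).1 h1
  have h4 : p ∣ (c i0).natAbs := by
    rw [← Int.natCast_dvd_natCast, Int.dvd_natAbs]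
    exact h3
  have h5 := Nat.le_of_dvd (Int.natAbs_pos.2 h0) h4
  omega

/-- an element of the integral group ring which is invariant under right multiplication by `R` and
whose image in the group ring of the quotient by `R` is `0` is `0` -/
theorem zero_of_map_zero {P : Type} [Group P] (R : Subgroup P) [R.Normal] (a : MonoidAlgebra ℤ P)
    (ha : ∀ r ∈ R, a * MonoidAlgebra.of ℤ _ r = a)
    (h0 : MonoidAlgebra.mapDomainRingHom ℤ (QuotientGroup.mk' R) a = 0) : a = 0 := by
  classical
  have hinv : ∀ g, ∀ r ∈ R, a.coeff (g * r) = a.coeff g := by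
    intro g r hr
    have h1 := congrArg (fun b : MonoidAlgebra ℤ P => b.coeff (g * r)) (ha r hr)
    simp only [MonoidAlgebra.of_apply] at h1
    rw [MonoidAlgebra.coeff_mul_single_apply] at h1
    rw [mul_inv_cancel_right, mul_one] at h1
    exact h1.symm
  apply MonoidAlgebra.ext
  apply Finsupp.ext
  intro g
  by_contra hg
  have hg' : a.coeff g ≠ 0 := hg
  have h1 : (Finsupp.mapDomain (QuotientGroup.mk' R) a.coeff) (QuotientGroup.mk' R g) = 0 := by
    have h2 := congrArg (fun b : MonoidAlgebra ℤ (P ⧸ R) => b.coeff (QuotientGroup.mk' R g)) h0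
    exact h2
  rw [Finsupp.mapDomain, Finsupp.sum_apply] at h1
  unfold Finsupp.sum at h1
  have h3 : ∀ h ∈ a.coeff.support,
      (Finsupp.single (QuotientGroup.mk' R h) (a.coeff h)) (QuotientGroup.mk' R g) =
      if QuotientGroup.mk' R h = QuotientGroup.mk' R g then a.coeff g else 0 := by
    intro h _
    rw [Finsupp.single_apply]
    by_cases hh : QuotientGroup.mk' R h = QuotientGroup.mk' R g
    · rw [if_pos hh, if_pos hh]
      have h4 : g⁻¹ * h ∈ R := QuotientGroup.eq.1 hh.symm
      have h5 := hinv g _ h4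
      rw [mul_inv_cancel_left] at h5
      exact h5
    · rw [if_neg hh, if_neg hh]
  rw [Finset.sum_congr rfl h3, ← Finset.sum_filter, Finset.sum_const, smul_eq_zero] at h1
  rcases h1 with h1 | h1
  · have h6 : g ∈ a.coeff.support.filter
        (fun h => QuotientGroup.mk' R h = QuotientGroup.mk' R g) := by
      rw [Finset.mem_filter]
      exact ⟨Finsupp.mem_support_iff.2 hg', rfl⟩
    rw [Finset.card_eq_zero] at h1
    rw [h1] at h6
    exact absurd h6 (Finset.notMem_empty _)
  · exact hg' h1

/-- Let the rows of the exponent matrix of `rel` be independent modulo every prime and let `R` be a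
normal subgroup of the group of `rel` with locally indicable quotient. A row vector in the kernel of
the Fox Jacobian which is invariant under right multiplication by `R` is `0`. -/
theorem zero_of_right_inv {m n : ℕ} (rel : Fin n → Word (Fin m)) (hr : Gap.Indep rel)
    (R : Subgroup (Grp rel)) [R.Normal] (hLI : LocallyIndicable (⊤ : Subgroup (Grp rel ⧸ R)))
    (z : Fin n → MonoidAlgebra ℤ (Grp rel)) (hz : ∀ x, ∑ i, z i * fox rel x (rel i) = 0)
    (hR : ∀ i, ∀ r ∈ R, z i * MonoidAlgebra.of ℤ _ r = z i) : z = 0 := by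
  classical
  let M : MonoidAlgebra ℤ (Grp rel) →+* MonoidAlgebra ℤ (Grp rel ⧸ R) :=
    MonoidAlgebra.mapDomainRingHom ℤ (QuotientGroup.mk' R)
  let T : Fin n → Fin m → ((Grp rel ⧸ R) →₀ ℤ) := fun i x => (M (fox rel x (rel i))).coeff
  let e : (i : Fin n) → (Grp rel ⧸ R) ↪ (Fin n × (Grp rel ⧸ R)) := fun i =>
    ⟨fun d => (i, d), fun _ _ h => (Prod.mk.inj h).2⟩
  let w : (Fin n × (Grp rel ⧸ R)) →₀ ℤ := ∑ i, (M (z i)).coeff.embDomain (e i)
  have hw : ∀ i d, w (i, d) = (M (z i)).coeff d := by
    intro i d
    simp only [w, Finsupp.finsetSum_apply]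
    rw [Finset.sum_eq_single i]
    · exact Finsupp.embDomain_apply_self (e i) (M (z i)).coeff d
    · intro j _ hj
      apply Finsupp.embDomain_of_notMem_range
      rintro ⟨d', hd'⟩
      exact hj (Prod.mk.inj hd').1
    · intro h; exact absurd (Finset.mem_univ _) h
  have hw0 : w = 0 := by
    apply conservative ⊤ hLI T
    · intro a ha
      apply Finsupp.ext
      intro i
      apply inj_of_indep rel hr (fun i => a i)
      intro x
      have h1 := ha x
      rw [Finsupp.sum_fintype _ _ (by intro i; simp)] at h1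
      rw [← h1]
      apply Finset.sum_congr rfl
      intro i _
      show _ = a i * FoxAsph.aug ((M (fox rel x (rel i))).coeff)
      rw [aug_coeff, eps_map, eps_fox]
    · intro i g g' _ _
      exact Subgroup.mem_top _
    · intro x q
      have h1 : (w.sum fun y n => n * T y.1 x (y.2⁻¹ * q)) =
          ∑ i, (M (z i)).coeff.sum fun d n => n * T i x (d⁻¹ * q) := by
        simp only [w]
        rw [← Finsupp.sum_finsetSum_index (by intro y; simp) (by intro y b c; ring)]
        refine Finset.sum_congr rfl fun i _ => ?_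
        rw [Finsupp.sum_embDomain]
        rfl
      rw [h1]
      have h2 := congrArg (fun b => (M b).coeff q) (hz x)
      simp only [map_sum, map_mul, map_zero] at h2
      rw [MonoidAlgebra.coeff_sum, Finsupp.finsetSum_apply] at h2
      rw [MonoidAlgebra.coeff_zero, Finsupp.zero_apply] at h2
      rw [← h2]
      refine Finset.sum_congr rfl fun i _ => ?_
      rw [coeff_mul_left]
  funext i
  apply zero_of_map_zero R (z i) (hR i)
  apply MonoidAlgebra.ext
  apply Finsupp.ext
  intro d
  have h1 := hw i d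
  rw [hw0] at h1
  exact h1.symm

end Pool.Agent.VND
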