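import Pool.Agent.VND.Dim
import Pool.Agent.RelGap.Fox

/-!
# Derivations of a presented group given by the kernel of the Fox Jacobian

A vector in the kernel of (left multiplication by) the Fox Jacobian is the family of the values at
the generators of a derivation with values in `l^2(G)`; its value at the group element `g` is
`der rel g`.
-/

set_option autoImplicit false

open scoped BigOperators ENNReal RealInnerProductSpace

namespace Pool.Agent.VND

open Pool.Agent.FoxAsph Pool.Agent.RelGap

section general

variable {G : Type*} [Group G] {X : Type*} [Fintype X]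

/-- value of a row of group ring elements at a vector -/
noncomputable def ev (f : HS G X) (r : X → MonoidAlgebra ℤ G) : HS G Unit :=
  ∑ x, lm G Unit (r x) (pr x f)

theorem ev_zero (f : HS G X) : ev f 0 = 0 := by
  unfold ev
  apply Finset.sum_eq_zero
  intro x _
  rw [Pi.zero_apply, map_zero]
  rfl

theorem ev_add (f : HS G X) (r s : X → MonoidAlgebra ℤ G) : ev f (r + s) = ev f r + ev f s := by
  unfold ev
  rw [← Finset.sum_add_distrib]
  apply Finset.sum_congr rfl
  intro x _
  rw [Pi.add_apply, lm_add]

theorem ev_smul (f : HS G X) (a : MonoidAlgebra ℤ G) (r : X → MonoidAlgebra ℤ G) :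
    ev f (a • r) = lm G Unit a (ev f r) := by
  unfold ev
  rw [map_sum]
  apply Finset.sum_congr rfl
  intro x _
  rw [Pi.smul_apply, smul_eq_mul, lm_mul]

/-- the rows that vanish at a vector -/
noncomputable def van (f : HS G X) : Submodule (MonoidAlgebra ℤ G) (X → MonoidAlgebra ℤ G) where
  carrier := {r | ev f r = 0}
  zero_mem' := ev_zero f
  add_mem' := fun {r s} hr hs => by
    show ev f (r + s) = 0
    rw [ev_add, hr, hs, add_zero]
  smul_mem' := fun a r hr => by
    show ev f (a • r) = 0
    rw [ev_smul, hr, map_zero]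

theorem mem_van {f : HS G X} {r : X → MonoidAlgebra ℤ G} : r ∈ van f ↔ ev f r = 0 := Iff.rfl

omit [Fintype X] in
theorem pr_unit (f : HS G Unit) : pr () f = f := by
  apply HS.ext
  rintro ⟨⟩ x
  rw [pr_apply]

theorem mop_row (r : X → MonoidAlgebra ℤ G) (f : HS G X) :
    mop (fun _ : Unit => r) f = ev f r := by
  rw [← pr_unit (mop (fun _ : Unit => r) f), pr_mop]
  rfl

end general

variable {X ι : Type} [Fintype X] [Fintype ι]

/-- the Fox Jacobian of a presentation -/
noncomputable def Jm (rel : ι → Word X) : ι → X → MonoidAlgebra ℤ (Grp rel) :=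
  fun i x => fox rel x (rel i)

/-- value at `g` of the derivation given by its values at the generators -/
noncomputable def der (rel : ι → Word X) (g : Grp rel) :
    HS (Grp rel) X →L[ℝ] HS (Grp rel) Unit :=
  mop (fun _ x => D rel (Function.surjInv (valF_surjective rel) g) x)

omit [Fintype ι] in
theorem der_eq (rel : ι → Word X) (g : Grp rel) (f : HS (Grp rel) X) :
    der rel g f = ev f (D rel (Function.surjInv (valF_surjective rel) g)) :=
  mop_row _ f

omit [Fintype ι] in
theorem eqv_der (rel : ι → Word X) (g : Grp rel) : Eqv (der rel g) := eqv_mop _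

theorem row_mem_van (rel : ι → Word X) {f : HS (Grp rel) X}
    (hf : f ∈ LinearMap.ker (mop (Jm rel)).toLinearMap) (i : ι) : row rel (rel i) ∈ van f := by
  have h1 : mop (Jm rel) f = 0 := hf
  have h2 : pr i (mop (Jm rel) f) = 0 := by rw [h1, map_zero]
  rw [pr_mop] at h2
  exact h2

theorem D_mem_van (rel : ι → Word X) {f : HS (Grp rel) X}
    (hf : f ∈ LinearMap.ker (mop (Jm rel)).toLinearMap) (a : FreeGroup X)
    (ha : valF rel a = 1) : D rel a ∈ van f :=
  D_mem_of_rel rel (van f) (row_mem_van rel hf) a ha

/-- the value depends only on the group element -/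
theorem ev_D_congr (rel : ι → Word X) {f : HS (Grp rel) X}
    (hf : f ∈ LinearMap.ker (mop (Jm rel)).toLinearMap) {a b : FreeGroup X}
    (hab : valF rel a = valF rel b) : ev f (D rel a) = ev f (D rel b) := by
  have h1 : valF rel (a * b⁻¹) = 1 := by rw [map_mul, map_inv, hab, mul_inv_cancel]
  have h2 : ev f (D rel (a * b⁻¹)) = 0 := D_mem_van rel hf _ h1
  have h3 := D_mul rel (a * b⁻¹) b
  rw [inv_mul_cancel_right, h1, map_one, one_smul] at h3
  rw [h3, ev_add, h2, zero_add]

theorem der_valF (rel : ι → Word X) {f : HS (Grp rel) X}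
    (hf : f ∈ LinearMap.ker (mop (Jm rel)).toLinearMap) (a : FreeGroup X) :
    der rel (valF rel a) f = ev f (D rel a) := by
  rw [der_eq]
  exact ev_D_congr rel hf (Function.surjInv_eq (valF_surjective rel) _)

theorem der_mul (rel : ι → Word X) (g h : Grp rel) (f : HS (Grp rel) X)
    (hf : f ∈ LinearMap.ker (mop (Jm rel)).toLinearMap) :
    der rel (g * h) f = der rel g f + lt g (der rel h f) := by
  obtain ⟨a, rfl⟩ := valF_surjective rel g
  obtain ⟨b, rfl⟩ := valF_surjective rel h
  rw [← map_mul, der_valF rel hf, der_valF rel hf, der_valF rel hf, D_mul, ev_add, ev_smul, lm_of]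

theorem der_inj (rel : ι → Word X) (f : HS (Grp rel) X)
    (hf : f ∈ LinearMap.ker (mop (Jm rel)).toLinearMap) (h : ∀ g, der rel g f = 0) : f = 0 := by
  classical
  apply HS.ext_pr
  intro x
  have h1 := h (valF rel (FreeGroup.mk [(x, true)]))
  rw [der_valF rel hf] at h1
  unfold ev at h1
  rw [Finset.sum_eq_single x] at h1
  · have h2 : D rel (FreeGroup.mk [(x, true)]) x = 1 := by
      show fox rel x [(x, true)] = 1
      unfold fox fox
      rw [if_pos rfl, mul_zero, add_zero]
    rw [h2, map_one] at h1
    rw [map_zero]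
    exact h1
  · intro y _ hy
    have h2 : D rel (FreeGroup.mk [(x, true)]) y = 0 := by
      show fox rel y [(x, true)] = 0
      unfold fox fox
      rw [if_neg (Ne.symm hy), mul_zero, add_zero]
    rw [h2, map_zero]
    rfl
  · intro h2
    exact absurd (Finset.mem_univ _) h2

theorem der_mem_IRo (rel : ι → Word X) (R : Subgroup (Grp rel)) [R.Normal]
    (f : HS (Grp rel) X) (_hf : f ∈ LinearMap.ker (mop (Jm rel)).toLinearMap)
    (hR : f ∈ (IR R X)ᗮ) (g : Grp rel) : der rel g f ∈ (IR R Unit)ᗮ :=
  mop_mem_IRo _ hR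

end Pool.Agent.VND
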