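import Pool.Agent.VND.Basic
import Pool.Agent.VND.Inva
import Pool.Agent.VND.Rank0

/-!
# Values of derivations on a finite family of group elements, inner derivations
-/

set_option autoImplicit false

open scoped BigOperators ENNReal RealInnerProductSpace

namespace Pool.Agent.VND

variable {G : Type*} [Group G] {ι κ X : Type*}

/-- the values on the family `s` -/
noncomputable def DS [Fintype κ] (δ : G → HS G X →L[ℝ] HS G Unit) (s : κ → G) :
    HS G X →L[ℝ] HS G κ :=
  ∑ k, (inc k) ∘L (δ (s k))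

/-- the values of the inner derivations on the family `s` -/
noncomputable def BS [Fintype κ] (s : κ → G) : HS G Unit →L[ℝ] HS G κ :=
  ∑ k, (inc k) ∘L (((lt (s k) : HS G Unit ≃ₗᵢ[ℝ] HS G Unit) : HS G Unit →L[ℝ] HS G Unit) -
    ContinuousLinearMap.id ℝ (HS G Unit))

/-- the projection onto the orthogonal complement of the values of the inner derivations -/
noncomputable def QS [Fintype κ] (s : κ → G) : HS G κ →L[ℝ] HS G κ :=
  ((LinearMap.range (BS s).toLinearMap)ᗮ).starProjection

/-- the part of the values of the derivations in `Z` that is orthogonal to the inner derivations -/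
noncomputable def US [Fintype κ] (Z : Submodule ℝ (HS G X)) (δ : G → HS G X →L[ℝ] HS G Unit)
    (s : κ → G) : Submodule ℝ (HS G κ) :=
  (Z.map ((QS s) ∘L (DS δ s)).toLinearMap).topologicalClosure

theorem DS_apply [Fintype κ] (δ : G → HS G X →L[ℝ] HS G Unit) (s : κ → G) (f : HS G X) :
    DS δ s f = ∑ k, inc k (δ (s k) f) := by
  unfold DS
  rw [sum_apply]
  rfl

theorem pr_DS [Fintype κ] (δ : G → HS G X →L[ℝ] HS G Unit) (s : κ → G) (f : HS G X) (k : κ) :
    pr k (DS δ s f) = δ (s k) f := by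
  classical
  rw [DS_apply, map_sum, Finset.sum_eq_single k]
  · rw [pr_inc_self]
  · intro b _ hb
    rw [pr_inc_ne (Ne.symm hb)]
  · intro h
    exact absurd (Finset.mem_univ _) h

theorem DS_eq_zero_iff [Fintype κ] (δ : G → HS G X →L[ℝ] HS G Unit) (s : κ → G) (f : HS G X) :
    DS δ s f = 0 ↔ ∀ k, δ (s k) f = 0 := by
  constructor
  · intro h k
    rw [← pr_DS δ s f k, h, map_zero]
  · intro h
    rw [DS_apply]
    apply Finset.sum_eq_zero
    intro k _
    rw [h k, map_zero]

theorem BS_apply [Fintype κ] (s : κ → G) (f : HS G Unit) :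
    BS s f = ∑ k, inc k (lt (s k) f - f) := by
  unfold BS
  rw [sum_apply]
  rfl

theorem pr_BS [Fintype κ] (s : κ → G) (f : HS G Unit) (k : κ) : pr k (BS s f) = lt (s k) f - f := by
  classical
  rw [BS_apply, map_sum, Finset.sum_eq_single k]
  · rw [pr_inc_self]
  · intro b _ hb
    rw [pr_inc_ne (Ne.symm hb)]
  · intro h
    exact absurd (Finset.mem_univ _) h

theorem eqv_DS [Fintype κ] {δ : G → HS G X →L[ℝ] HS G Unit} (hδe : ∀ g, Eqv (δ g)) (s : κ → G) :
    Eqv (DS δ s) :=
  Eqv.sum _ fun k _ => Eqv.comp (eqv_inc k) (hδe (s k))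

theorem eqv_BS [Fintype κ] (s : κ → G) : Eqv (BS s) :=
  Eqv.sum _ fun k _ => Eqv.comp (eqv_inc k) (Eqv.sub (eqv_lt (s k)) eqv_id)

theorem inv_range {T : HS G X →L[ℝ] HS G κ} (hT : Eqv T) :
    Inv (LinearMap.range T.toLinearMap) := by
  rintro g _ ⟨f, rfl⟩
  exact ⟨rt g f, hT g f⟩

theorem inv_ker {T : HS G X →L[ℝ] HS G κ} (hT : Eqv T) : Inv (LinearMap.ker T.toLinearMap) := by
  intro g f hf
  rw [LinearMap.mem_ker] at hf ⊢
  show T (rt g f) = 0
  rw [hT]
  have : T f = 0 := hf
  rw [this, map_zero]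

theorem eqv_QS [Fintype κ] (s : κ → G) : Eqv (QS s) :=
  Inv.starProjection (Inv.orthogonal (inv_range (eqv_BS s)))

omit [Group G] in
theorem isClosed_ker (T : HS G X →L[ℝ] HS G κ) :
    IsClosed (LinearMap.ker T.toLinearMap : Set (HS G X)) :=
  T.isClosed_ker

theorem inv_US [Fintype κ] {Z : Submodule ℝ (HS G X)} (hZ : Inv Z)
    {δ : G → HS G X →L[ℝ] HS G Unit} (hδe : ∀ g, Eqv (δ g)) (s : κ → G) : Inv (US Z δ s) :=
  Inv.topologicalClosure (Inv.map hZ (Eqv.comp (eqv_QS s) (eqv_DS hδe s)))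

/-- inner derivations by invariant vectors vanish -/
theorem range_BS_le [Fintype κ] (R : Subgroup G) (s : κ → G) (hs : ∀ k, s k ∈ R) :
    LinearMap.range (BS s).toLinearMap ≤ ((IR R Unit)ᗮ).map (BS s).toLinearMap := by
  rintro _ ⟨ξ, rfl⟩
  refine Submodule.mem_map.mpr ⟨((IR R Unit)ᗮ).starProjection ξ,
    Submodule.starProjection_apply_mem _ _, ?_⟩
  have h1 : ξ - ((IR R Unit)ᗮ).starProjection ξ ∈ (IR R Unit)ᗮᗮ :=
    Submodule.sub_starProjection_mem_orthogonal ξ
  rw [Submodule.orthogonal_orthogonal_eq_closure,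
    IsClosed.submodule_topologicalClosure_eq (isClosed_IR R Unit)] at h1
  have h2 : BS s (ξ - ((IR R Unit)ᗮ).starProjection ξ) = 0 := by
    rw [BS_apply]
    apply Finset.sum_eq_zero
    intro k _
    rw [h1 (s k) (hs k), sub_self, map_zero]
  rw [map_sub, sub_eq_zero] at h2
  exact h2.symm

end Pool.Agent.VND
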