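import Pool.Agent.VND.FinalB
import Pool.Agent.VND.BettiB

/-!
# The optimal constant: the first `l^2`-Betti number of the fundamental group
-/

set_option autoImplicit false

open scoped BigOperators ENNReal RealInnerProductSpace

namespace Pool.Agent.VND

open Pool.Agent.FoxAsph Pool.Agent.RelGap Pool.Agent.RelGapTower

/-- The first `l^2`-Betti number of a finitely generated group: the common value of `betti s` over
its finite generating families `s`. -/
noncomputable def l2Betti (G : Type) [Group G] : ℝ :=
  sInf {b | ∃ (k : ℕ) (s : Fin k → G), Subgroup.closure (Set.range s) = ⊤ ∧ b = betti s}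

theorem l2Betti_eq {G : Type} [Group G] {κ : Type} [Fintype κ] (s : κ → G)
    (hs : Subgroup.closure (Set.range s) = ⊤) : l2Betti G = betti s := by
  have h1 : {b | ∃ (k : ℕ) (s : Fin k → G), Subgroup.closure (Set.range s) = ⊤ ∧ b = betti s} =
      {betti s} := by
    ext b
    simp only [Set.mem_ofPred_eq, Set.mem_singleton_iff]
    constructor
    · rintro ⟨k, p, hp, rfl⟩
      exact betti_eq p s hp hs
    · rintro rfl
      refine ⟨Fintype.card κ, s ∘ (Fintype.equivFin κ).symm, ?_, ?_⟩
      · rw [EquivLike.range_comp]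
        exact hs
      · apply betti_eq _ _ hs
        rw [EquivLike.range_comp]
        exact hs
  unfold l2Betti
  rw [h1, csInf_singleton]

/-- a finite generating family of a finitely generated subgroup -/
theorem exists_family {G : Type} [Group G] {H : Subgroup G} (h : H.FG) :
    ∃ (k : ℕ) (p : Fin k → H), Subgroup.closure (Set.range p) = ⊤ := by
  classical
  have h1 : Group.FG H := (Group.fg_iff_subgroup_fg H).mpr h
  obtain ⟨S, hS⟩ := (Group.fg_def.mp h1)
  refine ⟨Fintype.card S, (fun x : S => (x : H)) ∘ (Fintype.equivFin S).symm, ?_⟩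
  rw [EquivLike.range_comp, Subtype.range_coe_subtype]
  exact hS

theorem l2Betti_nonneg {G : Type} [Group G] {H : Subgroup G} (h : H.FG) : 0 ≤ l2Betti H := by
  obtain ⟨k, p, hp⟩ := exists_family h
  rw [l2Betti_eq p hp]
  exact betti_nonneg p

section gens

variable {X ι : Type} [Fintype X] [Fintype ι]

/-- the generators of the presented group -/
noncomputable def gens (rel : ι → Word X) (x : X) : Grp rel := val rel [(x, true)]

omit [Fintype X] [Fintype ι] in
theorem closure_gens (rel : ι → Word X) : Subgroup.closure (Set.range (gens rel)) = ⊤ := by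
  have h1 : (⊤ : Subgroup (Grp rel)) = (⊤ : Subgroup (FreeGroup X)).map (valF rel) := by
    rw [← MonoidHom.range_eq_map, MonoidHom.range_eq_top.mpr (valF_surjective rel)]
  rw [h1, ← FreeGroup.closure_range_of X, MonoidHom.map_closure]
  congr 1
  ext g
  simp only [Set.mem_range, Set.mem_image, exists_exists_eq_and]
  rfl

omit [Fintype ι] in
theorem ev_ite (rel : ι → Word X) (f : HS (Grp rel) X) (y : X) (a : MonoidAlgebra ℤ (Grp rel)) :
    ev f (fun x => open Classical in if y = x then a else 0) = lm (Grp rel) Unit a (pr y f) := by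
  classical
  unfold ev
  rw [Finset.sum_eq_single y]
  · beta_reduce
    rw [if_pos rfl]
  · intro x _ hx
    beta_reduce
    rw [if_neg (Ne.symm hx), map_zero]
    rfl
  · intro h
    exact absurd (Finset.mem_univ _) h

omit [Fintype ι] in
/-- the value of a derivation at a word -/
theorem cocycle_val (rel : ι → Word X) {c : Grp rel → HS (Grp rel) Unit}
    (hc : ∀ g h, c (g * h) = c g + lt g (c h)) {f : HS (Grp rel) X}
    (hf : ∀ x, c (gens rel x) = pr x f) (w : Word X) : c (val rel w) = ev f (row rel w) := by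
  classical
  induction w with
  | nil =>
    rw [val_nil, cocycle_one' hc]
    exact (ev_zero f).symm
  | cons l w ih =>
    obtain ⟨y, b⟩ := l
    cases b with
    | true =>
      have h1 : row rel ((y, true) :: w) =
          (fun x => open Classical in if y = x then (1 : MonoidAlgebra ℤ (Grp rel)) else 0) +
            MonoidAlgebra.of ℤ (Grp rel) (val rel [(y, true)]) • row rel w := by
        funext x
        show fox rel x ((y, true) :: w) = _
        rw [fox]
        rfl
      rw [val_cons, hc, ih, h1, ev_add, ev_smul, ev_ite, map_one, lm_of]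
      congr 1
      exact hf y
    | false =>
      have h1 : row rel ((y, false) :: w) =
          (fun x => open Classical in if y = x then
            - MonoidAlgebra.of ℤ (Grp rel) (val rel [(y, false)]) else 0) +
            MonoidAlgebra.of ℤ (Grp rel) (val rel [(y, false)]) • row rel w := by
        funext x
        show fox rel x ((y, false) :: w) = _
        rw [fox, Pi.add_apply]
        congr 1
        split_ifs
        · rfl
        · exact neg_zero
      have h2 : c (val rel [(y, false)]) = - lt (val rel [(y, false)]) (pr y f) := by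
        rw [val_inv_letter, cocycle_inv' hc, ← hf y]
        rfl
      rw [val_cons, hc, ih, h1, ev_add, ev_smul, ev_ite, map_neg, lm_of, h2]
      congr 1
      show _ = - (lm (Grp rel) Unit (MonoidAlgebra.of ℤ (Grp rel) (val rel [(y, false)])) (pr y f))
      rw [lm_of]

/-- the derivations are the kernel of the Fox Jacobian -/
theorem derValues_gens (rel : ι → Word X) :
    derValues (gens rel) = LinearMap.ker (mop (Jm rel)).toLinearMap := by
  classical
  apply le_antisymm
  · rintro f ⟨c, hc, hs⟩
    show mop (Jm rel) f = 0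
    apply HS.ext_pr
    intro i
    rw [pr_mop, map_zero]
    have h1 := cocycle_val rel hc hs (rel i)
    have h2 : val rel (rel i) = 1 := PresentedGroup.one_of_mem ⟨i, rfl⟩
    rw [h2, cocycle_one' hc] at h1
    exact h1.symm
  · intro f hf
    refine ⟨fun g => der rel g f, fun g h => der_mul rel g h f hf, fun x => ?_⟩
    show der rel (valF rel (FreeGroup.mk [(x, true)])) f = pr x f
    rw [der_valF rel hf, D_mk]
    have h1 : row rel [(x, true)] =
        (fun y => open Classical in if x = y then (1 : MonoidAlgebra ℤ (Grp rel)) else 0) := by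
      funext y
      show fox rel y [(x, true)] = _
      rw [fox, fox, mul_zero, add_zero]
    rw [h1, ev_ite, map_one]
    rfl

/-- the dimension of the space of derivations -/
theorem vdim_derValues {G : Type*} [Group G] [Infinite G] {κ : Type*} [Fintype κ] (s : κ → G)
    (hs : Subgroup.closure (Set.range s) = ⊤) : vdim (derValues s) = betti s + 1 := by
  have h1 := vdim_map_add_ker (derValues s) (isClosed_derValues s hs) (inv_derValues s) (QS s)
    (eqv_QS s)
  have h2 : (derValues s).map (QS s).toLinearMap = derValues s ⊓ (innValues s)ᗮ := by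
    apply le_antisymm
    · rintro _ ⟨f, hf, rfl⟩
      exact QS_mem s hs hf
    · rintro f ⟨hf1, hf2⟩
      refine ⟨f, hf1, ?_⟩
      have h8 : f ∈ (LinearMap.range (BS s).toLinearMap)ᗮ := hf2
      exact Submodule.starProjection_eq_self_iff.mpr h8
  have h3 : derValues s ⊓ LinearMap.ker (QS s).toLinearMap = (innValues s).topologicalClosure := by
    apply le_antisymm
    · rintro f ⟨_, hf2⟩
      exact mem_ker_QS s hf2
    · refine le_inf ?_ ?_
      · exact Submodule.topologicalClosure_minimal _ (innValues_le s) (isClosed_derValues s hs)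
      · refine Submodule.topologicalClosure_minimal _ ?_ (ContinuousLinearMap.isClosed_ker _)
        rintro _ ⟨ξ, rfl⟩
        exact QS_BS s ξ
  have h4 := vdim_range_add_ker (BS s) (eqv_BS s)
  have h5 : (BS s).ker = ⊥ := by
    rw [eq_bot_iff]
    intro ξ hξ
    have h5 : BS s ξ = 0 := hξ
    have h6 : ∀ k, lt (s k) ξ = ξ := by
      intro k
      have h7 := pr_BS s ξ k
      rw [h5, map_zero] at h7
      exact (sub_eq_zero.mp h7.symm)
    have h8 : ξ ∈ IR (⊤ : Subgroup G) Unit := fun g _ => lt_fixed_of_closure s hs h6 g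
    rw [IR_eq_bot (by rw [Subgroup.coe_top]; exact Set.infinite_univ)] at h8
    exact h8
  have h9 : vdim (BS s).range = vdim (innValues s) := rfl
  rw [h5, vdim_bot, Fintype.card_unit, Nat.cast_one, add_zero, h9] at h4
  rw [h2, h3, vdim_closure, h4] at h1
  exact h1.symm

end gens

section main

variable {m n a b : ℕ}

/-- if all values on finite subsets of the perfect radical are small, the complex is aspherical -/
theorem aspherical_of_dim (rel : Fin n → Word (Fin m)) (extra : Fin b → Word (Fin m ⊕ Fin a))
    (hK : Contractible (extend rel extra))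
    (hdim : vdim (LinearMap.ker (mop (Jm rel)).toLinearMap ⊓
      (IR (perfRad (Grp rel)) (Fin m))ᗮ) ≤ ((m : ℝ) - n) * vdim (IR (perfRad (Grp rel)) Unit)ᗮ) :
    Aspherical rel := by
  intro z hz
  have hr := sub_indep rel extra hK
  have hLI := quotient_locallyIndicable rel (prescribe_of_subcomplex rel extra hK)
  exact zero_of_right_inv rel hr (perfRad (Grp rel)) hLI z hz
    (right_inv_of_dim (perfRad (Grp rel)) (Jm rel) (by
      rw [Fintype.card_fin, Fintype.card_fin]
      exact hdim) z hz)

theorem isClosed_kerJ (rel : Fin n → Word (Fin m)) :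
    IsClosed ((LinearMap.ker (mop (Jm rel)).toLinearMap :
      Submodule ℝ (HS (Grp rel) (Fin m))) : Set (HS (Grp rel) (Fin m))) := isClosed_ker _

theorem inv_kerJ (rel : Fin n → Word (Fin m)) :
    Inv (LinearMap.ker (mop (Jm rel)).toLinearMap) := inv_ker (eqv_mop _)

/-- the perfect radical of a counterexample is infinite -/
theorem perfRad_infinite (rel : Fin n → Word (Fin m)) (extra : Fin b → Word (Fin m ⊕ Fin a))
    (hK : Contractible (extend rel extra)) (hnm : n < m) (hL : ¬ Aspherical rel) :
    (perfRad (Grp rel) : Set (Grp rel)).Infinite := by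
  by_contra hcon
  have hfin : (perfRad (Grp rel) : Set (Grp rel)).Finite := Set.not_infinite.mp hcon
  apply hL
  apply aspherical_of_dim rel extra hK
  obtain ⟨χ, t, ht⟩ := exists_char rel hnm
  have h1 := kill (perfRad (Grp rel)) (LinearMap.ker (mop (Jm rel)).toLinearMap)
    (isClosed_kerJ rel) (inv_kerJ rel) (der rel) (eqv_der rel)
    (der_mul rel) (der_inj rel) (der_mem_IRo rel _) 0
    (fun S hS => vdim_US_of_finite _ (inv_kerJ rel) (der rel) (eqv_der rel) (der_mul rel) _ hfin _
      (fun k => hS k.2) χ t ht)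
  have h2 := vdim_nonneg (IR (perfRad (Grp rel)) Unit)ᗮ
  have h3 : (n : ℝ) + 1 ≤ m := by exact_mod_cast hnm
  nlinarith

theorem kerJ_inf (rel : Fin n → Word (Fin m)) (h : (perfRad (Grp rel) : Set (Grp rel)).Infinite) :
    LinearMap.ker (mop (Jm rel)).toLinearMap ⊓ (IR (perfRad (Grp rel)) (Fin m))ᗮ =
      LinearMap.ker (mop (Jm rel)).toLinearMap := by
  rw [IR_eq_bot h, Submodule.bot_orthogonal_eq_top, inf_top_eq]

/-- the first `l^2`-Betti number of the fundamental group is the dimension of the kernel of the Fox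
Jacobian minus one -/
theorem vdim_kerJ (rel : Fin n → Word (Fin m))
    (h : (perfRad (Grp rel) : Set (Grp rel)).Infinite) :
    vdim (LinearMap.ker (mop (Jm rel)).toLinearMap) = l2Betti (Grp rel) + 1 := by
  have : Infinite (Grp rel) := by
    by_contra hcon
    rw [not_infinite_iff_finite] at hcon
    exact h (Set.toFinite _)
  rw [← derValues_gens, vdim_derValues _ (closure_gens rel), l2Betti_eq _ (closure_gens rel)]

/-- **The first `l^2`-Betti number of a counterexample.** -/
theorem lt_l2Betti (rel : Fin n → Word (Fin m)) (extra : Fin b → Word (Fin m ⊕ Fin a))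
    (hK : Contractible (extend rel extra)) (hnm : n < m) (hL : ¬ Aspherical rel) :
    (m : ℝ) - n - 1 < l2Betti (Grp rel) := by
  have hinf := perfRad_infinite rel extra hK hnm hL
  by_contra hcon
  rw [not_lt] at hcon
  apply hL
  apply aspherical_of_dim rel extra hK
  rw [kerJ_inf rel hinf, vdim_IRo_of_infinite _ hinf, vdim_kerJ rel hinf]
  linarith

/-- **The main theorem, with sets of representatives.** -/
theorem spreading_optimal (rel : Fin n → Word (Fin m))
    (extra : Fin b → Word (Fin m ⊕ Fin a)) (hK : Contractible (extend rel extra)) (hnm : n < m)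
    (hL : ¬ Aspherical rel) (c : ℝ) (hc : c < l2Betti (Grp rel)) :
    ∃ P : Subgroup (Grp rel), P.FG ∧ ⁅P, P⁆ = P ∧ ∀ H : Subgroup (Grp rel), H.FG →
      ∀ A : Finset (Grp rel), (∀ g ∈ A, ∀ x ∈ P, g * x * g⁻¹ ∈ H) →
        (∀ g ∈ A, ∀ g' ∈ A, g * g'⁻¹ ∈ H → g = g') → c * A.card ≤ l2Betti H := by
  classical
  by_contra hno
  have hinf := perfRad_infinite rel extra hK hnm hL
  have h1 := kill (perfRad (Grp rel)) (LinearMap.ker (mop (Jm rel)).toLinearMap)
    (isClosed_kerJ rel) (inv_kerJ rel) (der rel) (eqv_der rel)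
    (der_mul rel) (der_inj rel) (der_mem_IRo rel _) c (by
      intro S hS
      obtain ⟨P, hfg, hP, hSP⟩ := exists_perfect_of_finset S (fun x hx => hS hx)
      by_contra hne
      rw [not_le] at hne
      apply hno
      refine ⟨P, hfg, hP, ?_⟩
      intro H hH A hA hd
      obtain ⟨k, p, hp⟩ := exists_family hH
      have h1 := spread_betti (LinearMap.ker (mop (Jm rel)).toLinearMap) (inv_kerJ rel) (der rel)
        (eqv_der rel) (der_mul rel) (fun k : S => (k : Grp rel)) H p hp A
        (fun g hg k => hA g hg _ (hSP _ k.2)) hd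
      rw [l2Betti_eq p hp]
      have h2 : c * (A.card : ℝ) ≤ A.card * vdim (US (LinearMap.ker (mop (Jm rel)).toLinearMap)
          (der rel) (fun k : S => (k : Grp rel))) := by
        rw [mul_comm]
        exact mul_le_mul_of_nonneg_left hne.le (Nat.cast_nonneg _)
      exact h2.trans h1)
  rw [kerJ_inf rel hinf, vdim_IRo_of_infinite _ hinf, vdim_kerJ rel hinf] at h1
  linarith

/-- **Theorem.** Let `L` be a connected subcomplex of a finite contractible 2-complex with
`b₁(L) ≥ 1` and fundamental group `G`. If `L` is not aspherical, then for every `c` between `0` and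
`b₁⁽²⁾(G)` there is a finitely generated perfect subgroup `P` of `G` such that for every finitely
generated subgroup `H` of `G` the number of points of `H \ G` fixed by `P` is finite and at most
`b₁⁽²⁾(H) / c`. -/
theorem fixed_points (rel : Fin n → Word (Fin m))
    (extra : Fin b → Word (Fin m ⊕ Fin a)) (hK : Contractible (extend rel extra)) (hnm : n < m)
    (hL : ¬ Aspherical rel) (c : ℝ) (hc0 : 0 < c) (hc : c < l2Betti (Grp rel)) :
    ∃ P : Subgroup (Grp rel), P.FG ∧ ⁅P, P⁆ = P ∧ ∀ H : Subgroup (Grp rel), H.FG →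
      (fixedCosets H P).Finite ∧ c * (fixedCosets H P).ncard ≤ l2Betti H := by
  obtain ⟨P, h1, h2, h3⟩ := spreading_optimal rel extra hK hnm hL c hc
  exact ⟨P, h1, h2, fun H hH => fixedCosets_bound H P c _ hc0 (h3 H hH)⟩

/-- a subgroup generated by at most `k ≥ 1` elements has first `l^2`-Betti number at most `k - 1` -/
theorem l2Betti_closure_le {G : Type} [Group G] (T : Finset G) (k : ℕ) (hk : 1 ≤ k)
    (hT : T.card ≤ k) : l2Betti (Subgroup.closure (T : Set G)) ≤ (k : ℝ) - 1 := by
  classical
  let s : T → Subgroup.closure (T : Set G) := fun x => ⟨x, Subgroup.subset_closure x.2⟩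
  have hs : Subgroup.closure (Set.range s) = ⊤ := by
    rw [eq_top_iff]
    rintro ⟨x, hx⟩ -
    induction hx using Subgroup.closure_induction with
    | mem x hx => exact Subgroup.subset_closure ⟨⟨x, hx⟩, rfl⟩
    | one => exact Subgroup.one_mem _
    | mul x y hx hy h1 h2 => exact Subgroup.mul_mem _ h1 h2
    | inv x hx h1 => exact Subgroup.inv_mem _ h1
  rw [l2Betti_eq s hs]
  have hk' : (1 : ℝ) ≤ k := by exact_mod_cast hk
  rcases finite_or_infinite (Subgroup.closure (T : Set G)) with hf | hf
  · rw [betti_of_finite]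
    linarith
  · have h1 := betti_le_of_infinite s hs
    rw [Fintype.card_coe] at h1
    have h2 : (T.card : ℝ) ≤ k := by exact_mod_cast hT
    linarith

theorem fg_closure {G : Type} [Group G] (T : Finset G) : (Subgroup.closure (T : Set G)).FG :=
  ⟨T, rfl⟩

/-- **Corollary.** -/
theorem aspherical_small (rel : Fin n → Word (Fin m))
    (extra : Fin b → Word (Fin m ⊕ Fin a)) (hK : Contractible (extend rel extra)) (hnm : n < m)
    (h : ∀ P : Subgroup (Grp rel), P.FG → ⁅P, P⁆ = P → ∃ H : Subgroup (Grp rel), H.FG ∧ P ≤ H ∧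
      l2Betti H ≤ (m : ℝ) - n - 1) : Aspherical rel := by
  classical
  by_contra hL
  have h0 := lt_l2Betti rel extra hK hnm hL
  obtain ⟨c, hc1, hc2⟩ := exists_between h0
  obtain ⟨P, h1, h2, h4⟩ := spreading_optimal rel extra hK hnm hL c hc2
  obtain ⟨H, hH, hPH, hb⟩ := h P h1 h2
  have h3 := h4 H hH {1} (by
    intro g hg x hx
    rw [Finset.mem_singleton] at hg
    rw [hg, one_mul, inv_one, mul_one]
    exact hPH hx) (by
    intro g hg g' hg' _
    rw [Finset.mem_singleton] at hg hg'
    rw [hg, hg'])
  rw [Finset.card_singleton, Nat.cast_one, mul_one] at h3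
  linarith

/-- **Corollary.** -/
theorem aspherical_generated (rel : Fin n → Word (Fin m))
    (extra : Fin b → Word (Fin m ⊕ Fin a)) (hK : Contractible (extend rel extra)) (hnm : n < m)
    (h : ∀ P : Subgroup (Grp rel), P.FG → ⁅P, P⁆ = P → ∃ T : Finset (Grp rel),
      T.card + n ≤ m ∧ P ≤ Subgroup.closure (T : Set (Grp rel))) : Aspherical rel := by
  refine aspherical_small rel extra hK hnm fun P h1 h2 => ?_
  obtain ⟨T, hT, hPT⟩ := h P h1 h2
  refine ⟨_, fg_closure T, hPT, ?_⟩
  have h3 := l2Betti_closure_le T (m - n) (by omega) (by omega)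
  rw [Nat.cast_sub hnm.le] at h3
  exact h3

/-- **Corollary.** -/
theorem aspherical_bounded (rel : Fin n → Word (Fin m))
    (extra : Fin b → Word (Fin m ⊕ Fin a)) (hK : Contractible (extend rel extra)) (hnm : n < m)
    (N : ℝ) (C : Type) [Group C] (χ : Grp rel →* C) (t : Grp rel)
    (ht : ∀ i j : ℕ, χ (t ^ i) = χ (t ^ j) → i = j)
    (h : ∀ P : Subgroup (Grp rel), P.FG → ⁅P, P⁆ = P → ∃ H : Subgroup (Grp rel), H.FG ∧ P ≤ H ∧
      H ≤ χ.ker ∧ l2Betti H ≤ N) : Aspherical rel := by
  classical
  by_contra hL
  have h0 := lt_l2Betti rel extra hK hnm hL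
  obtain ⟨c, hc1, hc2⟩ := exists_between h0
  obtain ⟨P, h1, h2, h4⟩ := spreading_optimal rel extra hK hnm hL c hc2
  have hc : 0 < c := by
    have : (n : ℝ) + 1 ≤ m := by exact_mod_cast hnm
    linarith
  refine no_spread_betti N χ t ht ?_ P h1 h2 c hc ?_
  · intro Q hQ1 hQ2
    obtain ⟨H, hH, e1, e2, e3⟩ := h Q hQ1 hQ2
    obtain ⟨k, p, hp⟩ := exists_family hH
    exact ⟨H, k, p, hp, e1, e2, by rw [← l2Betti_eq p hp]; exact e3⟩
  · intro H k p hp A hA hd
    have hH : H.FG := by
      refine (Group.fg_iff_subgroup_fg H).mp ?_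
      exact ⟨⟨Finset.univ.image p, by rw [Finset.coe_image, Finset.coe_univ, Set.image_univ, hp]⟩⟩
    rw [← l2Betti_eq p hp]
    exact h4 H hH A hA hd

/-- **Corollary.** -/
theorem aspherical_bounded_char (rel : Fin n → Word (Fin m))
    (extra : Fin b → Word (Fin m ⊕ Fin a)) (hK : Contractible (extend rel extra)) (hnm : n < m)
    (N : ℝ) (χ : Grp rel →* Multiplicative ℤ) (hχ : χ ≠ 1)
    (h : ∀ P : Subgroup (Grp rel), P.FG → ⁅P, P⁆ = P → ∃ H : Subgroup (Grp rel), H.FG ∧ P ≤ H ∧
      H ≤ χ.ker ∧ l2Betti H ≤ N) : Aspherical rel := by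
  obtain ⟨t, ht⟩ : ∃ t, χ t ≠ 1 := by
    by_contra hcon
    push Not at hcon
    exact hχ (MonoidHom.ext hcon)
  refine aspherical_bounded rel extra hK hnm N _ χ t ?_ h
  intro i j hij
  rw [map_pow, map_pow] at hij
  have h1 := congrArg Multiplicative.toAdd hij
  rw [toAdd_pow, toAdd_pow, nsmul_eq_mul, nsmul_eq_mul] at h1
  have h2 : (χ t).toAdd ≠ 0 := fun h0 => ht (toAdd_eq_zero.1 h0)
  have h3 := mul_right_cancel₀ h2 h1
  exact_mod_cast h3

/-- **Corollary.** If the first `l^2`-Betti numbers of the finitely generated perfect subgroups are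
bounded, the complex is aspherical. -/
theorem aspherical_bounded_perf (rel : Fin n → Word (Fin m))
    (extra : Fin b → Word (Fin m ⊕ Fin a)) (hK : Contractible (extend rel extra)) (hnm : n < m)
    (N : ℝ) (h : ∀ P : Subgroup (Grp rel), P.FG → ⁅P, P⁆ = P → l2Betti P ≤ N) :
    Aspherical rel := by
  obtain ⟨χ, t, ht⟩ := exists_char rel hnm
  refine aspherical_bounded rel extra hK hnm N _ χ t ?_ ?_
  · intro i j hij
    rw [map_pow, map_pow] at hij
    have h1 := congrArg Multiplicative.toAdd hij
    rw [toAdd_pow, toAdd_pow, nsmul_eq_mul, nsmul_eq_mul] at h1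
    have h2 : (χ t).toAdd ≠ 0 := fun h0 => ht (Multiplicative.toAdd.injective h0)
    have h3 := mul_right_cancel₀ h2 h1
    exact_mod_cast h3
  · intro P hP1 hP2
    exact ⟨P, hP1, le_rfl, le_ker_of_perfect χ P hP2, h P hP1 hP2⟩

end main

end Pool.Agent.VND
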