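import Pool.Agent.VND.ElemDefs
import Pool.Agent.VND.FinalC

/-!
# The elementary definition of the first `l^2`-Betti number agrees with `l2Betti`
-/

set_option autoImplicit false

open scoped BigOperators ENNReal RealInnerProductSpace

namespace Pool.Agent.VND

section hilbert

variable {E : Type*} [NormedAddCommGroup E] [InnerProductSpace ℝ E]

theorem isGreatest_proj (M : Submodule ℝ E) [M.HasOrthogonalProjection] (e : E) :
    IsGreatest {t : ℝ | ∃ v ∈ M, ‖v‖ ^ 2 ≤ 1 ∧ t = ⟪v, e⟫ ^ 2} (‖M.starProjection e‖ ^ 2) := by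
  have hin : ∀ v ∈ M, ⟪v, e⟫ = ⟪v, M.starProjection e⟫ := by
    intro v hv
    have h1 : ⟪v, e - M.starProjection e⟫ = 0 := by
      rw [real_inner_comm]
      exact Submodule.starProjection_inner_eq_zero e v hv
    rw [inner_sub_right] at h1
    linarith
  constructor
  · by_cases h0 : M.starProjection e = 0
    · refine ⟨0, M.zero_mem, by simp, ?_⟩
      rw [h0, inner_zero_left, norm_zero]
    · have hn : ‖M.starProjection e‖ ≠ 0 := norm_ne_zero_iff.mpr h0
      have hm : M.starProjection e ∈ M := Submodule.starProjection_apply_mem _ _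
      refine ⟨‖M.starProjection e‖⁻¹ • M.starProjection e, M.smul_mem _ hm, ?_, ?_⟩
      · rw [norm_smul, norm_inv, norm_norm, inv_mul_cancel₀ hn, one_pow]
      · rw [hin _ (M.smul_mem _ hm), real_inner_smul_left, real_inner_self_eq_norm_sq, pow_two ‖_‖,
          ← mul_assoc, inv_mul_cancel₀ hn, one_mul]
        ring
  · rintro t ⟨v, hv, hv1, rfl⟩
    rw [hin v hv]
    have h1 := abs_real_inner_le_norm v (M.starProjection e)
    have h2 : ⟪v, M.starProjection e⟫ ^ 2 ≤ (‖v‖ * ‖M.starProjection e‖) ^ 2 := by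
      rw [← sq_abs ⟪v, M.starProjection e⟫]
      exact pow_le_pow_left₀ (abs_nonneg _) h1 2
    rw [mul_pow] at h2
    have h3 : 0 ≤ ‖M.starProjection e‖ ^ 2 := by positivity
    nlinarith

end hilbert

section translate

variable {H : Type} [Group H] {k : ℕ}

theorem norm_sq_tsum {α : Type*} (f : lp (fun _ : α => ℝ) 2) : ‖f‖ ^ 2 = ∑' a, f a ^ 2 := by
  rw [← real_inner_self_eq_norm_sq, lp.inner_eq_tsum]
  refine tsum_congr fun a => ?_
  rw [real_inner_self_eq_norm_sq, Real.norm_eq_abs, sq_abs]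

theorem summable_sq {α : Type*} (f : lp (fun _ : α => ℝ) 2) : Summable fun a => f a ^ 2 := by
  have h := lp.memℓp f
  rw [memℓp_gen_iff (by norm_num)] at h
  refine h.congr fun a => ?_
  rw [ENNReal.toReal_ofNat, Real.rpow_ofNat, Real.norm_eq_abs, sq_abs]

theorem memlp_of_summable_sq {α : Type*} {f : α → ℝ} (h : Summable fun a => f a ^ 2) :
    Memℓp (E := fun _ : α => ℝ) f 2 := by
  rw [memℓp_gen_iff (by norm_num)]
  refine h.congr fun a => ?_
  rw [ENNReal.toReal_ofNat, Real.rpow_ofNat, Real.norm_eq_abs, sq_abs]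

/-- the harmonic derivations are the derivations orthogonal to the inner ones -/
theorem mem_orth_iff (s : Fin k → H) (f : HS H (Fin k)) :
    f ∈ (innValues s)ᗮ ↔ ∀ z, ∑ i, f (i, s i * z) = ∑ i, f (i, z) := by
  have key : ∀ ξ : HS H Unit, ⟪BS s ξ, f⟫ = ⟪ξ, ∑ i, (lt (s i)⁻¹ (pr i f) - pr i f)⟫ := by
    intro ξ
    rw [inner_eq_sum_pr, inner_sum]
    refine Finset.sum_congr rfl fun i _ => ?_
    rw [pr_BS, inner_sub_left, inner_lt_left, inner_sub_right]
  have hval : ∀ z : H, (∑ i, (lt (s i)⁻¹ (pr i f) - pr i f) : HS H Unit) ((), z) =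
      ∑ i, (f (i, s i * z) - f (i, z)) := by
    intro z
    rw [lp_sum_apply]
    refine Finset.sum_congr rfl fun i _ => ?_
    show (lt (s i)⁻¹ (pr i f)) ((), z) - (pr i f) ((), z) = _
    rw [lt_apply, pr_apply, pr_apply, inv_inv]
  constructor
  · intro hf z
    have h1 : ⟪BS s (dl () z), f⟫ = 0 := hf _ ⟨dl () z, rfl⟩
    rw [key, inner_dl', hval, Finset.sum_sub_distrib] at h1
    linarith
  · intro h
    rintro _ ⟨ξ, rfl⟩
    show ⟪BS s ξ, f⟫ = 0
    rw [key]
    have h0 : (∑ i, (lt (s i)⁻¹ (pr i f) - pr i f) : HS H Unit) = 0 := by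
      apply HS.ext
      rintro ⟨⟩ z
      rw [hval, Finset.sum_sub_distrib, h z, sub_self]
      rfl
    rw [h0, inner_zero_right]

theorem set_eq (s : Fin k → H) (hs : Subgroup.closure (Set.range s) = ⊤) (i : Fin k) :
    {t : ℝ | ∃ c : H → H → ℝ, Harmonic s c ∧ ∑ j, ∑' z, c (s j) z ^ 2 ≤ 1 ∧ t = c (s i) 1 ^ 2} =
      {t : ℝ | ∃ v ∈ derValues s ⊓ (innValues s)ᗮ, ‖v‖ ^ 2 ≤ 1 ∧ t = ⟪v, ee i⟫ ^ 2} := by
  have hnorm : ∀ v : HS H (Fin k), ‖v‖ ^ 2 = ∑ j, ∑' z, v (j, z) ^ 2 := by
    intro v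
    rw [norm_sq_tsum, (summable_sq v).tsum_prod, tsum_fintype]
  ext t
  simp only [Set.mem_ofPred_eq]
  constructor
  · rintro ⟨c, ⟨h1, h2, h3⟩, h4, rfl⟩
    have hsum : Summable fun p : Fin k × H => c (s p.1) p.2 ^ 2 := by
      rw [summable_prod_of_nonneg (fun p => sq_nonneg _)]
      exact ⟨h2, (hasSum_fintype _).summable⟩
    have hc1 : ∀ z, c 1 z = 0 := by
      intro z
      have := h1 1 1 z
      rw [mul_one, inv_one, one_mul] at this
      linarith
    have hmem : ∀ w : H, Summable fun z => c w z ^ 2 := by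
      intro w
      have hw : w ∈ Subgroup.closure (Set.range s) := by rw [hs]; exact Subgroup.mem_top w
      induction hw using Subgroup.closure_induction with
      | mem x hx =>
        obtain ⟨j, rfl⟩ := hx
        exact h2 j
      | one =>
        refine summable_zero.congr fun z => ?_
        rw [hc1, zero_pow two_ne_zero]
      | mul x y _ _ ihx ihy =>
        have ihy' : Summable fun z => c y (x⁻¹ * z) ^ 2 :=
          (Equiv.summable_iff (f := fun z => c y z ^ 2) (Equiv.mulLeft x⁻¹)).mpr ihy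
        refine Summable.of_nonneg_of_le (fun z => sq_nonneg _) (fun z => ?_)
          ((ihx.mul_left 2).add (ihy'.mul_left 2))
        rw [h1]
        nlinarith [sq_nonneg (c x z - c y (x⁻¹ * z))]
      | inv x _ ihx =>
        have h5 : ∀ z, c x⁻¹ z = - c x (x * z) := by
          intro z
          have := h1 x⁻¹ x z
          rw [inv_mul_cancel, hc1, inv_inv] at this
          linarith
        have ihx' : Summable fun z => c x (x * z) ^ 2 :=
          (Equiv.summable_iff (f := fun z => c x z ^ 2) (Equiv.mulLeft x)).mpr ihx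
        refine ihx'.congr fun z => ?_
        rw [h5, neg_sq]
    let v : HS H (Fin k) := ⟨fun p => c (s p.1) p.2, memlp_of_summable_sq hsum⟩
    have hv : ∀ j z, v (j, z) = c (s j) z := fun _ _ => rfl
    have hm : ∀ w : H, Memℓp (E := fun _ : Unit × H => ℝ) (fun p => c w p.2) 2 := by
      intro w
      refine memlp_of_summable_sq ?_
      exact (Equiv.summable_iff (f := fun z => c w z ^ 2) (Equiv.punitProd H)).mpr (hmem w)
    refine ⟨v, ⟨⟨fun w => ⟨fun p => c w p.2, hm w⟩, fun g h => ?_, fun j => ?_⟩, ?_⟩, ?_, ?_⟩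
    · apply HS.ext
      intro u x
      exact h1 g h x
    · apply HS.ext
      intro u x
      rfl
    · exact (mem_orth_iff s v).mpr h3
    · rw [hnorm]
      exact h4
    · rw [inner_ee_right]
  · rintro ⟨v, ⟨⟨c, hc, hcs⟩, hv2⟩, hv3, rfl⟩
    have hcv : ∀ j z, c (s j) ((), z) = v (j, z) := by
      intro j z
      rw [hcs j, pr_apply]
    refine ⟨fun w z => c w ((), z), ⟨fun x y z => ?_, fun j => ?_, ?_⟩, ?_, ?_⟩
    · show c (x * y) ((), z) = c x ((), z) + c y ((), x⁻¹ * z)
      rw [hc]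
      rfl
    · have h5 := summable_sq (c (s j))
      exact (Equiv.summable_iff (f := fun z => c (s j) ((), z) ^ 2) (Equiv.punitProd H)).mp h5
    · intro z
      simp only [hcv]
      exact (mem_orth_iff s v).mp hv2 z
    · simp only [hcv]
      rw [← hnorm]
      exact hv3
    · show _ = c (s i) ((), 1) ^ 2
      rw [hcv, inner_ee_right]

theorem harmonicDim_eq (s : Fin k → H) (hs : Subgroup.closure (Set.range s) = ⊤) :
    harmonicDim s = betti s := by
  have hcl : IsClosed ((derValues s ⊓ (innValues s)ᗮ : Submodule ℝ (HS H (Fin k))) :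
      Set (HS H (Fin k))) := (isClosed_derValues s hs).inter (Submodule.isClosed_orthogonal _)
  unfold harmonicDim betti vdim
  refine Finset.sum_congr rfl fun i _ => ?_
  rw [set_eq s hs i]
  have h1 := isGreatest_proj (derValues s ⊓ (innValues s)ᗮ).topologicalClosure
    (ee i : HS H (Fin k))
  have h2 : (derValues s ⊓ (innValues s)ᗮ).topologicalClosure = derValues s ⊓ (innValues s)ᗮ :=
    hcl.submodule_topologicalClosure_eq
  have h3 : {t : ℝ | ∃ v ∈ derValues s ⊓ (innValues s)ᗮ, ‖v‖ ^ 2 ≤ 1 ∧ t = ⟪v, ee i⟫ ^ 2} =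
      {t : ℝ | ∃ v ∈ (derValues s ⊓ (innValues s)ᗮ).topologicalClosure, ‖v‖ ^ 2 ≤ 1 ∧
        t = ⟪v, ee i⟫ ^ 2} := by
    rw [h2]
  rw [h3]
  exact h1.csSup_eq

end translate

/-- the two definitions agree -/
theorem firstBetti_eq (G : Type) [Group G] : firstBetti G = l2Betti G := by
  unfold firstBetti l2Betti
  congr 1
  ext b
  simp only [Set.mem_ofPred_eq]
  constructor
  · rintro ⟨k, s, hs, rfl⟩
    exact ⟨k, s, hs, harmonicDim_eq s hs⟩
  · rintro ⟨k, s, hs, rfl⟩
    exact ⟨k, s, hs, (harmonicDim_eq s hs).symm⟩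

end Pool.Agent.VND
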