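import Mathlib

/-!
# The first `l^2`-Betti number of a finitely generated group, in elementary terms
-/

set_option autoImplicit false

open scoped BigOperators

namespace Pool.Agent.VND

/-- `c` is a derivation from the group `G` to the real functions on `G`, whose values at the family
`s` are square summable and, together, orthogonal to all inner derivations (harmonic). -/
def Harmonic {G : Type} [Group G] {k : ℕ} (s : Fin k → G) (c : G → G → ℝ) : Prop :=
  (∀ x y z, c (x * y) z = c x z + c y (x⁻¹ * z)) ∧
    (∀ i, Summable fun z => c (s i) z ^ 2) ∧
    ∀ z, ∑ i, c (s i) (s i * z) = ∑ i, c (s i) z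

/-- The von Neumann dimension of the space of the values at `s` of the harmonic derivations: the sum
over `i` of the squares of the norms of the projections of the unit vectors `e_i` to it. The square of
the norm of the projection of `e_i` is the largest square of a value `c (s i) 1` on the unit ball. -/
noncomputable def harmonicDim {G : Type} [Group G] {k : ℕ} (s : Fin k → G) : ℝ :=
  ∑ i, sSup {t : ℝ | ∃ c : G → G → ℝ, Harmonic s c ∧ ∑ j, ∑' z, c (s j) z ^ 2 ≤ 1 ∧
    t = c (s i) 1 ^ 2}

/-- The first `l^2`-Betti number of a finitely generated group: the value of `harmonicDim` at any finite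
generating family (it does not depend on the family). -/
noncomputable def firstBetti (G : Type) [Group G] : ℝ :=
  sInf {b : ℝ | ∃ (k : ℕ) (s : Fin k → G), Subgroup.closure (Set.range s) = ⊤ ∧ b = harmonicDim s}

end Pool.Agent.VND
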