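import Mathlib

/-!
# Perfect subgroups and bounded sets of generators in the kernel of a character
-/

set_option autoImplicit false

namespace Pool.Agent.VND

variable {G : Type} [Group G]

theorem conj_perfect (P : Subgroup G) (g : G) (h1 : P.FG) (h2 : ⁅P, P⁆ = P) :
    (P.map (MulAut.conj g).toMonoidHom).FG ∧
      ⁅P.map (MulAut.conj g).toMonoidHom, P.map (MulAut.conj g).toMonoidHom⁆ =
        P.map (MulAut.conj g).toMonoidHom := by
  refine ⟨?_, ?_⟩
  · classical
    obtain ⟨S, hS⟩ := h1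
    refine ⟨S.image (MulAut.conj g).toMonoidHom, ?_⟩
    rw [Finset.coe_image, ← MonoidHom.map_closure, hS]
  · rw [← Subgroup.map_commutator, h2]

theorem sup_perf (P Q : Subgroup G) (hP : ⁅P, P⁆ = P) (hQ : ⁅Q, Q⁆ = Q) :
    ⁅P ⊔ Q, P ⊔ Q⁆ = P ⊔ Q := by
  apply le_antisymm
  · rw [Subgroup.commutator_le]
    intro a ha b hb
    rw [commutatorElement_def]
    exact (P ⊔ Q).mul_mem ((P ⊔ Q).mul_mem ((P ⊔ Q).mul_mem ha hb) ((P ⊔ Q).inv_mem ha))
      ((P ⊔ Q).inv_mem hb)
  · apply sup_le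
    · conv_lhs => rw [← hP]
      exact Subgroup.commutator_mono le_sup_left le_sup_left
    · conv_lhs => rw [← hQ]
      exact Subgroup.commutator_mono le_sup_right le_sup_right

/-- finitely many conjugates of a finitely generated perfect subgroup lie in a finitely generated
perfect subgroup -/
theorem exists_perfect_conj (P : Subgroup G) (h1 : P.FG) (h2 : ⁅P, P⁆ = P) (t : G) (M : ℕ) :
    ∃ Q : Subgroup G, Q.FG ∧ ⁅Q, Q⁆ = Q ∧ ∀ i < M, ∀ x ∈ P, t ^ i * x * (t ^ i)⁻¹ ∈ Q := by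
  induction M with
  | zero =>
    exact ⟨⊥, ⟨∅, by simp⟩, Subgroup.commutator_bot_left _, fun i hi => absurd hi (Nat.not_lt_zero i)⟩
  | succ M ih =>
    obtain ⟨Q, hQ1, hQ2, hQ3⟩ := ih
    obtain ⟨h3, h4⟩ := conj_perfect P (t ^ M) h1 h2
    refine ⟨Q ⊔ P.map (MulAut.conj (t ^ M)).toMonoidHom, hQ1.sup h3, sup_perf _ _ hQ2 h4, ?_⟩
    intro i hi x hx
    rcases Nat.lt_succ_iff_lt_or_eq.1 hi with hi | rfl
    · exact Subgroup.mem_sup_left (hQ3 i hi x hx)
    · exact Subgroup.mem_sup_right (Subgroup.mem_map.2 ⟨x, hx, rfl⟩)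

/-- If every finitely generated perfect subgroup lies in a subgroup generated by at most `N` elements
of the kernel of a nontrivial character, then no finitely generated perfect subgroup spreads. -/
theorem no_spread (N : ℕ) (χ : G →* Multiplicative ℤ) (hχ : χ ≠ 1)
    (hN : ∀ P : Subgroup G, P.FG → ⁅P, P⁆ = P → ∃ T : Finset G, T.card ≤ N ∧
      (∀ x ∈ T, χ x = 1) ∧ P ≤ Subgroup.closure (T : Set G))
    (P : Subgroup G) (hfg : P.FG) (hperf : ⁅P, P⁆ = P) (c : ℝ) (hc : 0 < c)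
    (h : ∀ T A : Finset G,
      (∀ g ∈ A, ∀ x ∈ P, g * x * g⁻¹ ∈ Subgroup.closure (T : Set G)) →
      (∀ g ∈ A, ∀ g' ∈ A, g * g'⁻¹ ∈ Subgroup.closure (T : Set G) → g = g') →
      c * A.card ≤ T.card) : False := by
  classical
  obtain ⟨t, ht⟩ : ∃ t, χ t ≠ 1 := by
    by_contra hcon
    push Not at hcon
    exact hχ (MonoidHom.ext hcon)
  have hpow : ∀ i j : ℕ, χ (t ^ i) = χ (t ^ j) → i = j := by
    intro i j hij
    rw [map_pow, map_pow] at hij
    have h1 := congrArg Multiplicative.toAdd hij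
    rw [toAdd_pow, toAdd_pow, nsmul_eq_mul, nsmul_eq_mul] at h1
    have h2 : (χ t).toAdd ≠ 0 := fun h0 => ht (toAdd_eq_zero.1 h0)
    have h3 := mul_right_cancel₀ h2 h1
    exact_mod_cast h3
  obtain ⟨M, hM⟩ := exists_nat_gt ((N : ℝ) / c)
  obtain ⟨Q, hQ1, hQ2, hQ3⟩ := exists_perfect_conj P hfg hperf t M
  obtain ⟨T, hT1, hT2, hT3⟩ := hN Q hQ1 hQ2
  have hker : ∀ x ∈ Subgroup.closure (T : Set G), χ x = 1 := by
    intro x hx
    have h1 : Subgroup.closure (T : Set G) ≤ χ.ker := by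
      rw [Subgroup.closure_le]
      intro y hy
      exact hT2 y (Finset.mem_coe.1 hy)
    exact h1 hx
  have h4 := h T ((Finset.range M).image fun i => t ^ i) (by
      intro g hg x hx
      obtain ⟨i, hi, rfl⟩ := Finset.mem_image.1 hg
      exact hT3 (hQ3 i (Finset.mem_range.1 hi) x hx)) (by
      intro g hg g' hg' hgg
      obtain ⟨i, hi, rfl⟩ := Finset.mem_image.1 hg
      obtain ⟨j, hj, rfl⟩ := Finset.mem_image.1 hg'
      have h1 := hker _ hgg
      rw [map_mul, map_inv, mul_inv_eq_one] at h1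
      rw [hpow i j h1])
  rw [Finset.card_image_of_injective _ (fun i j hij => hpow i j (congrArg χ hij)),
    Finset.card_range] at h4
  have h5 : (T.card : ℝ) ≤ N := by exact_mod_cast hT1
  rw [div_lt_iff₀ hc] at hM
  nlinarith

end Pool.Agent.VND
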