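import Mathlib

/-!
# Finitely generated subgroups of infinite index in their normalizers
-/

set_option autoImplicit false

namespace Pool.Agent.VND

variable {G : Type} [Group G]

/-- a subgroup with infinite index in its normalizer: many elements of the normalizer in different
cosets -/
theorem exists_normalizer_finset (H : Subgroup G)
    (h : H.relIndex (Subgroup.normalizer (H : Set G)) = 0) (M : ℕ) :
    ∃ A : Finset G, A.card = M ∧ (∀ g ∈ A, ∀ x ∈ H, g * x * g⁻¹ ∈ H) ∧
      ∀ g ∈ A, ∀ g' ∈ A, g * g'⁻¹ ∈ H → g = g' := by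
  classical
  set N := Subgroup.normalizer (H : Set G) with hN
  have hinf : Infinite (N ⧸ H.subgroupOf N) := by
    rw [← Subgroup.index_eq_zero_iff_infinite]
    exact h
  obtain ⟨B, hB⟩ := Infinite.exists_subset_card_eq (N ⧸ H.subgroupOf N) M
  let s : (N ⧸ H.subgroupOf N) → G := fun q => ((Quotient.out q : N) : G)
  have hout : ∀ q : N ⧸ H.subgroupOf N, ((Quotient.out q : N) : N ⧸ H.subgroupOf N) = q :=
    fun q => Quotient.out_eq q
  have hs : Function.Injective s := by
    intro p q hpq
    have h1 : (Quotient.out p : N) = Quotient.out q := Subtype.ext hpq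
    rw [← hout p, h1, hout q]
  refine ⟨B.image s, ?_, ?_, ?_⟩
  · rw [Finset.card_image_of_injective _ hs, hB]
  · intro g hg x hx
    obtain ⟨q, _, rfl⟩ := Finset.mem_image.mp hg
    exact ((Quotient.out q : N).2 x).mp hx
  · intro g hg g' hg' hgg
    obtain ⟨p, _, rfl⟩ := Finset.mem_image.mp hg
    obtain ⟨q, _, rfl⟩ := Finset.mem_image.mp hg'
    have h1 : (Quotient.out q : N)⁻¹ * (Quotient.out p : N) ∈ H.subgroupOf N := by
      rw [Subgroup.mem_subgroupOf]
      show ((Quotient.out q : N) : G)⁻¹ * ((Quotient.out p : N) : G) ∈ H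
      have h2 := ((N.inv_mem (Quotient.out q : N).2) _).mp hgg
      have h3 : ((Quotient.out q : N) : G)⁻¹ * (((Quotient.out p : N) : G) *
          ((Quotient.out q : N) : G)⁻¹) * ((Quotient.out q : N) : G)⁻¹⁻¹ =
          ((Quotient.out q : N) : G)⁻¹ * ((Quotient.out p : N) : G) := by group
      rw [← h3]
      exact h2
    have h2 : ((Quotient.out q : N) : N ⧸ H.subgroupOf N) = ((Quotient.out p : N) : N ⧸ H.subgroupOf N) :=
      QuotientGroup.eq.mpr h1
    rw [hout, hout] at h2
    rw [h2]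

/-- If every finitely generated perfect subgroup lies in a finitely generated subgroup of infinite
index in its normalizer, then no finitely generated perfect subgroup spreads. -/
theorem no_spread_normalizer
    (hN : ∀ P : Subgroup G, P.FG → ⁅P, P⁆ = P → ∃ H : Subgroup G, H.FG ∧ P ≤ H ∧
      H.relIndex (Subgroup.normalizer (H : Set G)) = 0)
    (P : Subgroup G) (hfg : P.FG) (hperf : ⁅P, P⁆ = P) (c : ℝ) (hc : 0 < c)
    (h : ∀ T A : Finset G,
      (∀ g ∈ A, ∀ x ∈ P, g * x * g⁻¹ ∈ Subgroup.closure (T : Set G)) →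
      (∀ g ∈ A, ∀ g' ∈ A, g * g'⁻¹ ∈ Subgroup.closure (T : Set G) → g = g') →
      c * A.card ≤ T.card) : False := by
  obtain ⟨H, ⟨T, rfl⟩, hPH, hidx⟩ := hN P hfg hperf
  obtain ⟨M, hM⟩ := exists_nat_gt ((T.card : ℝ) / c)
  obtain ⟨A, hA, h1, h2⟩ := exists_normalizer_finset _ hidx M
  have h3 := h T A (fun g hg x hx => h1 g hg x (hPH hx)) h2
  rw [hA] at h3
  rw [div_lt_iff₀ hc] at hM
  linarith

end Pool.Agent.VND
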