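import Pool.Agent.VND.Der

/-!
# Conjugates in a subgroup force many generators
-/

set_option autoImplicit false

open scoped BigOperators ENNReal RealInnerProductSpace

namespace Pool.Agent.VND

/-! ### A substitution operator -/

section wop

variable {α β : Type*}

open Classical in
theorem wop_mem (C : Set β) (e : β → α) (he : Set.InjOn e C) (f : lp (fun _ : α => ℝ) 2)
    (s : Finset β) : ∑ b ∈ s, ‖(if b ∈ C then f (e b) else 0 : ℝ)‖ ^ (2 : ℝ≥0∞).toReal ≤
      ‖f‖ ^ (2 : ℝ≥0∞).toReal := by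
  have h2 : 0 < (2 : ℝ≥0∞).toReal := by norm_num
  have h1 : ∑ b ∈ s, ‖(if b ∈ C then f (e b) else 0 : ℝ)‖ ^ (2 : ℝ≥0∞).toReal =
      ∑ b ∈ s.filter (· ∈ C), ‖f (e b)‖ ^ (2 : ℝ≥0∞).toReal := by
    rw [Finset.sum_filter]
    refine Finset.sum_congr rfl fun b _ => ?_
    split_ifs with h
    · rfl
    · rw [norm_zero, Real.zero_rpow h2.ne']
  rw [h1]
  have h3 : ∑ b ∈ s.filter (· ∈ C), ‖f (e b)‖ ^ (2 : ℝ≥0∞).toReal =
      ∑ a ∈ (s.filter (· ∈ C)).image e, ‖f a‖ ^ (2 : ℝ≥0∞).toReal := by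
    rw [Finset.sum_image]
    intro x hx y hy hxy
    exact he (Finset.mem_filter.mp hx).2 (Finset.mem_filter.mp hy).2 hxy
  rw [h3]
  exact lp.sum_rpow_le_norm_rpow h2 f _

open Classical in
/-- the operator `f ↦ (b ↦ f (e b)` on `C`, `0` off `C)` -/
noncomputable def wop (C : Set β) (e : β → α) (he : Set.InjOn e C) :
    lp (fun _ : α => ℝ) 2 →L[ℝ] lp (fun _ : β => ℝ) 2 :=
  LinearMap.mkContinuous
    { toFun := fun f => ⟨fun b => if b ∈ C then f (e b) else 0, memℓp_gen' (wop_mem C e he f)⟩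
      map_add' := fun f g => by
        apply lp.ext
        funext b
        show (if b ∈ C then (f + g) (e b) else 0 : ℝ) =
          (if b ∈ C then f (e b) else 0) + (if b ∈ C then g (e b) else 0)
        split_ifs
        · rfl
        · rw [add_zero]
      map_smul' := fun c f => by
        apply lp.ext
        funext b
        show (if b ∈ C then (c • f) (e b) else 0 : ℝ) = c * (if b ∈ C then f (e b) else 0)
        split_ifs
        · rfl
        · rw [mul_zero] } 1 (fun f => by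
      rw [one_mul]
      exact lp.norm_le_of_forall_sum_le (by norm_num) (norm_nonneg _) (wop_mem C e he f))

open Classical in
theorem wop_apply (C : Set β) (e : β → α) (he : Set.InjOn e C) (f : lp (fun _ : α => ℝ) 2) (b : β) :
    wop C e he f b = if b ∈ C then f (e b) else 0 := rfl

theorem norm_wop_le (C : Set β) (e : β → α) (he : Set.InjOn e C) (f : lp (fun _ : α => ℝ) 2) :
    ‖wop C e he f‖ ≤ ‖f‖ :=
  lp.norm_le_of_forall_sum_le (by norm_num) (norm_nonneg f) (wop_mem C e he f)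

end wop

section proj

variable {H₁ H₂ K₁ K₂ : Type*} [NormedAddCommGroup H₁] [InnerProductSpace ℝ H₁] [CompleteSpace H₁]
  [NormedAddCommGroup H₂] [InnerProductSpace ℝ H₂] [CompleteSpace H₂]
  [NormedAddCommGroup K₁] [InnerProductSpace ℝ K₁] [NormedAddCommGroup K₂] [InnerProductSpace ℝ K₂]

/-- projections off the ranges are intertwined by operators which intertwine the maps -/
theorem proj_range_comm (B : K₁ →L[ℝ] H₁) (B' : K₂ →L[ℝ] H₂) (T : H₁ → H₂) (T' : H₂ → H₁)
    (t : K₁ → K₂) (t' : K₂ → K₁) (hsub : ∀ f g, T (f - g) = T f - T g)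
    (hadj : ∀ f g, ⟪T f, g⟫ = ⟪f, T' g⟫) (h : ∀ x, T (B x) = B' (t x))
    (h' : ∀ y, T' (B' y) = B (t' y)) (f : H₁) :
    (LinearMap.range B'.toLinearMap)ᗮ.starProjection (T f) =
      T ((LinearMap.range B.toLinearMap)ᗮ.starProjection f) := by
  apply Submodule.eq_starProjection_of_mem_of_inner_eq_zero
  · rw [Submodule.mem_orthogonal]
    rintro _ ⟨y, rfl⟩
    rw [real_inner_comm, hadj]
    have h1 : T' (B' y) = B (t' y) := h' y
    show ⟪_, T' (B' y)⟫ = 0
    rw [h1, real_inner_comm]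
    exact (Submodule.mem_orthogonal _ _).mp (Submodule.starProjection_apply_mem _ f) _ ⟨_, rfl⟩
  · intro w hw
    rw [← hsub, hadj]
    have h2 : T' w ∈ (LinearMap.range B.toLinearMap)ᗮ := by
      rw [Submodule.mem_orthogonal]
      rintro _ ⟨x, rfl⟩
      show ⟪B x, T' w⟫ = 0
      rw [← hadj, h]
      exact (Submodule.mem_orthogonal _ _).mp hw _ ⟨_, rfl⟩
    exact Submodule.starProjection_inner_eq_zero f _ h2

end proj

section spread

variable {G : Type*} [Group G] {ι κ X τ : Type*}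

/-- the derivation at a product of conjugates -/
theorem cocycle_one {Z : Submodule ℝ (HS G X)} {δ : G → HS G X →L[ℝ] HS G Unit}
    (hδ : ∀ g h, ∀ f ∈ Z, δ (g * h) f = δ g f + lt g (δ h f)) {f : HS G X} (hf : f ∈ Z) :
    δ 1 f = 0 := by
  have h1 := hδ 1 1 f hf
  rw [mul_one, lt_one] at h1
  exact left_eq_add.mp h1

theorem cocycle_inv {Z : Submodule ℝ (HS G X)} {δ : G → HS G X →L[ℝ] HS G Unit}
    (hδ : ∀ g h, ∀ f ∈ Z, δ (g * h) f = δ g f + lt g (δ h f)) {f : HS G X} (hf : f ∈ Z) (g : G) :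
    δ g⁻¹ f = - lt g⁻¹ (δ g f) := by
  have h1 := hδ g⁻¹ g f hf
  rw [inv_mul_cancel, cocycle_one hδ hf] at h1
  exact eq_neg_of_add_eq_zero_left h1.symm

theorem cocycle_conj {Z : Submodule ℝ (HS G X)} {δ : G → HS G X →L[ℝ] HS G Unit}
    (hδ : ∀ g h, ∀ f ∈ Z, δ (g * h) f = δ g f + lt g (δ h f)) {f : HS G X} (hf : f ∈ Z) (g s : G) :
    δ (g * s * g⁻¹) f = lt g (δ s f) - (lt (g * s * g⁻¹) (δ g f) - δ g f) := by
  rw [hδ (g * s) g⁻¹ f hf, hδ g s f hf, cocycle_inv hδ hf g, map_neg, lt_mul]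
  abel

/-- rows of operators -/
theorem exists_row [Fintype τ] {Z : Submodule ℝ (HS G X)} {δ : G → HS G X →L[ℝ] HS G Unit}
    (hδ : ∀ g h, ∀ f ∈ Z, δ (g * h) f = δ g f + lt g (δ h f)) (p : τ → G) {w : G}
    (hw : w ∈ Subgroup.closure (Set.range p)) :
    ∃ T : τ → (HS G Unit →L[ℝ] HS G Unit), (∀ i, Eqv (T i)) ∧
      (∀ i f, T i (res (Subgroup.closure (Set.range p) : Set G) f) =
        res (Subgroup.closure (Set.range p) : Set G) (T i f)) ∧
      ∀ f ∈ Z, δ w f = ∑ i, T i (δ (p i) f) := by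
  classical
  have hstab : ∀ {n : G}, n ∈ Subgroup.closure (Set.range p) → ∀ x,
      n⁻¹ * x ∈ (Subgroup.closure (Set.range p) : Set G) ↔
        x ∈ (Subgroup.closure (Set.range p) : Set G) := by
    intro n hn x
    exact Subgroup.mul_mem_cancel_left _ (Subgroup.inv_mem _ hn)
  induction hw using Subgroup.closure_induction with
  | mem x hx =>
    obtain ⟨k, rfl⟩ := hx
    refine ⟨fun i => if i = k then ContinuousLinearMap.id ℝ _ else 0, fun i => ?_, fun i f => ?_,
      fun f _ => ?_⟩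
    · show Eqv (if i = k then ContinuousLinearMap.id ℝ _ else 0)
      split_ifs
      · exact eqv_id
      · exact eqv_zero
    · by_cases h : i = k
      · simp [h]
      · simp [h]
    · rw [Finset.sum_eq_single k]
      · simp
      · intro b _ hb
        simp [hb]
      · intro h; exact absurd (Finset.mem_univ _) h
  | one =>
    refine ⟨fun _ => 0, fun _ => eqv_zero, fun i f => ?_, fun f hf => ?_⟩
    · simp
    · rw [cocycle_one hδ hf]
      simp
  | mul x y hx _ ihx ihy =>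
    obtain ⟨T, h1, h2, h3⟩ := ihx
    obtain ⟨T', h1', h2', h3'⟩ := ihy
    refine ⟨fun i => T i + ltHom G Unit x ∘L T' i, fun i => (h1 i).add ((eqv_lt x).comp (h1' i)),
      fun i f => ?_, fun f hf => ?_⟩
    · rw [add_apply, add_apply, ContinuousLinearMap.comp_apply, ContinuousLinearMap.comp_apply,
        h2, h2', ltHom_apply, ltHom_apply, lt_res_of_stable (hstab hx), map_add]
    · rw [hδ x y f hf, h3 f hf, h3' f hf, map_sum, ← Finset.sum_add_distrib]
      rfl
  | inv x hx ihx =>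
    obtain ⟨T, h1, h2, h3⟩ := ihx
    refine ⟨fun i => (-1 : ℝ) • (ltHom G Unit x⁻¹ ∘L T i),
      fun i => Eqv.smul _ ((eqv_lt x⁻¹).comp (h1 i)), fun i f => ?_, fun f hf => ?_⟩
    · rw [smul_apply, smul_apply, ContinuousLinearMap.comp_apply, ContinuousLinearMap.comp_apply,
        h2, ltHom_apply, ltHom_apply, lt_res_of_stable (hstab (Subgroup.inv_mem _ hx)), map_smul]
    · rw [cocycle_inv hδ hf, h3 f hf, map_sum, ← Finset.sum_neg_distrib]
      refine Finset.sum_congr rfl fun i _ => ?_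
      rw [smul_apply, ContinuousLinearMap.comp_apply, neg_one_smul]
      rfl

/-- left translation intertwines the projections -/
theorem lt_QS [Fintype κ] (s : κ → G) (g : G) (f : HS G κ) :
    QS (fun k => g * s k * g⁻¹) (lt g f) = lt g (QS s f) := by
  unfold QS
  refine proj_range_comm (BS s) (BS fun k => g * s k * g⁻¹) (fun f => lt g f)
    (fun f => lt g⁻¹ f) (fun x => lt g x) (fun x => lt g⁻¹ x) (fun _ _ => map_sub _ _ _)
    (fun f f' => inner_lt_left g f f') (fun x => ?_) (fun y => ?_) f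
  · apply HS.ext_pr
    intro k
    rw [pr_lt, pr_BS, pr_BS, map_sub, lt_mul, lt_mul, inv_mul_cancel_right]
  · apply HS.ext_pr
    intro k
    rw [pr_lt, pr_BS, pr_BS, map_sub, lt_mul, lt_mul, mul_assoc, inv_mul_cancel_left]

/-- restrictions commute with the projections -/
theorem res_QS [Fintype κ] (s : κ → G) (C : Set G) (hC : ∀ k x, (s k)⁻¹ * x ∈ C ↔ x ∈ C)
    (f : HS G κ) : QS s (res C f) = res C (QS s f) := by
  unfold QS
  have hB : ∀ x : HS G Unit, res C (BS s x) = BS s (res C x) := by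
    intro x
    apply HS.ext_pr
    intro k
    rw [pr_res, pr_BS, pr_BS, map_sub, lt_res_of_stable (hC k)]
  exact proj_range_comm (BS s) (BS s) (fun f => res C f) (fun f => res C f) (fun x => res C x)
    (fun x => res C x) (fun _ _ => map_sub _ _ _) (fun f f' => inner_res_left C f f') hB hB f

theorem QS_BS [Fintype κ] (s : κ → G) (f : HS G Unit) : QS s (BS s f) = 0 := by
  unfold QS
  rw [Submodule.starProjection_apply_eq_zero_iff]
  exact Submodule.le_orthogonal_orthogonal _ ⟨f, rfl⟩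

/-- the values at the conjugates -/
theorem QS_DS_conj [Fintype κ] {Z : Submodule ℝ (HS G X)} {δ : G → HS G X →L[ℝ] HS G Unit}
    (hδ : ∀ g h, ∀ f ∈ Z, δ (g * h) f = δ g f + lt g (δ h f)) (s : κ → G) (g : G) {f : HS G X}
    (hf : f ∈ Z) :
    QS (fun k => g * s k * g⁻¹) (DS δ (fun k => g * s k * g⁻¹) f) = lt g (QS s (DS δ s f)) := by
  have h1 : DS δ (fun k => g * s k * g⁻¹) f =
      lt g (DS δ s f) - BS (fun k => g * s k * g⁻¹) (δ g f) := by
    apply HS.ext_pr
    intro k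
    rw [pr_DS, map_sub, pr_lt, pr_DS, pr_BS, cocycle_conj hδ hf]
  rw [h1, map_sub, QS_BS, sub_zero, lt_QS]

theorem spread_aux [Fintype κ] [Fintype τ] (Z : Submodule ℝ (HS G X)) (hZ : Inv Z)
    (δ : G → HS G X →L[ℝ] HS G Unit) (hδe : ∀ g, Eqv (δ g))
    (hδ : ∀ g h, ∀ f ∈ Z, δ (g * h) f = δ g f + lt g (δ h f)) (s : κ → G) (p : τ → G)
    (A : Finset G) (hA : ∀ g ∈ A, ∀ k, g * s k * g⁻¹ ∈ Subgroup.closure (Set.range p))
    (hd : ∀ g ∈ A, ∀ g' ∈ A, g * g'⁻¹ ∈ Subgroup.closure (Set.range p) → g = g')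
    (hV2 : ∀ T : HS G τ →L[ℝ] HS G (A × κ), Eqv T →
      vdim (LinearMap.range T.toLinearMap) ≤ Fintype.card τ) :
    (A.card : ℝ) * vdim (US Z δ s) ≤ Fintype.card τ := by
  classical
  have hstab : ∀ {n : G}, n ∈ Subgroup.closure (Set.range p) → ∀ x,
      n⁻¹ * x ∈ (Subgroup.closure (Set.range p) : Set G) ↔
        x ∈ (Subgroup.closure (Set.range p) : Set G) := by
    intro n hn x
    exact Subgroup.mul_mem_cancel_left _ (Subgroup.inv_mem _ hn)
  choose T hT1 hT2 hT3 using fun (g : A) (k : κ) => exists_row hδ p (hA g g.2 k)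
  obtain ⟨C, hC⟩ : ∃ C : Set G, C = (Subgroup.closure (Set.range p) : Set G) := ⟨_, rfl⟩
  rw [← hC] at hT2
  let W : A → (HS G τ →L[ℝ] HS G κ) := fun g => ∑ k, inc k ∘L ∑ i, T g k i ∘L pr i
  have hWapp : ∀ g f k, pr k (W g f) = ∑ i, T g k i (pr i f) := by
    intro g f k
    show pr k ((∑ k, inc k ∘L ∑ i, T g k i ∘L pr i : HS G τ →L[ℝ] HS G κ) f) = _
    rw [sum_apply, map_sum, Finset.sum_eq_single k]
    · rw [ContinuousLinearMap.comp_apply, pr_inc_self, sum_apply]
      rfl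
    · intro b _ hb
      rw [ContinuousLinearMap.comp_apply, pr_inc_ne (Ne.symm hb)]
    · intro h
      exact absurd (Finset.mem_univ _) h
  let Φ : HS G τ →L[ℝ] HS G (A × κ) := ∑ q : A × κ, inc q ∘L pr q.2 ∘L
    QS (fun k => (q.1 : G) * s k * (q.1 : G)⁻¹) ∘L W q.1
  have hΦapp : ∀ f q, pr q (Φ f) = pr q.2 (QS (fun k => (q.1 : G) * s k * (q.1 : G)⁻¹) (W q.1 f)) := by
    intro f q
    show pr q ((∑ q : A × κ, inc q ∘L pr q.2 ∘L
      QS (fun k => (q.1 : G) * s k * (q.1 : G)⁻¹) ∘L W q.1 : HS G τ →L[ℝ] HS G (A × κ)) f) = _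
    rw [sum_apply, map_sum, Finset.sum_eq_single q]
    · rw [ContinuousLinearMap.comp_apply, pr_inc_self]
      rfl
    · intro b _ hb
      rw [ContinuousLinearMap.comp_apply, pr_inc_ne (Ne.symm hb)]
    · intro h
      exact absurd (Finset.mem_univ _) h
  have hΦe : Eqv Φ := Eqv.sum _ fun q _ => (eqv_inc q).comp ((eqv_pr q.2).comp ((eqv_QS _).comp
    (Eqv.sum _ fun k _ => (eqv_inc k).comp (Eqv.sum _ fun i _ => (hT1 q.1 k i).comp (eqv_pr i)))))
  have hWres : ∀ g f, W g (res C f) = res C (W g f) := by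
    intro g f
    apply HS.ext_pr
    intro k
    rw [pr_res, hWapp, hWapp, map_sum]
    refine Finset.sum_congr rfl fun i _ => ?_
    rw [pr_res, hT2]
  have hΦres : ∀ f, Φ (res C f) = res C (Φ f) := by
    intro f
    apply HS.ext_pr
    intro q
    rw [pr_res, hΦapp, hΦapp, hWres, res_QS, pr_res]
    intro k x
    rw [hC]
    exact hstab (hA q.1 q.1.2 k) x
  -- the substitution operator
  let e : (A × κ) × G → κ × G := fun b => (b.1.2, (b.1.1 : G)⁻¹ * b.2)
  have he : Set.InjOn e {b | b.2 ∈ C} := by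
    rintro ⟨⟨g, k⟩, x⟩ hx ⟨⟨g', k'⟩, x'⟩ hx' h
    obtain ⟨h1, h2⟩ := Prod.mk.inj h
    change x ∈ C at hx
    change x' ∈ C at hx'
    change k = k' at h1
    change (g : G)⁻¹ * x = (g' : G)⁻¹ * x' at h2
    have h3 : (g' : G) * (g : G)⁻¹ = x' * x⁻¹ := by
      have : (g' : G)⁻¹ * x' * x⁻¹ = (g : G)⁻¹ := by rw [← h2]; group
      rw [← this]; group
    have h4 : (g' : G) = g := by
      apply hd _ g'.2 _ g.2
      rw [h3]
      rw [hC] at hx hx'
      exact Subgroup.mul_mem _ hx' (Subgroup.inv_mem _ hx)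
    have h5 : g = g' := Subtype.ext h4.symm
    subst h5
    subst h1
    have h6 : x = x' := mul_left_cancel h2
    rw [h6]
  let Θ : HS G κ →L[ℝ] HS G (A × κ) := wop {b | b.2 ∈ C} e he
  have hkey : ∀ f ∈ Z, Θ (QS s (DS δ s f)) = Φ (res C (∑ i, inc i (δ (p i) f))) := by
    intro f hf
    apply HS.ext
    intro q x
    rw [hΦres, res_apply]
    show wop {b | b.2 ∈ C} e he (QS s (DS δ s f)) (q, x) = _
    rw [wop_apply]
    show (if x ∈ C then (QS s (DS δ s f)) (q.2, (q.1 : G)⁻¹ * x) else 0) = _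
    congr 1
    have h1 : W q.1 (∑ i, inc i (δ (p i) f)) = DS δ (fun k => (q.1 : G) * s k * (q.1 : G)⁻¹) f := by
      apply HS.ext_pr
      intro k
      rw [hWapp, pr_DS, hT3 q.1 k f hf]
      refine Finset.sum_congr rfl fun i _ => ?_
      congr 1
      rw [map_sum, Finset.sum_eq_single i]
      · exact pr_inc_self _ _
      · intro b _ hb
        exact pr_inc_ne (Ne.symm hb) _
      · intro h
        exact absurd (Finset.mem_univ _) h
    rw [← pr_apply q (Φ _) () x, hΦapp, h1, QS_DS_conj hδ s q.1 hf, pr_apply, lt_apply]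
  -- the subspaces
  obtain ⟨V, hV⟩ : ∃ V : Submodule ℝ (HS G κ), V = Z.map (QS s ∘L DS δ s).toLinearMap := ⟨_, rfl⟩
  have hVinv : Inv V.topologicalClosure := by
    rw [hV]
    exact (hZ.map ((eqv_QS s).comp (eqv_DS hδe s))).topologicalClosure
  have hvd : vdim (US Z δ s) = vdim V := by
    rw [hV]
    exact vdim_closure _
  have hΘ : ∀ u ∈ V.topologicalClosure,
      Θ u ∈ (LinearMap.range Φ.toLinearMap).topologicalClosure := by
    intro u hu
    have h1 : u ∈ closure (V : Set (HS G κ)) := hu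
    have h2 : Θ u ∈ closure ((LinearMap.range Φ.toLinearMap : Submodule ℝ _) : Set _) := by
      refine map_mem_closure Θ.continuous h1 ?_
      intro v hv
      rw [hV] at hv
      obtain ⟨f, hf, rfl⟩ := hv
      exact ⟨_, (hkey f hf).symm⟩
    exact h2
  -- the estimate
  have hest : ∀ q : A × κ, ‖V.topologicalClosure.starProjection (ee q.2)‖ ^ 2 ≤
      ‖(LinearMap.range Φ.toLinearMap).topologicalClosure.starProjection (ee q)‖ ^ 2 := by
    intro q
    obtain ⟨u, hu⟩ : ∃ u, u = V.topologicalClosure.starProjection (dl q.2 (q.1 : G)⁻¹) := ⟨_, rfl⟩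
    obtain ⟨w, hw⟩ : ∃ w, w =
      (LinearMap.range Φ.toLinearMap).topologicalClosure.starProjection (ee q) := ⟨_, rfl⟩
    have hu1 : u = rt (q.1 : G) (V.topologicalClosure.starProjection (ee q.2)) := by
      rw [hu, ← rt_ee, hVinv.starProjection]
    have hu2 : ‖u‖ = ‖V.topologicalClosure.starProjection (ee q.2)‖ := by
      rw [hu1, LinearIsometryEquiv.norm_map]
    have hu3 : u ∈ V.topologicalClosure := by
      rw [hu]; exact Submodule.starProjection_apply_mem _ _
    have hu4 : ⟪dl q.2 (q.1 : G)⁻¹, u⟫ = ‖u‖ ^ 2 := by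
      have h1 := Submodule.starProjection_inner_eq_zero (K := V.topologicalClosure)
        (dl q.2 (q.1 : G)⁻¹) u hu3
      rw [← hu, inner_sub_left, sub_eq_zero, real_inner_self_eq_norm_sq] at h1
      exact h1
    have h5 : (Θ u) (q, 1) = u (q.2, (q.1 : G)⁻¹) := by
      show wop {b | b.2 ∈ C} e he u (q, 1) = _
      rw [wop_apply]
      show (if (1 : G) ∈ C then u (q.2, (q.1 : G)⁻¹ * 1) else 0) = _
      rw [if_pos (by rw [hC]; exact Subgroup.one_mem _), mul_one]
    have h6 : ⟪ee q, Θ u⟫ = ‖u‖ ^ 2 := by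
      rw [inner_ee_left, h5, ← hu4, inner_dl']
    have h7 : ⟪w, Θ u⟫ = ‖u‖ ^ 2 := by
      have h1 := Submodule.starProjection_inner_eq_zero
        (K := (LinearMap.range Φ.toLinearMap).topologicalClosure) (ee q) (Θ u) (hΘ u hu3)
      rw [← hw, inner_sub_left, sub_eq_zero, h6] at h1
      exact h1.symm
    have h8 : ‖u‖ ^ 2 ≤ ‖w‖ * ‖u‖ := by
      rw [← h7]
      exact (real_inner_le_norm _ _).trans
        (mul_le_mul_of_nonneg_left (norm_wop_le _ _ _ u) (norm_nonneg _))
    rw [← hu2, ← hw]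
    have h9 : ‖u‖ ≤ ‖w‖ := by
      by_contra hcon
      push Not at hcon
      have := norm_nonneg w
      nlinarith [norm_nonneg u]
    exact pow_le_pow_left₀ (norm_nonneg _) h9 2
  calc (A.card : ℝ) * vdim (US Z δ s)
      = ∑ q : A × κ, ‖V.topologicalClosure.starProjection (ee q.2)‖ ^ 2 := by
        rw [hvd, Fintype.sum_prod_type]
        show _ = ∑ x : A, ∑ y : κ, ‖V.topologicalClosure.starProjection (ee y)‖ ^ 2
        rw [Finset.sum_const, Finset.card_univ, Fintype.card_coe, nsmul_eq_mul]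
        rfl
    _ ≤ ∑ q : A × κ,
        ‖(LinearMap.range Φ.toLinearMap).topologicalClosure.starProjection (ee q)‖ ^ 2 :=
        Finset.sum_le_sum fun q _ => hest q
    _ ≤ Fintype.card τ := hV2 Φ hΦe

/-- **Spreading.** If a subgroup contains the conjugates of the family `s` by the elements of `A`,
and these elements lie in different cosets, then it needs at least `|A| * vdim U_S` generators. -/
theorem spread [Fintype κ] [Fintype τ] (Z : Submodule ℝ (HS G X)) (hZ : Inv Z)
    (δ : G → HS G X →L[ℝ] HS G Unit) (hδe : ∀ g, Eqv (δ g))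
    (hδ : ∀ g h, ∀ f ∈ Z, δ (g * h) f = δ g f + lt g (δ h f)) (s : κ → G) (p : τ → G)
    (A : Finset G) (hA : ∀ g ∈ A, ∀ k, g * s k * g⁻¹ ∈ Subgroup.closure (Set.range p))
    (hd : ∀ g ∈ A, ∀ g' ∈ A, g * g'⁻¹ ∈ Subgroup.closure (Set.range p) → g = g') :
    (A.card : ℝ) * vdim (US Z δ s) ≤ Fintype.card τ :=
  spread_aux Z hZ δ hδe hδ s p A hA hd fun T hT => by
    have h1 := vdim_range_add_ker T hT
    have h2 := vdim_nonneg T.ker
    have h3 : vdim (LinearMap.range T.toLinearMap) = vdim T.range := rfl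
    linarith

end spread

end Pool.Agent.VND
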