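import Pool.Agent.VND.Kill
import Pool.Agent.VND.Spread
import Pool.Agent.VND.Count
import Pool.Agent.VND.Cons
import Pool.Agent.VND.Card
import Pool.Agent.VND.Card2
import Pool.Agent.VND.CountB
import Pool.Agent.VND.Height
import Pool.Agent.VND.Norm
import Pool.Agent.RelGapTower.Radical

/-!
# Conjugates of a finitely generated perfect subgroup need many generators
-/

set_option autoImplicit false

open scoped BigOperators ENNReal RealInnerProductSpace

namespace Pool.Agent.VND

open Pool.Agent.FoxAsph Pool.Agent.RelGap Pool.Agent.RelGapTower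

variable {G : Type*} [Group G] {κ X τ : Type*}

/-- conjugates in different cosets of a subgroup with few generators -/
theorem spread' [Fintype X] [Fintype κ] [Fintype τ] (Z : Submodule ℝ (HS G X)) (hZ : Inv Z)
    (δ : G → HS G X →L[ℝ] HS G Unit) (hδe : ∀ g, Eqv (δ g))
    (hδ : ∀ g h, ∀ f ∈ Z, δ (g * h) f = δ g f + lt g (δ h f)) (s : κ → G) (p : τ → G) (A : Finset G)
    (hA : ∀ g ∈ A, ∀ k, g * s k * g⁻¹ ∈ Subgroup.closure (Set.range p))
    (hd : ∀ g ∈ A, ∀ g' ∈ A, g * g'⁻¹ ∈ Subgroup.closure (Set.range p) → g = g') :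
    (A.card : ℝ) * vdim (US Z δ s) ≤ Fintype.card τ :=
  spread_aux Z hZ δ hδe hδ s p A hA hd fun T hT => by
    have h1 := vdim_range_add_ker T hT
    have h2 := vdim_nonneg (LinearMap.ker T.toLinearMap)
    linarith

/-- finite subgroups: if `R` is finite and `t` has infinite order modulo `R`, every derivation is
inner on the finite subsets of `R` -/
theorem vdim_US_of_finite {G X κ : Type} [Group G] [Fintype X] [Fintype κ]
    (Z : Submodule ℝ (HS G X)) (hZ : Inv Z) (δ : G → HS G X →L[ℝ] HS G Unit)
    (hδe : ∀ g, Eqv (δ g)) (hδ : ∀ g h, ∀ f ∈ Z, δ (g * h) f = δ g f + lt g (δ h f))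
    (R : Subgroup G) [hR : R.Normal] (hfin : (R : Set G).Finite) (s : κ → G) (hs : ∀ k, s k ∈ R)
    (χ : G →* Multiplicative ℚ) (t : G) (ht : χ t ≠ 1) : vdim (US Z δ s) ≤ 0 := by
  classical
  have : Fintype R := hfin.fintype
  have hrange : Subgroup.closure (Set.range (fun r : R => (r : G))) = R := by
    rw [Subtype.range_coe_subtype]
    exact Subgroup.closure_eq R
  have hχR : ∀ r ∈ R, χ r = 1 := by
    intro r hr
    have h1 : IsOfFinOrder (⟨r, hr⟩ : R) := isOfFinOrder_of_finite _
    obtain ⟨k, hk, hk1⟩ := isOfFinOrder_iff_pow_eq_one.mp h1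
    have h2 : r ^ k = 1 := congrArg Subtype.val hk1
    have h3 := congrArg (fun g => (χ g).toAdd) h2
    simp only [map_pow, toAdd_pow, map_one, toAdd_one, nsmul_eq_mul, mul_eq_zero,
      Nat.cast_eq_zero] at h3
    rcases h3 with h3 | h3
    · exact absurd h3 (Nat.pos_iff_ne_zero.mp hk)
    · exact Multiplicative.toAdd.injective h3
  have hpow : ∀ i j : ℕ, t ^ i * (t ^ j)⁻¹ ∈ R → i = j := by
    intro i j h
    have h1 := hχR _ h
    rw [map_mul, map_inv, map_pow, map_pow, mul_inv_eq_one] at h1
    have h2 := congrArg Multiplicative.toAdd h1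
    simp only [toAdd_pow, nsmul_eq_mul] at h2
    have h3 : (χ t).toAdd ≠ 0 := fun h0 => ht (Multiplicative.toAdd.injective h0)
    have h4 := mul_right_cancel₀ h3 h2
    exact_mod_cast h4
  have hinj : Function.Injective fun i : ℕ => t ^ i := by
    intro i j hij
    have hij' : t ^ i = t ^ j := hij
    apply hpow
    rw [hij', mul_inv_cancel]
    exact R.one_mem
  by_contra hcon
  rw [not_le] at hcon
  obtain ⟨M, hM⟩ := exists_nat_gt ((Fintype.card R : ℝ) / vdim (US Z δ s))
  have h1 := spread' Z hZ δ hδe hδ s (fun r : R => (r : G))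
    ((Finset.range M).image fun i => t ^ i) (by
      intro g _ k
      rw [hrange]
      exact hR.conj_mem _ (hs k) _) (by
      intro g hg g' hg' h
      obtain ⟨i, _, rfl⟩ := Finset.mem_image.mp hg
      obtain ⟨j, _, rfl⟩ := Finset.mem_image.mp hg'
      rw [hrange] at h
      show t ^ i = t ^ j
      rw [hpow i j h])
  rw [Finset.card_image_of_injective _ hinj, Finset.card_range] at h1
  rw [div_lt_iff₀ hcon] at hM
  linarith

/-- the case of a group that is not perfect -/
theorem spreading_of_card {m n : ℕ} (rel : Fin n → Word (Fin m)) (hr : Gap.Indep rel)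
    (hLI : LocallyIndicable (⊤ : Subgroup (Grp rel ⧸ perfRad (Grp rel)))) (hnm : n < m)
    (hL : ¬ Aspherical rel) :
    ∃ P : Subgroup (Grp rel), P.FG ∧ ⁅P, P⁆ = P ∧ ∃ c : ℝ, (m : ℝ) - n - 1 < c ∧
      ∀ T A : Finset (Grp rel),
      (∀ g ∈ A, ∀ x ∈ P, g * x * g⁻¹ ∈ Subgroup.closure (T : Set (Grp rel))) →
      (∀ g ∈ A, ∀ g' ∈ A, g * g'⁻¹ ∈ Subgroup.closure (T : Set (Grp rel)) → g = g') →
      c * A.card ≤ T.card := by
  classical
  by_contra hno
  apply hL
  intro z hz
  set R := perfRad (Grp rel) with hRdef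
  have hZc : IsClosed ((LinearMap.ker (mop (Jm rel)).toLinearMap :
      Submodule ℝ (HS (Grp rel) (Fin m))) : Set (HS (Grp rel) (Fin m))) := isClosed_ker _
  have hZ : Inv (LinearMap.ker (mop (Jm rel)).toLinearMap) := inv_ker (eqv_mop _)
  have hUS : ∀ S : Finset (Grp rel), (S : Set (Grp rel)) ⊆ R →
      vdim (US (LinearMap.ker (mop (Jm rel)).toLinearMap) (der rel)
        (fun k : S => (k : Grp rel))) ≤ (m : ℝ) - n - 1 := by
    intro S hS
    obtain ⟨P, hfg, hP, hSP⟩ := exists_perfect_of_finset S (fun x hx => hS hx)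
    by_contra hne
    rw [not_le] at hne
    apply hno
    refine ⟨P, hfg, hP, _, hne, ?_⟩
    intro T A hA hd
    have hr : Set.range (fun k : T => (k : Grp rel)) = (T : Set (Grp rel)) :=
      Subtype.range_coe
    have h1 := spread' (LinearMap.ker (mop (Jm rel)).toLinearMap) hZ (der rel) (eqv_der rel)
      (der_mul rel) (fun k : S => (k : Grp rel)) (fun k : T => (k : Grp rel)) A
      (fun g hg k => by rw [hr]; exact hA g hg _ (hSP _ k.2))
      (fun g hg g' hg' => by rw [hr]; exact hd g hg g' hg')
    rw [Fintype.card_coe] at h1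
    linarith
  have hnm' : (0 : ℝ) ≤ (m : ℝ) - n - 1 := by
    have : (n : ℝ) + 1 ≤ m := by exact_mod_cast hnm
    linarith
  have hdim : vdim (LinearMap.ker (mop (Jm rel)).toLinearMap ⊓ (IR R (Fin m))ᗮ) ≤
      ((Fintype.card (Fin m) : ℝ) - Fintype.card (Fin n)) * vdim (IR R Unit)ᗮ := by
    rw [Fintype.card_fin, Fintype.card_fin]
    rcases Set.finite_or_infinite (R : Set (Grp rel)) with hfin | hinf
    · obtain ⟨χ, t, ht⟩ := exists_char rel hnm
      have h1 := kill R (LinearMap.ker (mop (Jm rel)).toLinearMap) hZc hZ (der rel) (eqv_der rel)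
        (der_mul rel) (der_inj rel) (der_mem_IRo rel R) 0
        (fun S hS => vdim_US_of_finite _ hZ (der rel) (eqv_der rel) (der_mul rel) R hfin _
          (fun k => hS k.2) χ t ht)
      have h2 := vdim_nonneg (IR R Unit)ᗮ
      nlinarith
    · have h1 := kill R (LinearMap.ker (mop (Jm rel)).toLinearMap) hZc hZ (der rel) (eqv_der rel)
        (der_mul rel) (der_inj rel) (der_mem_IRo rel R) _ hUS
      rw [vdim_IRo_of_infinite R hinf] at h1 ⊢
      linarith
  exact zero_of_right_inv rel hr R hLI z hz (right_inv_of_dim R (Jm rel) hdim z hz)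

/-- the presented group is generated by the generators -/
theorem fg_top {m n : ℕ} (rel : Fin n → Word (Fin m)) : (⊤ : Subgroup (Grp rel)).FG := by
  classical
  refine ⟨Finset.univ.image fun x : Fin m => valF rel (FreeGroup.of x), ?_⟩
  have h1 : (⊤ : Subgroup (Grp rel)) = (⊤ : Subgroup (FreeGroup (Fin m))).map (valF rel) := by
    rw [← MonoidHom.range_eq_map, MonoidHom.range_eq_top.mpr (valF_surjective rel)]
  rw [h1, ← FreeGroup.closure_range_of (Fin m), MonoidHom.map_closure]
  congr 1
  ext g
  simp only [Finset.coe_image, Finset.coe_univ, Set.image_univ, Set.mem_range, Set.mem_image,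
    exists_exists_eq_and]

/-- the case of a perfect group -/
theorem spreading_of_perfect {m n : ℕ} (rel : Fin n → Word (Fin m)) (hr : Gap.Indep rel)
    (hLI : LocallyIndicable (⊤ : Subgroup (Grp rel ⧸ perfRad (Grp rel))))
    (hL : ¬ Aspherical rel) :
    ∀ T A : Finset (Grp rel),
      (∀ g ∈ A, ∀ x ∈ (⊤ : Subgroup (Grp rel)),
        g * x * g⁻¹ ∈ Subgroup.closure (T : Set (Grp rel))) →
      (∀ g ∈ A, ∀ g' ∈ A, g * g'⁻¹ ∈ Subgroup.closure (T : Set (Grp rel)) → g = g') →
      A.card ≤ T.card := by
  classical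
  intro T A hA hd
  rcases A.eq_empty_or_nonempty with rfl | ⟨g, hg⟩
  · rw [Finset.card_empty]
    exact Nat.zero_le _
  · have htop : ∀ x, x ∈ Subgroup.closure (T : Set (Grp rel)) := by
      intro x
      have h1 := hA g hg (g⁻¹ * x * g) (Subgroup.mem_top _)
      have h2 : g * (g⁻¹ * x * g) * g⁻¹ = x := by group
      rwa [h2] at h1
    have h1 : A.card ≤ 1 := by
      rw [Finset.card_le_one]
      intro a ha b hb
      exact hd a ha b hb (htop _)
    refine h1.trans ?_
    rw [Nat.one_le_iff_ne_zero, ne_eq, Finset.card_eq_zero]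
    intro hT
    apply hL
    have htriv : ∀ x : Grp rel, x = 1 := by
      intro x
      have h2 := htop x
      rw [hT, Finset.coe_empty, Subgroup.closure_empty, Subgroup.mem_bot] at h2
      exact h2
    intro z hz
    refine zero_of_right_inv rel hr (perfRad (Grp rel)) hLI z hz ?_
    intro i r _
    rw [htriv r, map_one, mul_one]

/-- **Theorem.** Let `L` be a connected subcomplex of a finite contractible 2-complex that is not
aspherical. There are a finitely generated perfect subgroup `P` of the fundamental group and a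
constant `c > 0`, `c > b₁(L) - 1`, such that every subgroup that contains the conjugates of `P` by
elements in `k` different right cosets of the subgroup needs at least `c k` generators. -/
theorem spreading {m n a b : ℕ} (rel : Fin n → Word (Fin m)) (extra : Fin b → Word (Fin m ⊕ Fin a))
    (hK : Contractible (extend rel extra)) (hL : ¬ Aspherical rel) :
    ∃ P : Subgroup (Grp rel), P.FG ∧ ⁅P, P⁆ = P ∧ ∃ c : ℝ, 0 < c ∧ (m : ℝ) - n - 1 < c ∧
      ∀ T A : Finset (Grp rel),
      (∀ g ∈ A, ∀ x ∈ P, g * x * g⁻¹ ∈ Subgroup.closure (T : Set (Grp rel))) →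
      (∀ g ∈ A, ∀ g' ∈ A, g * g'⁻¹ ∈ Subgroup.closure (T : Set (Grp rel)) → g = g') →
      c * A.card ≤ T.card := by
  have hE := prescribe_of_subcomplex rel extra hK
  have hr := sub_indep rel extra hK
  have hLI := quotient_locallyIndicable rel hE
  have h1 := card_le rel hE
  rw [Fintype.card_fin, Fintype.card_fin] at h1
  rcases Nat.lt_or_ge n m with h | h
  · obtain ⟨P, hfg, hP, c, hc, H⟩ := spreading_of_card rel hr hLI h hL
    have h2 : (n : ℝ) + 1 ≤ m := by exact_mod_cast h
    exact ⟨P, hfg, hP, c, by linarith, hc, H⟩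
  · have hp := perfect_of_card_eq rel hE (by
      rw [Fintype.card_fin, Fintype.card_fin]
      exact le_antisymm h1 h)
    have h2 : (m : ℝ) ≤ n := by exact_mod_cast h
    refine ⟨⊤, fg_top rel, hp, 1, one_pos, by linarith, ?_⟩
    intro T A hA hd
    rw [one_mul, Nat.cast_le]
    exact spreading_of_perfect rel hr hLI hL T A hA hd

/-- **Corollary.** If every finitely generated perfect subgroup lies in a subgroup with fewer than
`b₁(L)` generators, then the subcomplex is aspherical. -/
theorem aspherical_of_few {m n a b : ℕ} (rel : Fin n → Word (Fin m))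
    (extra : Fin b → Word (Fin m ⊕ Fin a)) (hK : Contractible (extend rel extra))
    (h : ∀ P : Subgroup (Grp rel), P.FG → ⁅P, P⁆ = P → ∃ T : Finset (Grp rel),
      T.card + n < m ∧ P ≤ Subgroup.closure (T : Set (Grp rel))) : Aspherical rel := by
  classical
  by_contra hL
  obtain ⟨P, h1, h2, c, _, hc, H⟩ := spreading rel extra hK hL
  obtain ⟨T, hT, hPT⟩ := h P h1 h2
  have h3 := H T {1} (by
    intro g hg x hx
    rw [Finset.mem_singleton] at hg
    rw [hg, one_mul, inv_one, mul_one]
    exact hPT hx) (by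
    intro g hg g' hg' _
    rw [Finset.mem_singleton] at hg hg'
    rw [hg, hg'])
  rw [Finset.card_singleton, Nat.cast_one, mul_one] at h3
  have h4 : (T.card : ℝ) + n + 1 ≤ m := by exact_mod_cast hT
  linarith

/-- **Corollary.** If every finitely generated perfect subgroup lies in a finitely generated subgroup
of infinite index in its normalizer, then the subcomplex is aspherical. -/
theorem aspherical_of_normalizer {m n a b : ℕ} (rel : Fin n → Word (Fin m))
    (extra : Fin b → Word (Fin m ⊕ Fin a)) (hK : Contractible (extend rel extra))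
    (h : ∀ P : Subgroup (Grp rel), P.FG → ⁅P, P⁆ = P → ∃ H : Subgroup (Grp rel), H.FG ∧ P ≤ H ∧
      H.relIndex (Subgroup.normalizer (H : Set (Grp rel))) = 0) : Aspherical rel := by
  by_contra hL
  obtain ⟨P, h1, h2, c, hc, _, H⟩ := spreading rel extra hK hL
  exact no_spread_normalizer h P h1 h2 c hc H

/-- **Corollary.** If, for one nontrivial homomorphism `χ` to `ℤ`, all finitely generated perfect
subgroups lie in subgroups of the kernel of `χ` with at most `N` generators, then the subcomplex is
aspherical. -/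
theorem aspherical_of_bounded {m n a b : ℕ} (rel : Fin n → Word (Fin m))
    (extra : Fin b → Word (Fin m ⊕ Fin a)) (hK : Contractible (extend rel extra)) (N : ℕ)
    (χ : Grp rel →* Multiplicative ℤ) (hχ : χ ≠ 1)
    (h : ∀ P : Subgroup (Grp rel), P.FG → ⁅P, P⁆ = P → ∃ T : Finset (Grp rel), T.card ≤ N ∧
      (∀ x ∈ T, χ x = 1) ∧ P ≤ Subgroup.closure (T : Set (Grp rel))) : Aspherical rel := by
  by_contra hL
  obtain ⟨P, h1, h2, c, hc, _, H⟩ := spreading rel extra hK hL
  exact no_spread N χ hχ h P h1 h2 c hc H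

end Pool.Agent.VND
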