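import Pool.Agent.VND.Betti
import Pool.Agent.VND.Rank

/-!
# Conjugates in a subgroup force a large first `l^2`-Betti number
-/

set_option autoImplicit false

open scoped BigOperators ENNReal RealInnerProductSpace

namespace Pool.Agent.VND

variable {G : Type*} [Group G] {κ X τ : Type*}

/-- extension by zero of the values of an inner derivation of a subgroup -/
theorem jx_BS [Fintype τ] (H : Subgroup G) (p : τ → H) (ξ : HS H Unit) :
    jx H (BS p ξ) = BS (fun i => (p i : G)) (jx H ξ) := by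
  apply HS.ext_pr
  intro k
  rw [pr_jx, pr_BS, pr_BS, map_sub, jx_lt]

/-- the values on the subgroup of a derivation -/
theorem jc_DS_mem [Fintype τ] (H : Subgroup G) (p : τ → H) {Z : Submodule ℝ (HS G X)}
    {δ : G → HS G X →L[ℝ] HS G Unit}
    (hδ : ∀ g h, ∀ f ∈ Z, δ (g * h) f = δ g f + lt g (δ h f)) {f : HS G X} (hf : f ∈ Z) :
    jc H (DS δ (fun i => (p i : G)) f) ∈ derValues p := by
  refine ⟨fun h => jc H (δ (h : G) f), fun g h => ?_, fun k => ?_⟩
  · show jc H (δ ((g * h : H) : G) f) = jc H (δ (g : G) f) + lt g (jc H (δ (h : G) f))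
    rw [Subgroup.coe_mul, hδ _ _ f hf, map_add, jc_lt]
  · show jc H (δ (p k : G) f) = pr k (jc H (DS δ (fun i => (p i : G)) f))
    rw [pr_jc, pr_DS]

/-- the part orthogonal to the inner derivations is again a derivation -/
theorem QS_mem [Fintype τ] (p : τ → G) (hp : Subgroup.closure (Set.range p) = ⊤) {f : HS G τ}
    (hf : f ∈ derValues p) : QS p f ∈ derValues p ⊓ (innValues p)ᗮ := by
  refine ⟨?_, ?_⟩
  · have h1 : f - QS p f ∈ derValues p := by
      have h2 : f - QS p f ∈ (innValues p)ᗮᗮ :=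
        Submodule.sub_starProjection_mem_orthogonal (K := (LinearMap.range (BS p).toLinearMap)ᗮ) f
      rw [Submodule.orthogonal_orthogonal_eq_closure] at h2
      have h3 : (innValues p).topologicalClosure ≤ derValues p :=
        Submodule.topologicalClosure_minimal _ (innValues_le p) (isClosed_derValues p hp)
      exact h3 h2
    have h2 : QS p f = f - (f - QS p f) := by abel
    rw [h2]
    exact (derValues p).sub_mem hf h1
  · exact Submodule.starProjection_apply_mem (LinearMap.range (BS p).toLinearMap)ᗮ f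

/-- **Spreading, with the first `l^2`-Betti number.** If a subgroup `H` contains the conjugates of the
family `s` by the elements of `A`, and these elements lie in different cosets of `H`, then the first
`l^2`-Betti number of `H` is at least `|A| * vdim U_S`. -/
theorem spread_betti [Fintype X] [Fintype κ] [Fintype τ] (Z : Submodule ℝ (HS G X)) (hZ : Inv Z)
    (δ : G → HS G X →L[ℝ] HS G Unit) (hδe : ∀ g, Eqv (δ g))
    (hδ : ∀ g h, ∀ f ∈ Z, δ (g * h) f = δ g f + lt g (δ h f)) (s : κ → G) (H : Subgroup G)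
    (p : τ → H) (hp : Subgroup.closure (Set.range p) = ⊤)
    (A : Finset G) (hA : ∀ g ∈ A, ∀ k, g * s k * g⁻¹ ∈ H)
    (hd : ∀ g ∈ A, ∀ g' ∈ A, g * g'⁻¹ ∈ H → g = g') :
    (A.card : ℝ) * vdim (US Z δ s) ≤ betti p := by
  classical
  obtain ⟨p', hp'⟩ : ∃ p' : τ → G, p' = fun i => (p i : G) := ⟨_, rfl⟩
  have hcl : Subgroup.closure (Set.range p') = H := by
    have h1 : Set.range p' = H.subtype '' (Set.range p) := by
      rw [hp', ← Set.range_comp]
      rfl
    rw [h1, ← MonoidHom.map_closure, hp, ← MonoidHom.range_eq_map, Subgroup.range_subtype]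
  have hstab : ∀ {n : G}, n ∈ H → ∀ x, n⁻¹ * x ∈ (H : Set G) ↔ x ∈ (H : Set G) := by
    intro n hn x
    exact Subgroup.mul_mem_cancel_left _ (Subgroup.inv_mem _ hn)
  choose T hT1 hT2 hT3 using fun (g : A) (k : κ) =>
    exists_row_univ p' (w := (g : G) * s k * (g : G)⁻¹) (by rw [hcl]; exact hA g g.2 k)
  rw [hcl] at hT2
  let W : A → (HS G τ →L[ℝ] HS G κ) := fun g => ∑ k, inc k ∘L ∑ i, T g k i ∘L pr i
  have hWapp : ∀ g f k, pr k (W g f) = ∑ i, T g k i (pr i f) := by
    intro g f k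
    show pr k ((∑ k, inc k ∘L ∑ i, T g k i ∘L pr i : HS G τ →L[ℝ] HS G κ) f) = _
    rw [sum_apply, map_sum, Finset.sum_eq_single k]
    · rw [ContinuousLinearMap.comp_apply, pr_inc_self, sum_apply]
      rfl
    · intro b _ hb
      rw [ContinuousLinearMap.comp_apply, pr_inc_ne (Ne.symm hb)]
    · intro h
      exact absurd (Finset.mem_univ _) h
  let Φ : HS G τ →L[ℝ] HS G (A × κ) := ∑ q : A × κ, inc q ∘L pr q.2 ∘L
    QS (fun k => (q.1 : G) * s k * (q.1 : G)⁻¹) ∘L W q.1
  have hΦapp : ∀ f q, pr q (Φ f) = pr q.2 (QS (fun k => (q.1 : G) * s k * (q.1 : G)⁻¹) (W q.1 f)) := by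
    intro f q
    show pr q ((∑ q : A × κ, inc q ∘L pr q.2 ∘L
      QS (fun k => (q.1 : G) * s k * (q.1 : G)⁻¹) ∘L W q.1 : HS G τ →L[ℝ] HS G (A × κ)) f) = _
    rw [sum_apply, map_sum, Finset.sum_eq_single q]
    · rw [ContinuousLinearMap.comp_apply, pr_inc_self]
      rfl
    · intro b _ hb
      rw [ContinuousLinearMap.comp_apply, pr_inc_ne (Ne.symm hb)]
    · intro h
      exact absurd (Finset.mem_univ _) h
  have hΦe : Eqv Φ := Eqv.sum _ fun q _ => (eqv_inc q).comp ((eqv_pr q.2).comp ((eqv_QS _).comp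
    (Eqv.sum _ fun k _ => (eqv_inc k).comp (Eqv.sum _ fun i _ => (hT1 q.1 k i).comp (eqv_pr i)))))
  have hWres : ∀ g f, W g (res (H : Set G) f) = res (H : Set G) (W g f) := by
    intro g f
    apply HS.ext_pr
    intro k
    rw [pr_res, hWapp, hWapp, map_sum]
    refine Finset.sum_congr rfl fun i _ => ?_
    rw [pr_res, hT2]
  have hΦres : ∀ f, Φ (res (H : Set G) f) = res (H : Set G) (Φ f) := by
    intro f
    apply HS.ext_pr
    intro q
    rw [pr_res, hΦapp, hΦapp, hWres, res_QS, pr_res]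
    intro k x
    exact hstab (hA q.1 q.1.2 k) x
  -- inner derivations are mapped to zero
  have hΦB : ∀ η : HS G Unit, Φ (BS p' η) = 0 := by
    intro η
    apply HS.ext_pr
    intro q
    have h1 : W q.1 (BS p' η) = BS (fun k => (q.1 : G) * s k * (q.1 : G)⁻¹) η := by
      apply HS.ext_pr
      intro k
      rw [hWapp, pr_BS]
      have h2 := hT3 q.1 k (fun g => lt g η - η) (fun g h => by
        show lt (g * h) η - η = lt g η - η + lt g (lt h η - η)
        rw [map_sub, lt_mul]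
        abel)
      rw [h2]
      refine Finset.sum_congr rfl fun i _ => ?_
      rw [pr_BS]
    rw [hΦapp, h1, QS_BS, map_zero, map_zero]
  have hΦj : ∀ d : HS H τ, Φ (jx H d) = Φ (jx H (QS p d)) := by
    intro d
    have h2 : d - QS p d ∈ (innValues p)ᗮᗮ :=
      Submodule.sub_starProjection_mem_orthogonal (K := (LinearMap.range (BS p).toLinearMap)ᗮ) d
    rw [Submodule.orthogonal_orthogonal_eq_closure] at h2
    have h3 : (innValues p).topologicalClosure ≤
        LinearMap.ker ((Φ ∘L jx H).toLinearMap : HS H τ →ₗ[ℝ] HS G (A × κ)) := by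
      refine Submodule.topologicalClosure_minimal _ ?_ (ContinuousLinearMap.isClosed_ker _)
      rintro _ ⟨ξ, rfl⟩
      show Φ (jx H (BS p ξ)) = 0
      rw [jx_BS, ← hp', hΦB]
    have h4 : Φ (jx H (d - QS p d)) = 0 := h3 h2
    rw [map_sub, map_sub, sub_eq_zero] at h4
    exact h4
  -- the substitution operator
  let e : (A × κ) × G → κ × G := fun b => (b.1.2, (b.1.1 : G)⁻¹ * b.2)
  have he : Set.InjOn e {b | b.2 ∈ (H : Set G)} := by
    rintro ⟨⟨g, k⟩, x⟩ hx ⟨⟨g', k'⟩, x'⟩ hx' h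
    obtain ⟨h1, h2⟩ := Prod.mk.inj h
    change x ∈ (H : Set G) at hx
    change x' ∈ (H : Set G) at hx'
    change k = k' at h1
    change (g : G)⁻¹ * x = (g' : G)⁻¹ * x' at h2
    have h3 : (g' : G) * (g : G)⁻¹ = x' * x⁻¹ := by
      have : (g' : G)⁻¹ * x' * x⁻¹ = (g : G)⁻¹ := by rw [← h2]; group
      rw [← this]; group
    have h4 : (g' : G) = g := by
      apply hd _ g'.2 _ g.2
      rw [h3]
      exact Subgroup.mul_mem _ hx' (Subgroup.inv_mem _ hx)
    have h5 : g = g' := Subtype.ext h4.symm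
    subst h5
    subst h1
    have h6 : x = x' := mul_left_cancel h2
    rw [h6]
  let Θ : HS G κ →L[ℝ] HS G (A × κ) := wop {b | b.2 ∈ (H : Set G)} e he
  -- the space of derivations of `H` orthogonal to the inner ones
  obtain ⟨V₀, hV₀⟩ : ∃ V₀ : Submodule ℝ (HS H τ), V₀ = derValues p ⊓ (innValues p)ᗮ := ⟨_, rfl⟩
  have hV₀c : IsClosed (V₀ : Set (HS H τ)) := by
    rw [hV₀, Submodule.coe_inf]
    exact (isClosed_derValues p hp).inter (Submodule.isClosed_orthogonal _)
  have hV₀i : Inv V₀ := by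
    rw [hV₀]
    exact (inv_derValues p).inf (Inv.orthogonal (inv_range (eqv_BS p)))
  have hkey : ∀ f ∈ Z, Θ (QS s (DS δ s f)) = Φ (jx H (QS p (jc H (DS δ p' f)))) := by
    intro f hf
    rw [← hΦj, jx_jc]
    apply HS.ext
    intro q x
    rw [hΦres, res_apply]
    show wop {b | b.2 ∈ (H : Set G)} e he (QS s (DS δ s f)) (q, x) = _
    rw [wop_apply]
    show (if x ∈ (H : Set G) then (QS s (DS δ s f)) (q.2, (q.1 : G)⁻¹ * x) else 0) = _
    congr 1
    have h1 : W q.1 (DS δ p' f) = DS δ (fun k => (q.1 : G) * s k * (q.1 : G)⁻¹) f := by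
      apply HS.ext_pr
      intro k
      rw [hWapp, pr_DS, hT3 q.1 k (fun g => δ g f) (fun g h => hδ g h f hf)]
      refine Finset.sum_congr rfl fun i _ => ?_
      rw [pr_DS]
    rw [← pr_apply q (Φ _) () x, hΦapp, h1, QS_DS_conj hδ s q.1 hf, pr_apply, lt_apply]
  -- the subspaces
  obtain ⟨V, hV⟩ : ∃ V : Submodule ℝ (HS G κ), V = Z.map (QS s ∘L DS δ s).toLinearMap := ⟨_, rfl⟩
  obtain ⟨Y, hY⟩ : ∃ Y : Submodule ℝ (HS G (A × κ)), Y = (ind H V₀).map Φ.toLinearMap := ⟨_, rfl⟩
  have hVinv : Inv V.topologicalClosure := by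
    rw [hV]
    exact (hZ.map ((eqv_QS s).comp (eqv_DS hδe s))).topologicalClosure
  have hvd : vdim (US Z δ s) = vdim V := by
    rw [hV]
    exact vdim_closure _
  have hΘ : ∀ u ∈ V.topologicalClosure, Θ u ∈ Y.topologicalClosure := by
    intro u hu
    have h1 : u ∈ closure (V : Set (HS G κ)) := hu
    have h2 : Θ u ∈ closure (Y : Set (HS G (A × κ))) := by
      refine map_mem_closure Θ.continuous h1 ?_
      intro v hv
      rw [hV] at hv
      obtain ⟨f, hf, rfl⟩ := hv
      rw [hY]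
      refine ⟨jx H (QS p (jc H (DS δ p' f))), ?_, (hkey f hf).symm⟩
      apply jx_mem_ind hV₀i
      rw [hV₀]
      apply QS_mem p hp
      rw [hp']
      exact jc_DS_mem H p hδ hf
    exact h2
  -- the estimate
  have hest : ∀ q : A × κ, ‖V.topologicalClosure.starProjection (ee q.2)‖ ^ 2 ≤
      ‖Y.topologicalClosure.starProjection (ee q)‖ ^ 2 := by
    intro q
    obtain ⟨u, hu⟩ : ∃ u, u = V.topologicalClosure.starProjection (dl q.2 (q.1 : G)⁻¹) := ⟨_, rfl⟩
    obtain ⟨w, hw⟩ : ∃ w, w = Y.topologicalClosure.starProjection (ee q) := ⟨_, rfl⟩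
    have hu1 : u = rt (q.1 : G) (V.topologicalClosure.starProjection (ee q.2)) := by
      rw [hu, ← rt_ee, hVinv.starProjection]
    have hu2 : ‖u‖ = ‖V.topologicalClosure.starProjection (ee q.2)‖ := by
      rw [hu1, LinearIsometryEquiv.norm_map]
    have hu3 : u ∈ V.topologicalClosure := by
      rw [hu]; exact Submodule.starProjection_apply_mem _ _
    have hu4 : ⟪dl q.2 (q.1 : G)⁻¹, u⟫ = ‖u‖ ^ 2 := by
      have h1 := Submodule.starProjection_inner_eq_zero (K := V.topologicalClosure)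
        (dl q.2 (q.1 : G)⁻¹) u hu3
      rw [← hu, inner_sub_left, sub_eq_zero, real_inner_self_eq_norm_sq] at h1
      exact h1
    have h5 : (Θ u) (q, 1) = u (q.2, (q.1 : G)⁻¹) := by
      show wop {b | b.2 ∈ (H : Set G)} e he u (q, 1) = _
      rw [wop_apply]
      show (if (1 : G) ∈ (H : Set G) then u (q.2, (q.1 : G)⁻¹ * 1) else 0) = _
      rw [if_pos (show (1 : G) ∈ (H : Set G) from H.one_mem), mul_one]
    have h6 : ⟪ee q, Θ u⟫ = ‖u‖ ^ 2 := by
      rw [inner_ee_left, h5, ← hu4, inner_dl']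
    have h7 : ⟪w, Θ u⟫ = ‖u‖ ^ 2 := by
      have h1 := Submodule.starProjection_inner_eq_zero
        (K := Y.topologicalClosure) (ee q) (Θ u) (hΘ u hu3)
      rw [← hw, inner_sub_left, sub_eq_zero, h6] at h1
      exact h1.symm
    have h8 : ‖u‖ ^ 2 ≤ ‖w‖ * ‖u‖ := by
      rw [← h7]
      exact (real_inner_le_norm _ _).trans
        (mul_le_mul_of_nonneg_left (norm_wop_le _ _ _ u) (norm_nonneg _))
    rw [← hu2, ← hw]
    have h9 : ‖u‖ ≤ ‖w‖ := by
      by_contra hcon
      push Not at hcon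
      have := norm_nonneg w
      nlinarith [norm_nonneg u]
    exact pow_le_pow_left₀ (norm_nonneg _) h9 2
  have hY1 : vdim Y ≤ betti p := by
    have h1 := vdim_map_add_ker (ind H V₀) (isClosed_ind hV₀c) (inv_ind V₀) Φ hΦe
    have h2 := vdim_nonneg (ind H V₀ ⊓ LinearMap.ker Φ.toLinearMap)
    have h3 := vdim_ind hV₀c hV₀i
    have h4 : betti p = vdim V₀ := by
      rw [hV₀]
      rfl
    rw [hY, h4]
    linarith
  calc (A.card : ℝ) * vdim (US Z δ s)
      = ∑ q : A × κ, ‖V.topologicalClosure.starProjection (ee q.2)‖ ^ 2 := by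
        rw [hvd, Fintype.sum_prod_type]
        show _ = ∑ x : A, ∑ y : κ, ‖V.topologicalClosure.starProjection (ee y)‖ ^ 2
        rw [Finset.sum_const, Finset.card_univ, Fintype.card_coe, nsmul_eq_mul]
        rfl
    _ ≤ ∑ q : A × κ, ‖Y.topologicalClosure.starProjection (ee q)‖ ^ 2 :=
        Finset.sum_le_sum fun q _ => hest q
    _ = vdim Y := rfl
    _ ≤ betti p := hY1

end Pool.Agent.VND
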