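import Pool.Agent.VND.Final
import Pool.Agent.VND.SpreadB

/-!
# Fixed cosets of a finitely generated perfect subgroup and first `l^2`-Betti numbers
-/

set_option autoImplicit false

open scoped BigOperators ENNReal RealInnerProductSpace

namespace Pool.Agent.VND

open Pool.Agent.FoxAsph Pool.Agent.RelGap Pool.Agent.RelGapTower

section fixed

variable {G : Type} [Group G]

/-- the right cosets `H g` that are fixed by right multiplication with the elements of `P` -/
def fixedCosets (H P : Subgroup G) : Set (Quotient (QuotientGroup.rightRel H)) :=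
  {q | ∀ g : G, Quotient.mk (QuotientGroup.rightRel H) g = q → ∀ x ∈ P, g * x * g⁻¹ ∈ H}

theorem mk_eq_mk_iff (H : Subgroup G) (g g' : G) :
    (Quotient.mk (QuotientGroup.rightRel H) g = Quotient.mk (QuotientGroup.rightRel H) g') ↔
      g' * g⁻¹ ∈ H := by
  rw [Quotient.eq]
  exact QuotientGroup.rightRel_apply

theorem mem_fixedCosets (H P : Subgroup G) (g : G) :
    Quotient.mk (QuotientGroup.rightRel H) g ∈ fixedCosets H P ↔ ∀ x ∈ P, g * x * g⁻¹ ∈ H := by
  constructor
  · intro h
    exact h g rfl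
  · intro h g' hg' x hx
    have h1 : g * g'⁻¹ ∈ H := (mk_eq_mk_iff H g' g).mp hg'
    have h2 : g' * x * g'⁻¹ = (g * g'⁻¹)⁻¹ * (g * x * g⁻¹) * (g * g'⁻¹) := by group
    rw [h2]
    exact H.mul_mem (H.mul_mem (H.inv_mem h1) (h x hx)) h1

/-- from finite sets of representatives to the number of fixed cosets -/
theorem fixedCosets_bound (H P : Subgroup G) (c B : ℝ) (hc : 0 < c)
    (h : ∀ A : Finset G, (∀ g ∈ A, ∀ x ∈ P, g * x * g⁻¹ ∈ H) →
      (∀ g ∈ A, ∀ g' ∈ A, g * g'⁻¹ ∈ H → g = g') → c * A.card ≤ B) :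
    (fixedCosets H P).Finite ∧ c * (fixedCosets H P).ncard ≤ B := by
  classical
  have key : ∀ S : Finset (Quotient (QuotientGroup.rightRel H)), (S : Set _) ⊆ fixedCosets H P →
      c * S.card ≤ B := by
    intro S hS
    have hinj : Function.Injective
        (Quotient.out : Quotient (QuotientGroup.rightRel H) → G) := Quotient.out_injective
    have h1 := h (S.image Quotient.out) (by
      intro g hg x hx
      obtain ⟨q, hq, rfl⟩ := Finset.mem_image.mp hg
      exact hS hq _ (Quotient.out_eq q) x hx) (by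
      intro g hg g' hg' hgg
      obtain ⟨q, _, rfl⟩ := Finset.mem_image.mp hg
      obtain ⟨q', _, rfl⟩ := Finset.mem_image.mp hg'
      have h2 := (mk_eq_mk_iff H (Quotient.out q') (Quotient.out q)).mpr hgg
      rw [Quotient.out_eq, Quotient.out_eq] at h2
      rw [h2])
    rwa [Finset.card_image_of_injective _ hinj] at h1
  have hfin : (fixedCosets H P).Finite := by
    by_contra hinf
    obtain ⟨M, hM⟩ := exists_nat_gt (B / c)
    obtain ⟨S, hS, hcard⟩ := Set.Infinite.exists_subset_card_eq (Set.not_finite.mp hinf) M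
    have h1 := key S hS
    rw [hcard] at h1
    rw [div_lt_iff₀ hc] at hM
    linarith
  refine ⟨hfin, ?_⟩
  have h1 := key hfin.toFinset (by rw [Set.Finite.coe_toFinset])
  rwa [← Set.ncard_eq_toFinset_card _ hfin] at h1

theorem le_ncard_of_finset {H P : Subgroup G} (hfin : (fixedCosets H P).Finite) (A : Finset G)
    (hA : ∀ g ∈ A, ∀ x ∈ P, g * x * g⁻¹ ∈ H)
    (hd : ∀ g ∈ A, ∀ g' ∈ A, g * g'⁻¹ ∈ H → g = g') : A.card ≤ (fixedCosets H P).ncard := by
  classical
  have h1 : (A.image (Quotient.mk (QuotientGroup.rightRel H))).card = A.card := by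
    apply Finset.card_image_of_injOn
    intro g hg g' hg' h
    exact (hd g' hg' g hg ((mk_eq_mk_iff H g g').mp h)).symm
  rw [← h1, ← Set.ncard_coe_finset]
  apply Set.ncard_le_ncard _ hfin
  intro q hq
  obtain ⟨g, hg, rfl⟩ := Finset.mem_image.mp (Finset.mem_coe.mp hq)
  exact (mem_fixedCosets H P g).mpr (hA g hg)

end fixed

/-- the main theorem, with sets of representatives -/
theorem spreading_betti {m n a b : ℕ} (rel : Fin n → Word (Fin m))
    (extra : Fin b → Word (Fin m ⊕ Fin a)) (hK : Contractible (extend rel extra)) (hnm : n < m)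
    (hL : ¬ Aspherical rel) :
    ∃ P : Subgroup (Grp rel), P.FG ∧ ⁅P, P⁆ = P ∧ ∃ c : ℝ, (m : ℝ) - n - 1 < c ∧
      ∀ (H : Subgroup (Grp rel)) (k : ℕ) (p : Fin k → H), Subgroup.closure (Set.range p) = ⊤ →
        ∀ A : Finset (Grp rel), (∀ g ∈ A, ∀ x ∈ P, g * x * g⁻¹ ∈ H) →
          (∀ g ∈ A, ∀ g' ∈ A, g * g'⁻¹ ∈ H → g = g') → c * A.card ≤ betti p := by
  classical
  have hE := prescribe_of_subcomplex rel extra hK
  have hr := sub_indep rel extra hK
  have hLI := quotient_locallyIndicable rel hE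
  by_contra hno
  apply hL
  intro z hz
  set R := perfRad (Grp rel) with hRdef
  have hZc : IsClosed ((LinearMap.ker (mop (Jm rel)).toLinearMap :
      Submodule ℝ (HS (Grp rel) (Fin m))) : Set (HS (Grp rel) (Fin m))) := isClosed_ker _
  have hZ : Inv (LinearMap.ker (mop (Jm rel)).toLinearMap) := inv_ker (eqv_mop _)
  have hUS : ∀ S : Finset (Grp rel), (S : Set (Grp rel)) ⊆ R →
      vdim (US (LinearMap.ker (mop (Jm rel)).toLinearMap) (der rel)
        (fun k : S => (k : Grp rel))) ≤ (m : ℝ) - n - 1 := by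
    intro S hS
    obtain ⟨P, hfg, hP, hSP⟩ := exists_perfect_of_finset S (fun x hx => hS hx)
    by_contra hne
    rw [not_le] at hne
    apply hno
    refine ⟨P, hfg, hP, _, hne, ?_⟩
    intro H k p hp A hA hd
    have h1 := spread_betti (LinearMap.ker (mop (Jm rel)).toLinearMap) hZ (der rel) (eqv_der rel)
      (der_mul rel) (fun k : S => (k : Grp rel)) H p hp A
      (fun g hg k => hA g hg _ (hSP _ k.2)) hd
    linarith
  have hnm' : (0 : ℝ) ≤ (m : ℝ) - n - 1 := by
    have : (n : ℝ) + 1 ≤ m := by exact_mod_cast hnm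
    linarith
  have hdim : vdim (LinearMap.ker (mop (Jm rel)).toLinearMap ⊓ (IR R (Fin m))ᗮ) ≤
      ((Fintype.card (Fin m) : ℝ) - Fintype.card (Fin n)) * vdim (IR R Unit)ᗮ := by
    rw [Fintype.card_fin, Fintype.card_fin]
    rcases Set.finite_or_infinite (R : Set (Grp rel)) with hfin | hinf
    · obtain ⟨χ, t, ht⟩ := exists_char rel hnm
      have h1 := kill R (LinearMap.ker (mop (Jm rel)).toLinearMap) hZc hZ (der rel) (eqv_der rel)
        (der_mul rel) (der_inj rel) (der_mem_IRo rel R) 0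
        (fun S hS => vdim_US_of_finite _ hZ (der rel) (eqv_der rel) (der_mul rel) R hfin _
          (fun k => hS k.2) χ t ht)
      have h2 := vdim_nonneg (IR R Unit)ᗮ
      nlinarith
    · have h1 := kill R (LinearMap.ker (mop (Jm rel)).toLinearMap) hZc hZ (der rel) (eqv_der rel)
        (der_mul rel) (der_inj rel) (der_mem_IRo rel R) _ hUS
      rw [vdim_IRo_of_infinite R hinf] at h1 ⊢
      linarith
  exact zero_of_right_inv rel hr R hLI z hz (right_inv_of_dim R (Jm rel) hdim z hz)

/-- **Theorem.** Let `L` be a connected subcomplex of a finite contractible 2-complex, `b₁(L) ≥ 1`,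
that is not aspherical. There are a finitely generated perfect subgroup `P` of the fundamental group
`G` and a constant `c > b₁(L) - 1` such that for every finitely generated subgroup `H` the group `P`
fixes at most `b₁⁽²⁾(H) / c` points of `H \ G`. -/
theorem fixed_betti {m n a b : ℕ} (rel : Fin n → Word (Fin m))
    (extra : Fin b → Word (Fin m ⊕ Fin a)) (hK : Contractible (extend rel extra)) (hnm : n < m)
    (hL : ¬ Aspherical rel) :
    ∃ P : Subgroup (Grp rel), P.FG ∧ ⁅P, P⁆ = P ∧ ∃ c : ℝ, (m : ℝ) - n - 1 < c ∧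
      ∀ (H : Subgroup (Grp rel)) (k : ℕ) (p : Fin k → H), Subgroup.closure (Set.range p) = ⊤ →
        (fixedCosets H P).Finite ∧ c * (fixedCosets H P).ncard ≤ betti p := by
  obtain ⟨P, h1, h2, c, h3, h4⟩ := spreading_betti rel extra hK hnm hL
  have hc : 0 < c := by
    have : (n : ℝ) + 1 ≤ m := by exact_mod_cast hnm
    linarith
  exact ⟨P, h1, h2, c, h3, fun H k p hp => fixedCosets_bound H P c _ hc (h4 H k p hp)⟩

/-- **Corollary.** If every finitely generated perfect subgroup lies in a finitely generated subgroup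
whose first `l^2`-Betti number is at most `b₁(L) - 1`, then the subcomplex is aspherical. -/
theorem aspherical_of_small_betti {m n a b : ℕ} (rel : Fin n → Word (Fin m))
    (extra : Fin b → Word (Fin m ⊕ Fin a)) (hK : Contractible (extend rel extra)) (hnm : n < m)
    (h : ∀ P : Subgroup (Grp rel), P.FG → ⁅P, P⁆ = P → ∃ (H : Subgroup (Grp rel)) (k : ℕ)
      (p : Fin k → H), Subgroup.closure (Set.range p) = ⊤ ∧ P ≤ H ∧ betti p ≤ (m : ℝ) - n - 1) :
    Aspherical rel := by
  classical
  by_contra hL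
  obtain ⟨P, h1, h2, c, hc, h4⟩ := spreading_betti rel extra hK hnm hL
  obtain ⟨H, k, p, hp, hPH, hb⟩ := h P h1 h2
  have h3 := h4 H k p hp {1} (by
    intro g hg x hx
    rw [Finset.mem_singleton] at hg
    rw [hg, one_mul, inv_one, mul_one]
    exact hPH hx) (by
    intro g hg g' hg' _
    rw [Finset.mem_singleton] at hg hg'
    rw [hg, hg'])
  rw [Finset.card_singleton, Nat.cast_one, mul_one] at h3
  linarith

/-- many conjugates of one perfect subgroup in the kernel of a homomorphism -/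
theorem no_spread_betti {G C : Type} [Group G] [Group C] (N : ℝ) (χ : G →* C) (t : G)
    (ht : ∀ i j : ℕ, χ (t ^ i) = χ (t ^ j) → i = j)
    (hN : ∀ P : Subgroup G, P.FG → ⁅P, P⁆ = P → ∃ (H : Subgroup G) (k : ℕ) (p : Fin k → H),
      Subgroup.closure (Set.range p) = ⊤ ∧ P ≤ H ∧ H ≤ χ.ker ∧ betti p ≤ N)
    (P : Subgroup G) (hfg : P.FG) (hperf : ⁅P, P⁆ = P) (c : ℝ) (hc : 0 < c)
    (h : ∀ (H : Subgroup G) (k : ℕ) (p : Fin k → H), Subgroup.closure (Set.range p) = ⊤ →
        ∀ A : Finset G, (∀ g ∈ A, ∀ x ∈ P, g * x * g⁻¹ ∈ H) →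
          (∀ g ∈ A, ∀ g' ∈ A, g * g'⁻¹ ∈ H → g = g') → c * A.card ≤ betti p) : False := by
  classical
  obtain ⟨M, hM⟩ := exists_nat_gt (N / c)
  obtain ⟨Q, hQ1, hQ2, hQ3⟩ := exists_perfect_conj P hfg hperf t M
  obtain ⟨H, k, p, hp, hQH, hker, hb⟩ := hN Q hQ1 hQ2
  have h4 := h H k p hp ((Finset.range M).image fun i => t ^ i) (by
      intro g hg x hx
      obtain ⟨i, hi, rfl⟩ := Finset.mem_image.1 hg
      exact hQH (hQ3 i (Finset.mem_range.1 hi) x hx)) (by
      intro g hg g' hg' hgg
      obtain ⟨i, hi, rfl⟩ := Finset.mem_image.1 hg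
      obtain ⟨j, hj, rfl⟩ := Finset.mem_image.1 hg'
      have h1 : χ (t ^ i * (t ^ j)⁻¹) = 1 := hker hgg
      rw [map_mul, map_inv, mul_inv_eq_one] at h1
      rw [ht i j h1])
  rw [Finset.card_image_of_injective _ (fun i j hij => ht i j (congrArg χ hij)),
    Finset.card_range] at h4
  rw [div_lt_iff₀ hc] at hM
  linarith

/-- **Corollary.** If, for one nontrivial homomorphism `χ` to `ℤ`, all finitely generated perfect
subgroups lie in finitely generated subgroups of the kernel of `χ` with bounded first `l^2`-Betti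
numbers, then the subcomplex is aspherical. -/
theorem aspherical_of_bounded_betti {m n a b : ℕ} (rel : Fin n → Word (Fin m))
    (extra : Fin b → Word (Fin m ⊕ Fin a)) (hK : Contractible (extend rel extra)) (hnm : n < m)
    (N : ℝ) (χ : Grp rel →* Multiplicative ℤ) (hχ : χ ≠ 1)
    (h : ∀ P : Subgroup (Grp rel), P.FG → ⁅P, P⁆ = P → ∃ (H : Subgroup (Grp rel)) (k : ℕ)
      (p : Fin k → H), Subgroup.closure (Set.range p) = ⊤ ∧ P ≤ H ∧ (∀ x ∈ H, χ x = 1) ∧
        betti p ≤ N) : Aspherical rel := by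
  by_contra hL
  obtain ⟨P, h1, h2, c, h3, h4⟩ := spreading_betti rel extra hK hnm hL
  have hc : 0 < c := by
    have : (n : ℝ) + 1 ≤ m := by exact_mod_cast hnm
    linarith
  obtain ⟨t, ht⟩ : ∃ t, χ t ≠ 1 := by
    by_contra hcon
    push Not at hcon
    exact hχ (MonoidHom.ext hcon)
  have hpow : ∀ i j : ℕ, χ (t ^ i) = χ (t ^ j) → i = j := by
    intro i j hij
    rw [map_pow, map_pow] at hij
    have h1 := congrArg Multiplicative.toAdd hij
    rw [toAdd_pow, toAdd_pow, nsmul_eq_mul, nsmul_eq_mul] at h1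
    have h2 : (χ t).toAdd ≠ 0 := fun h0 => ht (toAdd_eq_zero.1 h0)
    have h3 := mul_right_cancel₀ h2 h1
    exact_mod_cast h3
  refine no_spread_betti N χ t hpow ?_ P h1 h2 c hc h4
  intro P hP1 hP2
  obtain ⟨H, k, p, e1, e2, e3, e4⟩ := h P hP1 hP2
  exact ⟨H, k, p, e1, e2, fun x hx => e3 x hx, e4⟩

/-- a homomorphism to an abelian group kills perfect subgroups -/
theorem le_ker_of_perfect {G C : Type} [Group G] [CommGroup C] (χ : G →* C) (P : Subgroup G)
    (hP : ⁅P, P⁆ = P) : P ≤ χ.ker := by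
  rw [← hP, Subgroup.commutator_le]
  intro x _ y _
  rw [MonoidHom.mem_ker, map_commutatorElement, commutatorElement_def, mul_comm (χ x) (χ y),
    mul_inv_cancel_right, mul_inv_cancel]

/-- **Corollary.** If the first `l^2`-Betti numbers of the finitely generated perfect subgroups of the
fundamental group are bounded, then the subcomplex is aspherical. -/
theorem aspherical_of_bounded_perfect {m n a b : ℕ} (rel : Fin n → Word (Fin m))
    (extra : Fin b → Word (Fin m ⊕ Fin a)) (hK : Contractible (extend rel extra)) (hnm : n < m)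
    (N : ℝ) (h : ∀ P : Subgroup (Grp rel), P.FG → ⁅P, P⁆ = P → ∃ (k : ℕ) (p : Fin k → P),
      Subgroup.closure (Set.range p) = ⊤ ∧ betti p ≤ N) : Aspherical rel := by
  by_contra hL
  obtain ⟨P, h1, h2, c, h3, h4⟩ := spreading_betti rel extra hK hnm hL
  have hc : 0 < c := by
    have : (n : ℝ) + 1 ≤ m := by exact_mod_cast hnm
    linarith
  obtain ⟨χ, t, ht⟩ := exists_char rel hnm
  have hpow : ∀ i j : ℕ, χ (t ^ i) = χ (t ^ j) → i = j := by
    intro i j hij
    rw [map_pow, map_pow] at hij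
    have h1 := congrArg Multiplicative.toAdd hij
    rw [toAdd_pow, toAdd_pow, nsmul_eq_mul, nsmul_eq_mul] at h1
    have h2 : (χ t).toAdd ≠ 0 := fun h0 => ht (Multiplicative.toAdd.injective h0)
    have h3 := mul_right_cancel₀ h2 h1
    exact_mod_cast h3
  refine no_spread_betti N χ t hpow ?_ P h1 h2 c hc h4
  intro P hP1 hP2
  obtain ⟨k, p, e1, e2⟩ := h P hP1 hP2
  exact ⟨P, k, p, e1, le_rfl, le_ker_of_perfect χ P hP2, e2⟩

end Pool.Agent.VND
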