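import Pool.Agent.VND.Der
import Pool.Agent.VND.Rank

/-!
# Derivations that are almost inner on every finite subset of a normal subgroup
-/

set_option autoImplicit false

open scoped BigOperators ENNReal RealInnerProductSpace

namespace Pool.Agent.VND

variable {G : Type*} [Group G] {ι κ X : Type*}

/-- the kernel of the projection `QS s` is the closure of the values of the inner derivations -/
theorem mem_ker_QS [Fintype κ] (s : κ → G) {f : HS G κ} (h : QS s f = 0) :
    f ∈ (LinearMap.range (BS s).toLinearMap).topologicalClosure := by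
  unfold QS at h
  rw [Submodule.starProjection_apply_eq_zero_iff, Submodule.orthogonal_orthogonal_eq_closure] at h
  exact h

/-- the dimension of the values on `s ⊆ R` of derivations with values orthogonal to the `R`-invariant
vectors -/
theorem vdim_map_DS_le [Fintype X] [Fintype κ] (R : Subgroup G) (Z V : Submodule ℝ (HS G X))
    (hVZ : V ≤ Z) (hV : Inv V) (δ : G → HS G X →L[ℝ] HS G Unit)
    (hδe : ∀ g, Eqv (δ g)) (s : κ → G) (hs : ∀ k, s k ∈ R) :
    vdim (V.map (DS δ s).toLinearMap) ≤ vdim (US Z δ s) + vdim (IR R Unit)ᗮ := by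
  set W := (V.map (DS δ s).toLinearMap).topologicalClosure with hW
  have hWc : IsClosed (W : Set (HS G κ)) := Submodule.isClosed_topologicalClosure _
  have hWi : Inv W := Inv.topologicalClosure (Inv.map hV (eqv_DS hδe s))
  have h1 := vdim_map_add_ker W hWc hWi (QS s) (eqv_QS s)
  have h2 : W.map (QS s).toLinearMap ≤ US Z δ s := by
    rintro _ ⟨w, hw, rfl⟩
    have h3 : QS s w ∈ closure ((QS s) '' ((V.map (DS δ s).toLinearMap : Submodule ℝ (HS G κ)) :
        Set (HS G κ))) := by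
      refine image_closure_subset_closure_image (QS s).continuous ⟨w, ?_, rfl⟩
      exact hw
    refine closure_mono ?_ h3
    rintro _ ⟨_, ⟨f, hf, rfl⟩, rfl⟩
    exact ⟨f, hVZ hf, rfl⟩
  have h3 : W ⊓ LinearMap.ker (QS s).toLinearMap ≤
      (((IR R Unit)ᗮ).map (BS s).toLinearMap).topologicalClosure := by
    intro f hf
    have h4 : QS s f = 0 := hf.2
    exact Submodule.topologicalClosure_mono (range_BS_le R s hs) (mem_ker_QS s h4)
  have h4 := vdim_mono h2
  have h5 := vdim_mono h3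
  rw [vdim_closure] at h5
  have h6 := vdim_map_add_ker _ (Submodule.isClosed_orthogonal (IR R Unit))
    (Inv.orthogonal (inv_IR R Unit)) (BS s) (eqv_BS _)
  have h7 := vdim_nonneg ((IR R Unit)ᗮ ⊓ LinearMap.ker (BS s).toLinearMap)
  have h8 : vdim W = vdim (V.map (DS δ s).toLinearMap) := vdim_closure _
  linarith

/-- **Derivations with values orthogonal to the `R`-invariant vectors: their dimension is at most that
of the values plus a bound for the part that is not almost inner on finite subsets of `R`.** -/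
theorem kill [Fintype X] (R : Subgroup G) [hR : R.Normal] (Z : Submodule ℝ (HS G X))
    (hZc : IsClosed (Z : Set (HS G X))) (hZ : Inv Z) (δ : G → HS G X →L[ℝ] HS G Unit)
    (hδe : ∀ g, Eqv (δ g)) (hδ : ∀ g h, ∀ f ∈ Z, δ (g * h) f = δ g f + lt g (δ h f))
    (h0 : ∀ f ∈ Z, (∀ g, δ g f = 0) → f = 0)
    (hpr : ∀ f ∈ Z, f ∈ (IR R X)ᗮ → ∀ g, δ g f ∈ (IR R Unit)ᗮ) (c : ℝ)
    (hUS : ∀ S : Finset G, (S : Set G) ⊆ R → vdim (US Z δ (fun k : S => (k : G))) ≤ c) :
    vdim (Z ⊓ (IR R X)ᗮ) ≤ c + vdim (IR R Unit)ᗮ := by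
  classical
  let I : Type _ := {S : Finset G // (S : Set G) ⊆ R}
  have : Nonempty I := ⟨⟨∅, by simp⟩⟩
  have : IsDirectedOrder I := ⟨fun a b => ⟨⟨a.1 ∪ b.1, by
    rw [Finset.coe_union]; exact Set.union_subset a.2 b.2⟩,
    Finset.subset_union_left, Finset.subset_union_right⟩⟩
  let s : (d : I) → d.1 → G := fun d k => (k : G)
  let W : I → Submodule ℝ (HS G X) := fun d =>
    (Z ⊓ (IR R X)ᗮ) ⊓ LinearMap.ker (DS δ (s d)).toLinearMap
  have hVc : IsClosed ((Z ⊓ (IR R X)ᗮ : Submodule ℝ (HS G X)) : Set (HS G X)) := by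
    rw [Submodule.coe_inf]
    exact hZc.inter (Submodule.isClosed_orthogonal _)
  have hVi : Inv (Z ⊓ (IR R X)ᗮ) := Inv.inf hZ (Inv.orthogonal (inv_IR R X))
  have hW : Antitone W := by
    intro d d' hd f hf
    refine ⟨hf.1, ?_⟩
    have h1 : DS δ (s d') f = 0 := hf.2
    rw [DS_eq_zero_iff] at h1
    show DS δ (s d) f = 0
    rw [DS_eq_zero_iff]
    intro k
    exact h1 ⟨k, hd k.2⟩
  have hWc : ∀ d, IsClosed (W d : Set (HS G X)) := by
    intro d
    show IsClosed (((Z ⊓ (IR R X)ᗮ : Submodule ℝ (HS G X)) ⊓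
      LinearMap.ker (DS δ (s d)).toLinearMap : Submodule ℝ (HS G X)) : Set (HS G X))
    rw [Submodule.coe_inf]
    exact hVc.inter (isClosed_ker _)
  have hbound : ∀ d, vdim (Z ⊓ (IR R X)ᗮ) ≤ c + vdim (IR R Unit)ᗮ + vdim (W d) := by
    intro d
    have h1 := vdim_map_add_ker _ hVc hVi (DS δ (s d)) (eqv_DS hδe _)
    have h2 := vdim_map_DS_le R Z (Z ⊓ (IR R X)ᗮ) inf_le_left hVi δ hδe (s d) (fun k => d.2 k.2)
    have h3 := hUS d.1 d.2
    have h6 : vdim (W d) = vdim ((Z ⊓ (IR R X)ᗮ) ⊓ LinearMap.ker (DS δ (s d)).toLinearMap) := rfl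
    linarith
  have hinf : (⨅ d, W d) = ⊥ := by
    rw [eq_bot_iff]
    intro f hf
    rw [Submodule.mem_iInf] at hf
    rw [Submodule.mem_bot]
    have hfZ : f ∈ Z := (hf ⟨∅, by simp⟩).1.1
    have hfo : f ∈ (IR R X)ᗮ := (hf ⟨∅, by simp⟩).1.2
    have hr : ∀ r ∈ R, δ r f = 0 := by
      intro r hr
      have h1 : DS δ (s ⟨{r}, by simpa using hr⟩) f = 0 := (hf ⟨{r}, by simpa using hr⟩).2
      rw [DS_eq_zero_iff] at h1
      exact h1 ⟨r, Finset.mem_singleton_self r⟩
    apply h0 f hfZ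
    intro g
    have h1 : δ g f ∈ IR R Unit := by
      intro r hrR
      have e1 := hδ r g f hfZ
      rw [hr r hrR, zero_add] at e1
      have e2 := hδ g (g⁻¹ * r * g⁻¹⁻¹) f hfZ
      rw [hr _ (hR.conj_mem r hrR g⁻¹), map_zero, add_zero] at e2
      rw [← e1, ← e2]
      congr 2
      group
    have h2 := hpr f hfZ hfo g
    have h3 := Submodule.inner_right_of_mem_orthogonal h1 h2
    exact inner_self_eq_zero.mp h3
  have hlim := tendsto_vdim W hW hWc
  rw [hinf, vdim_bot] at hlim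
  have h7 : Filter.Tendsto (fun d => c + vdim (IR R Unit)ᗮ + vdim (W d)) Filter.atTop
      (nhds (c + vdim (IR R Unit)ᗮ + 0)) := hlim.const_add _
  rw [add_zero] at h7
  exact ge_of_tendsto' h7 hbound

end Pool.Agent.VND
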