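import Pool.Agent.VND.Elem

/-!
# Subgroups of infinite index in their normalizer
-/

set_option autoImplicit false

namespace Pool.Agent.VND

open Pool.Agent.FoxAsph Pool.Agent.RelGap

/-- a subgroup that contains `P` and has only finitely many cosets fixed by `P` has finite index in its
normalizer -/
theorem relIndex_normalizer_ne_zero {G : Type} [Group G] {H P : Subgroup G} (hP : P ≤ H)
    (hfin : (fixedCosets H P).Finite) : H.relIndex (Subgroup.normalizer (H : Set G)) ≠ 0 := by
  have hfin' : Finite (fixedCosets H P) := hfin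
  let N : Subgroup G := Subgroup.normalizer (H : Set G)
  let F : N → fixedCosets H P := fun g =>
    ⟨Quotient.mk (QuotientGroup.rightRel H) ((g : G)⁻¹), (mem_fixedCosets H P _).mpr (by
      intro x hx
      rw [inv_inv]
      exact (Subgroup.mem_normalizer_iff''.mp g.2 x).mp (hP hx))⟩
  have hF : ∀ g g' : N, F g = F g' ↔ (g : G)⁻¹ * g' ∈ H := by
    intro g g'
    rw [Subtype.mk.injEq]
    rw [eq_comm, mk_eq_mk_iff, inv_inv]
  have hfq : Finite (N ⧸ H.subgroupOf N) := by
    refine Finite.of_injective (Quotient.lift F (by
      intro g g' h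
      rw [hF]
      have h1 : g⁻¹ * g' ∈ H.subgroupOf N := QuotientGroup.leftRel_apply.mp h
      exact h1)) ?_
    intro q q'
    induction q using Quotient.inductionOn with
    | _ g =>
      induction q' using Quotient.inductionOn with
      | _ g' =>
        intro h
        have h1 : F g = F g' := h
        rw [hF] at h1
        have h2 : g⁻¹ * g' ∈ H.subgroupOf N := h1
        exact Quotient.sound (QuotientGroup.leftRel_apply.mpr h2)
  unfold Subgroup.relIndex
  exact Subgroup.index_ne_zero_iff_finite.mpr hfq

section center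

open scoped BigOperators ENNReal RealInnerProductSpace

variable {H : Type*} [Group H] {κ : Type*} [Fintype κ]

theorem BS_lt_of_central (s : κ → H) {z : H} (hz : ∀ x, x * z = z * x) (ξ : HS H Unit) :
    lt z (BS s ξ) = BS s (lt z ξ) := by
  apply HS.ext_pr
  intro k
  rw [pr_lt, pr_BS, pr_BS, map_sub, lt_mul, lt_mul, hz]

/-- the first `l^2`-Betti number of a group with infinite center is zero -/
theorem betti_of_center (s : κ → H) (hZ : (Subgroup.center H : Set H).Infinite) :
    betti s = 0 := by
  have h1 : derValues s ⊓ (innValues s)ᗮ = ⊥ := by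
    rw [eq_bot_iff]
    rintro f ⟨⟨c, hc, hs⟩, hf⟩
    have h2 : f ∈ IR (Subgroup.center H) κ := by
      intro z hz
      have hz' : ∀ x, x * z = z * x := fun x => Subgroup.mem_center_iff.mp hz x
      have hz'' : ∀ x, x * z⁻¹ = z⁻¹ * x := fun x =>
        Subgroup.mem_center_iff.mp (Subgroup.inv_mem _ hz) x
      have h3 : lt z f - f = BS s (c z) := by
        apply HS.ext_pr
        intro k
        rw [map_sub, pr_lt, pr_BS, ← hs k]
        have h4 := hc z (s k)
        have h5 := hc (s k) z
        rw [hz' (s k), h4] at h5
        rw [sub_eq_sub_iff_add_eq_add, add_comm (lt z (c (s k))), h5, add_comm]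
      have h4 : lt z f ∈ (innValues s)ᗮ := by
        rintro _ ⟨ξ, rfl⟩
        have h5 : ⟪BS s (lt z⁻¹ ξ), f⟫ = 0 := hf _ ⟨lt z⁻¹ ξ, rfl⟩
        rw [← BS_lt_of_central s hz'', inner_lt_left, inv_inv] at h5
        exact h5
      have h5 : lt z f - f ∈ innValues s := by
        rw [h3]
        exact ⟨c z, rfl⟩
      have h6 : lt z f - f = 0 :=
        inner_self_eq_zero.mp ((Submodule.sub_mem _ h4 hf) _ h5)
      exact sub_eq_zero.mp h6
    rw [IR_eq_bot hZ] at h2
    exact h2
  unfold betti
  rw [h1, vdim_bot]

end center

theorem l2Betti_of_center {G : Type} [Group G] {H : Subgroup G} (hH : H.FG)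
    (hZ : (Subgroup.center H : Set H).Infinite) : l2Betti H = 0 := by
  obtain ⟨k, p, hp⟩ := exists_family hH
  rw [l2Betti_eq p hp]
  exact betti_of_center p hZ

/-- a finitely generated subgroup of finite index in its normalizer and with infinite centralizer has
infinite center -/
theorem center_infinite {G : Type} [Group G] {P : Subgroup G}
    (hN : P.relIndex (Subgroup.normalizer (P : Set G)) ≠ 0)
    (hC : (Subgroup.centralizer (P : Set G) : Set G).Infinite) :
    (Subgroup.center P : Set P).Infinite := by
  intro hfin
  apply hC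
  have h1 : P.relIndex (Subgroup.centralizer (P : Set G)) ≠ 0 := by
    have h2 : Subgroup.centralizer (P : Set G) ≤ Subgroup.normalizer (P : Set G) := by
      intro x hx
      rw [Subgroup.mem_normalizer_iff]
      intro h
      have hcomm : ∀ y ∈ P, y * x = x * y := fun y hy =>
        (Subgroup.mem_centralizer_iff.mp hx y hy)
      constructor
      · intro hh
        rw [← hcomm h hh, mul_inv_cancel_right]
        exact hh
      · intro hh
        have h3 := hcomm _ hh
        rw [inv_mul_cancel_right] at h3
        have h4 : h = x * h * x⁻¹ := mul_left_cancel h3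
        rw [h4]
        exact hh
    exact fun h0 => hN (Subgroup.relIndex_eq_zero_of_le_right h2 h0)
  have h3 : Finite (P.subgroupOf (Subgroup.centralizer (P : Set G))) := by
    have h4 : Function.Injective (fun x : P.subgroupOf (Subgroup.centralizer (P : Set G)) =>
        ((⟨⟨(x : G), x.2⟩, by
          rw [Subgroup.mem_center_iff]
          intro g
          apply Subtype.ext
          exact Subgroup.mem_centralizer_iff.mp (x : Subgroup.centralizer (P : Set G)).2 g g.2⟩ :
          Subgroup.center P))) := by
      intro x y hxy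
      have h5 : ((x : Subgroup.centralizer (P : Set G)) : G) =
          ((y : Subgroup.centralizer (P : Set G)) : G) := congrArg (fun z : Subgroup.center P =>
        ((z : P) : G)) hxy
      exact Subtype.ext (Subtype.ext h5)
    have : Finite (Subgroup.center P) := hfin
    exact Finite.of_injective _ h4
  have h6 : Nat.card (P.subgroupOf (Subgroup.centralizer (P : Set G))) *
      (P.subgroupOf (Subgroup.centralizer (P : Set G))).index ≠ 0 :=
    mul_ne_zero (Nat.card_pos).ne' h1
  rw [Subgroup.card_mul_index] at h6
  have h7 : Finite (Subgroup.centralizer (P : Set G)) := Nat.finite_of_card_ne_zero h6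
  exact Set.toFinite _

/-- **Corollary.** -/
theorem aspherical_cases {m n a b : ℕ} (rel : Fin n → Word (Fin m))
    (extra : Fin b → Word (Fin m ⊕ Fin a)) (hK : Contractible (extend rel extra)) (hnm : n < m)
    (h : ∀ P : Subgroup (Grp rel), P.FG → ⁅P, P⁆ = P →
      (Subgroup.centralizer (P : Set (Grp rel)) : Set (Grp rel)).Infinite ∨
      (∃ T : Finset (Grp rel), T.card + n ≤ m ∧ P ≤ Subgroup.closure (T : Set (Grp rel))) ∨
      ∃ H : Subgroup (Grp rel), H.FG ∧ P ≤ H ∧ (firstBetti H ≤ (m : ℝ) - n - 1 ∨
        H.relIndex (Subgroup.normalizer (H : Set (Grp rel))) = 0)) : Aspherical rel := by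
  by_contra hL
  have h0 := lt_l2Betti rel extra hK hnm hL
  obtain ⟨c, hc1, hc2⟩ := exists_between h0
  have hc : 0 < c := by
    have : (n : ℝ) + 1 ≤ m := by exact_mod_cast hnm
    linarith
  obtain ⟨P, h1, h2, h4⟩ := fixed_points rel extra hK hnm hL c hc hc2
  have key : ∀ H : Subgroup (Grp rel), H.FG → P ≤ H → c ≤ l2Betti H := by
    intro H hH hPH
    obtain ⟨hfin, hle⟩ := h4 H hH
    have h5 : 1 ≤ (fixedCosets H P).ncard := by
      rw [Nat.one_le_iff_ne_zero, Ne, Set.ncard_eq_zero hfin]
      intro h6
      have h7 : Quotient.mk (QuotientGroup.rightRel H) (1 : Grp rel) ∈ fixedCosets H P :=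
        (mem_fixedCosets H P 1).mpr (by
          intro x hx
          rw [one_mul, inv_one, mul_one]
          exact hPH hx)
      rw [h6] at h7
      exact h7
    have h6 : (1 : ℝ) ≤ (fixedCosets H P).ncard := by exact_mod_cast h5
    nlinarith
  rcases h P h1 h2 with hC | ⟨T, hT, hPT⟩ | ⟨H, hH, hPH, hb | hb⟩
  · have h5 := relIndex_normalizer_ne_zero le_rfl (h4 P h1).1
    have h6 := key P h1 le_rfl
    rw [l2Betti_of_center h1 (center_infinite h5 hC)] at h6
    linarith
  · have h5 := key _ (fg_closure T) hPT
    have h6 := l2Betti_closure_le T (m - n) (by omega) (by omega)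
    rw [Nat.cast_sub hnm.le] at h6
    linarith
  · have h5 := key H hH hPH
    rw [firstBetti_eq] at hb
    linarith
  · exact relIndex_normalizer_ne_zero hPH (h4 H hH).1 hb

end Pool.Agent.VND
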